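import Pool.Agent.Work.MP_ecc80d_co_h34.A1

/-!
# Combination of the lower bound and the upper bound
-/

namespace Pool.Agent.RandomMakerFull

open Filter Topology
open Pool.Agent.RandomMaker (cliqueProb cliqueProb_anti cliqueProb_nonneg BreakerStrategy minProb
  winProb minProb_le)

lemma cliqueProb_le_one (N q : ℕ) : cliqueProb N q ≤ 1 := by
  classical
  let σ : BreakerStrategy (⊤ : SimpleGraph (Fin N)).edgeFinset :=
    ⟨fun h m => if hne : ((⊤ : SimpleGraph (Fin N)).edgeFinset \
        insert m (Pool.Agent.RandomMaker.claimed h)).Nonempty then hne.choose else m,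
      fun h m hne => by rw [dif_pos hne]; exact hne.choose_spec⟩
  refine (minProb_le σ).trans ?_
  unfold winProb
  refine (Pool.Agent.RandomMaker.expect_mono σ (g := fun _ => (1 : ℝ)) ?_ _ _).trans
    (expect_const_valid σ 1 _ _ valid_nil card_nil).le
  intro M
  split_ifs <;> norm_num

/-- A diagonal argument: there is a sequence `q N ~ 2 ln N` with `p_N(q N) → 1`. -/
theorem exists_seq (hZ2 : Stmt_Z2) : ∃ q : ℕ → ℕ,
    Tendsto (fun N => cliqueProb N (q N)) atTop (𝓝 1) ∧
    Tendsto (fun N => (q N : ℝ) / Real.log N) atTop (𝓝 2) := by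
  classical
  have h1 : ∀ k : ℕ, ∃ n : ℕ, ∀ N ≥ n, ∀ q : ℕ,
      (q : ℝ) ≤ (2 - 1 / ((k : ℝ) + 1)) * Real.log N → 1 - 1 / ((k : ℝ) + 1) < cliqueProb N q := by
    intro k
    exact eventually_atTop.mp (hZ2 (1 / ((k : ℝ) + 1)) (by positivity))
  choose f hf using h1
  set K : ℕ → ℕ := fun N => Nat.findGreatest (fun k => ∀ j ≤ k, f j ≤ N) N with hK
  have hKtop : Tendsto K atTop atTop := by
    rw [tendsto_atTop]
    intro k
    filter_upwards [eventually_ge_atTop k, eventually_ge_atTop ((Finset.range (k + 1)).sup f)]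
      with N hN1 hN2
    refine Nat.le_findGreatest hN1 ?_
    intro j hj
    exact (Finset.le_sup (f := f) (Finset.mem_range.mpr (by omega))).trans hN2
  have hKprop : ∀ᶠ N in atTop, f (K N) ≤ N := by
    filter_upwards [eventually_ge_atTop (f 0)] with N hN
    have := Nat.findGreatest_spec (P := fun k => ∀ j ≤ k, f j ≤ N) (m := 0) (Nat.zero_le N)
      (fun j hj => by
        have : j = 0 := by omega
        rw [this]; exact hN)
    exact this (K N) le_rfl
  have hinv : Tendsto (fun N => 1 / ((K N : ℝ) + 1)) atTop (𝓝 0) :=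
    tendsto_one_div_add_atTop_nhds_zero_nat.comp hKtop
  have hlogtop : Tendsto (fun N : ℕ => Real.log (N : ℝ)) atTop atTop :=
    Real.tendsto_log_atTop.comp tendsto_natCast_atTop_atTop
  set q : ℕ → ℕ := fun N => ⌊(2 - 1 / ((K N : ℝ) + 1)) * Real.log N⌋₊ with hq
  have hcoef : ∀ N, 1 ≤ 2 - 1 / ((K N : ℝ) + 1) := by
    intro N
    have : 1 / ((K N : ℝ) + 1) ≤ 1 := by
      rw [div_le_one (by positivity)]
      have : (0 : ℝ) ≤ K N := Nat.cast_nonneg _
      linarith
    linarith
  have hqle : ∀ᶠ N in atTop, (q N : ℝ) ≤ (2 - 1 / ((K N : ℝ) + 1)) * Real.log N := by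
    filter_upwards [eventually_ge_atTop 1] with N hN
    apply Nat.floor_le
    apply mul_nonneg (by linarith [hcoef N])
    exact Real.log_nonneg (by exact_mod_cast hN)
  refine ⟨q, ?_, ?_⟩
  · refine tendsto_of_tendsto_of_tendsto_of_le_of_le' (g := fun N => 1 - 1 / ((K N : ℝ) + 1))
      (h := fun _ => 1) ?_ tendsto_const_nhds ?_ ?_
    · simpa using hinv.const_sub 1
    · filter_upwards [hKprop, hqle] with N hN1 hN2
      exact (hf (K N) N hN1 (q N) hN2).le
    · exact Eventually.of_forall fun N => cliqueProb_le_one N (q N)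
  · refine tendsto_of_tendsto_of_tendsto_of_le_of_le'
      (g := fun N => 2 - 1 / ((K N : ℝ) + 1) - (Real.log N)⁻¹)
      (h := fun N => 2 - 1 / ((K N : ℝ) + 1)) ?_ ?_ ?_ ?_
    · simpa using (hinv.const_sub 2).sub (tendsto_inv_atTop_zero.comp hlogtop)
    · simpa using hinv.const_sub 2
    · filter_upwards [hlogtop.eventually_gt_atTop 0] with N hN
      rw [le_div_iff₀ hN, sub_mul, inv_mul_cancel₀ hN.ne']
      have := Nat.lt_floor_add_one ((2 - 1 / ((K N : ℝ) + 1)) * Real.log N)
      have h2 : (q N : ℝ) = ⌊(2 - 1 / ((K N : ℝ) + 1)) * Real.log N⌋₊ := rfl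
      rw [h2]
      linarith
    · filter_upwards [hlogtop.eventually_gt_atTop 0, hqle] with N hN hN2
      rw [div_le_iff₀ hN]
      exact hN2

/-- The upper bound for sequences. -/
theorem seq_lt (hup : ∀ᶠ N : ℕ in atTop, ∀ q : ℕ,
    2 * Real.log N - Real.log (Real.log N) + 8 ≤ q → cliqueProb N q ≤ Real.exp (-(q : ℝ)))
    (q : ℕ → ℕ) (hq : Tendsto (fun N => cliqueProb N (q N)) atTop (𝓝 1)) :
    ∀ᶠ N : ℕ in atTop, (q N : ℝ) < 2 * Real.log N - Real.log (Real.log N) + 8 := by
  have h1 : ∀ᶠ N in atTop, 1 / 2 < cliqueProb N (q N) :=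
    hq.eventually (lt_mem_nhds (by norm_num))
  have hlogtop : Tendsto (fun N : ℕ => Real.log (N : ℝ)) atTop atTop :=
    Real.tendsto_log_atTop.comp tendsto_natCast_atTop_atTop
  filter_upwards [hup, h1, hlogtop.eventually_ge_atTop 1] with N hN1 hN2 hN3
  by_contra hcon
  push Not at hcon
  have h2 := hN1 (q N) hcon
  have h3 : Real.log (Real.log N) ≤ Real.log N - 1 :=
    Real.log_le_sub_one_of_pos (by linarith)
  have h4 : (1 : ℝ) ≤ q N := by linarith
  have h5 : Real.exp (-(q N : ℝ)) ≤ Real.exp (-1) := Real.exp_le_exp.mpr (by linarith)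
  have h6 : Real.exp (-1) < 1 / 2 := by
    have := Real.exp_one_gt_d9
    rw [Real.exp_neg, inv_lt_comm₀ (Real.exp_pos _) (by norm_num)]
    linarith
  linarith

end Pool.Agent.RandomMakerFull
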