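import Pool.Agent.Work.MP_ecc80d_co_h34.Defs

/-!
# Finite conditional expectations
-/

namespace Pool.Agent.RandomMakerFull

open Finset

section cE

variable {Ω β γ : Type*} [Fintype Ω] [DecidableEq β] [DecidableEq γ]

lemma cE_eq_of_eq (w : Ω → ℝ) (p : Ω → β) (f : Ω → ℝ) {ω ω' : Ω} (h : p ω = p ω') :
    cE w p f ω = cE w p f ω' := by
  unfold cE; rw [h]

/-- Fibrewise summation. -/
lemma sum_fiber (p : Ω → β) (F : Ω → ℝ) :
    ∑ ω, F ω = ∑ s ∈ univ.image p, ∑ ω with p ω = s, F ω := by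
  classical
  exact (sum_fiberwise_of_maps_to (s := univ) (t := univ.image p) (g := p)
    (fun ω _ => mem_image_of_mem p (mem_univ ω)) F).symm

lemma cE_tower (w : Ω → ℝ) (hw : ∀ ω, 0 ≤ w ω) (p : Ω → β) (f : Ω → ℝ) (g : β → ℝ) :
    ∑ ω, w ω * (g (p ω) * cE w p f ω) = ∑ ω, w ω * (g (p ω) * f ω) := by
  rw [sum_fiber p, sum_fiber p (fun ω => w ω * (g (p ω) * f ω))]
  refine sum_congr rfl fun s hs => ?_
  obtain ⟨ω₀, -, rfl⟩ := mem_image.mp hs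
  have h1 : ∑ ω with p ω = p ω₀, w ω * (g (p ω) * cE w p f ω) =
      (∑ ω with p ω = p ω₀, w ω) * (g (p ω₀) * cE w p f ω₀) := by
    rw [sum_mul]
    refine sum_congr rfl fun ω hω => ?_
    have hω' : p ω = p ω₀ := (mem_filter.mp hω).2
    rw [hω', cE_eq_of_eq w p f hω']
  have h2 : ∑ ω with p ω = p ω₀, w ω * (g (p ω) * f ω) =
      g (p ω₀) * ∑ ω with p ω = p ω₀, w ω * f ω := by
    rw [mul_sum]
    refine sum_congr rfl fun ω hω => ?_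
    have hω' : p ω = p ω₀ := (mem_filter.mp hω).2
    rw [hω']; ring
  rw [h1, h2]
  unfold cE
  rcases eq_or_ne (∑ ω with p ω = p ω₀, w ω) 0 with h0 | h0
  · have hz : ∀ ω ∈ univ.filter (fun ω => p ω = p ω₀), w ω = 0 :=
      (sum_eq_zero_iff_of_nonneg fun ω _ => hw ω).mp h0
    rw [h0, sum_eq_zero (fun ω hω => by rw [hz ω hω, zero_mul])]
    simp
  · field_simp

lemma cE_tower' (w : Ω → ℝ) (hw : ∀ ω, 0 ≤ w ω) (p : Ω → β) (f h : Ω → ℝ)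
    (hh : ∀ ω ω', p ω = p ω' → h ω = h ω') :
    ∑ ω, w ω * (h ω * cE w p f ω) = ∑ ω, w ω * (h ω * f ω) := by
  classical
  rcases isEmpty_or_nonempty Ω with he | he
  · simp
  have hg : ∀ ω, h ω = (fun s => h (Function.invFun p s)) (p ω) := by
    intro ω
    refine hh _ _ ?_
    exact (Function.invFun_eq ⟨ω, rfl⟩).symm
  have := cE_tower w hw p f (fun s => h (Function.invFun p s))
  calc ∑ ω, w ω * (h ω * cE w p f ω)
      = ∑ ω, w ω * ((fun s => h (Function.invFun p s)) (p ω) * cE w p f ω) :=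
        sum_congr rfl fun ω _ => by rw [← hg ω]
    _ = ∑ ω, w ω * ((fun s => h (Function.invFun p s)) (p ω) * f ω) := this
    _ = _ := sum_congr rfl fun ω _ => by rw [← hg ω]

lemma cE_energy (w : Ω → ℝ) (hw : ∀ ω, 0 ≤ w ω) (p : Ω → β) (p' : Ω → γ)
    (h : ∀ ω ω', p' ω = p' ω' → p ω = p ω') (f : Ω → ℝ) :
    ∑ ω, w ω * (cE w p' f ω - cE w p f ω) ^ 2 =
      ∑ ω, w ω * (cE w p' f ω) ^ 2 - ∑ ω, w ω * (cE w p f ω) ^ 2 := by
  have h1 : ∑ ω, w ω * (cE w p f ω * cE w p' f ω) = ∑ ω, w ω * (cE w p f ω * f ω) :=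
    cE_tower' w hw p' f (cE w p f) (fun ω ω' hh => cE_eq_of_eq w p f (h ω ω' hh))
  have h2 : ∑ ω, w ω * (cE w p f ω * cE w p f ω) = ∑ ω, w ω * (cE w p f ω * f ω) :=
    cE_tower' w hw p f (cE w p f) (fun ω ω' hh => cE_eq_of_eq w p f hh)
  have h3 : ∑ ω, w ω * (cE w p' f ω - cE w p f ω) ^ 2 =
      ∑ ω, w ω * (cE w p' f ω) ^ 2 - 2 * ∑ ω, w ω * (cE w p f ω * cE w p' f ω) +
        ∑ ω, w ω * (cE w p f ω * cE w p f ω) := by
    rw [mul_sum, ← sum_sub_distrib, ← sum_add_distrib]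
    refine sum_congr rfl fun ω _ => by ring
  have h4 : ∑ ω, w ω * (cE w p f ω) ^ 2 = ∑ ω, w ω * (cE w p f ω * cE w p f ω) :=
    sum_congr rfl fun ω _ => by ring
  rw [h3, h4, h1, h2]; ring

lemma cE_energy_le (w : Ω → ℝ) (hw : ∀ ω, 0 ≤ w ω) (p : Ω → β) (p' : Ω → γ)
    (h : ∀ ω ω', p' ω = p' ω' → p ω = p ω') (f : Ω → ℝ) :
    ∑ ω, w ω * (cE w p f ω) ^ 2 ≤ ∑ ω, w ω * (cE w p' f ω) ^ 2 := by
  have h1 := cE_energy w hw p p' h f
  have h2 : 0 ≤ ∑ ω, w ω * (cE w p' f ω - cE w p f ω) ^ 2 :=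
    sum_nonneg fun ω _ => mul_nonneg (hw ω) (sq_nonneg _)
  linarith

lemma cE_nonneg (w : Ω → ℝ) (hw : ∀ ω, 0 ≤ w ω) (p : Ω → β) (f : Ω → ℝ) (hf : ∀ ω, 0 ≤ f ω)
    (ω : Ω) : 0 ≤ cE w p f ω :=
  div_nonneg (sum_nonneg fun ω' _ => mul_nonneg (hw ω') (hf ω')) (sum_nonneg fun ω' _ => hw ω')

lemma cE_le_one (w : Ω → ℝ) (hw : ∀ ω, 0 ≤ w ω) (p : Ω → β) (f : Ω → ℝ) (hf : ∀ ω, f ω ≤ 1)
    (ω : Ω) : cE w p f ω ≤ 1 := by
  unfold cE
  apply div_le_one_of_le₀ _ (sum_nonneg fun ω' _ => hw ω')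
  exact sum_le_sum fun ω' _ => by nlinarith [hw ω', hf ω']

/-- Conditional expectations given two maps with the same fibres agree. -/
lemma cE_congr_map (w : Ω → ℝ) (p : Ω → β) (p' : Ω → γ) (h : ∀ ω ω', p ω = p ω' ↔ p' ω = p' ω')
    (f : Ω → ℝ) : cE w p f = cE w p' f := by
  classical
  funext ω
  unfold cE
  have : univ.filter (fun ω' => p ω' = p ω) = univ.filter (fun ω' => p' ω' = p' ω) := by
    ext ω'; simp [h ω' ω]
  rw [this]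

/-- Cauchy-Schwarz in the form `(E |f|) ^ 2 ≤ E f ^ 2` for weights of total mass at most one. -/
lemma sum_abs_sq_le (w : Ω → ℝ) (hw : ∀ ω, 0 ≤ w ω) (h1 : ∑ ω, w ω ≤ 1) (f : Ω → ℝ) :
    (∑ ω, w ω * |f ω|) ^ 2 ≤ ∑ ω, w ω * (f ω) ^ 2 := by
  have hcs := Finset.sum_mul_sq_le_sq_mul_sq univ (fun ω => Real.sqrt (w ω))
    (fun ω => Real.sqrt (w ω) * |f ω|)
  have e1 : ∀ ω, Real.sqrt (w ω) * (Real.sqrt (w ω) * |f ω|) = w ω * |f ω| := by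
    intro ω; rw [← mul_assoc, Real.mul_self_sqrt (hw ω)]
  have e2 : ∀ ω, Real.sqrt (w ω) ^ 2 = w ω := fun ω => Real.sq_sqrt (hw ω)
  have e3 : ∀ ω, (Real.sqrt (w ω) * |f ω|) ^ 2 = w ω * (f ω) ^ 2 := by
    intro ω; rw [mul_pow, e2, sq_abs]
  simp only [e1, e2, e3] at hcs
  refine hcs.trans ?_
  have h0 : 0 ≤ ∑ ω, w ω * (f ω) ^ 2 := sum_nonneg fun ω _ => mul_nonneg (hw ω) (sq_nonneg _)
  nlinarith

end cE

end Pool.Agent.RandomMakerFull
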