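import Pool.Agent.Work.MP_ecc80d_co_h34.Interface
import Pool.Agent.Work.MP_ecc80d_co_h34.CondExp

/-!
# Block C1: majorisation of the conditional probabilities
-/

namespace Pool.Agent.RandomMakerFull

open Finset

section C1

variable {N : ℕ}

/-- The pairs touching `S`. -/
def touch (S : Finset (Fin N)) : Finset (Sym2 (Fin N)) :=
  (S ×ˢ (univ : Finset (Fin N))).image (fun p => s(p.1, p.2))

lemma card_touch_le (S : Finset (Fin N)) : (touch S).card ≤ S.card * N := by
  unfold touch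
  refine card_image_le.trans ?_
  rw [card_product, card_univ, Fintype.card_fin]

lemma mem_prs_iff {T : Finset (Fin N)} {e : Sym2 (Fin N)} :
    e ∈ prs T ↔ e ∈ T.sym2 ∧ ¬ e.IsDiag := by simp [prs]

lemma mem_touch_of_around {S : Finset (Fin N)} {e f : Sym2 (Fin N)} (hf : ¬ f.IsDiag)
    (hfa : f ∈ around S e) : f ∈ touch S := by
  induction f with
  | _ x y =>
  unfold around at hfa
  rw [mem_erase, mk_mem_sym2_iff] at hfa
  obtain ⟨hne, hx, hy⟩ := hfa
  rw [mem_union] at hx hy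
  have hxy : x ≠ y := by simpa using hf
  by_cases hxS : x ∈ S
  · exact mem_image.mpr ⟨(x, y), by simp [hxS], rfl⟩
  by_cases hyS : y ∈ S
  · exact mem_image.mpr ⟨(y, x), by simp [hyS], Sym2.eq_swap⟩
  exfalso
  have hx' := hx.resolve_left hxS
  have hy' := hy.resolve_left hyS
  rw [Sym2.mem_toFinset] at hx' hy'
  apply hne
  exact ((Sym2.mem_and_mem_iff hxy).mp ⟨hx', hy'⟩).symm

lemma c1_card_prs (T : Finset (Fin N)) : (prs T).card = T.card.choose 2 := by
  rw [← Sym2.card_image_offDiag T]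
  congr 1
  ext e
  induction e with
  | _ x y =>
  rw [mem_prs_iff, mk_mem_sym2_iff, mem_image]
  constructor
  · rintro ⟨⟨hx, hy⟩, hd⟩
    exact ⟨(x, y), by rw [mem_offDiag]; exact ⟨hx, hy, by simpa using hd⟩, rfl⟩
  · rintro ⟨⟨u, v⟩, huv, he⟩
    rw [mem_offDiag] at huv
    simp only at huv
    have : s(u, v) ∈ prs T := mem_prs_iff.mpr
      ⟨mk_mem_sym2_iff.mpr ⟨huv.1, huv.2.1⟩, by simpa using huv.2.2⟩
    change s(u, v) = s(x, y) at he
    rw [he] at this
    rw [mem_prs_iff, mk_mem_sym2_iff] at this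
    exact this

lemma isDiag_map_iff (τ : Equiv.Perm (Fin N)) (e : Sym2 (Fin N)) :
    (e.map τ).IsDiag ↔ e.IsDiag := by
  induction e with
  | _ x y => simp [Sym2.map_mk]

lemma map_inj (τ : Equiv.Perm (Fin N)) : Function.Injective (Sym2.map τ) :=
  Sym2.map.injective τ.injective

lemma not_isDiag_of_mem_pos {τ : Equiv.Perm (Fin N)} {M : Finset (Sym2 (Fin N))}
    (hM : M ⊆ prs univ) {f : Sym2 (Fin N)} (hf : f ∈ pos (τ, M)) : ¬ f.IsDiag := by
  have h1 : f.map τ ∈ M := by simpa [pos] using hf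
  have h2 := (mem_prs_iff.mp (hM h1)).2
  rwa [isDiag_map_iff] at h2

/-- The observation around `S` only depends on the pairs touching `S`. -/
lemma obs_around_eq {τ : Equiv.Perm (Fin N)} {M M' : Finset (Sym2 (Fin N))}
    (hM : M ⊆ prs univ) (hM' : M' ⊆ prs univ) {S : Finset (Fin N)}
    (h : pos (τ, M) ∩ touch S = pos (τ, M') ∩ touch S) (e : Sym2 (Fin N)) :
    obs (around S e) (τ, M) = obs (around S e) (τ, M') := by
  have key : ∀ {M₁ M₂ : Finset (Sym2 (Fin N))}, M₁ ⊆ prs univ →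
      pos (τ, M₁) ∩ touch S = pos (τ, M₂) ∩ touch S →
      pos (τ, M₁) ∩ around S e ⊆ pos (τ, M₂) ∩ around S e := by
    intro M₁ M₂ h1 h2 f hf
    rw [mem_inter] at hf ⊢
    have h3 : f ∈ pos (τ, M₁) ∩ touch S :=
      mem_inter.mpr ⟨hf.1, mem_touch_of_around (not_isDiag_of_mem_pos h1 hf.1) hf.2⟩
    rw [h2] at h3
    exact ⟨(mem_inter.mp h3).1, hf.2⟩
  unfold obs
  exact Prod.ext rfl (Subset.antisymm (key hM h) (key hM' h.symm))

/-- The pairs outside `S` with small conditional probability. -/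
noncomputable def lowSet (w : Finset (Sym2 (Fin N)) → ℝ) (S : Finset (Fin N)) (l : ℝ)
    (ω : Sp N) : Finset (Sym2 (Fin N)) :=
  (prs (univ \ S)).filter (fun e => aS w S e ω ≤ l)

lemma lowSet_eq (w : Finset (Sym2 (Fin N)) → ℝ) {S : Finset (Fin N)} {l : ℝ}
    {τ : Equiv.Perm (Fin N)} {M M' : Finset (Sym2 (Fin N))}
    (hM : M ⊆ prs univ) (hM' : M' ⊆ prs univ)
    (h : pos (τ, M) ∩ touch S = pos (τ, M') ∩ touch S) :
    lowSet w S l (τ, M) = lowSet w S l (τ, M') := by
  unfold lowSet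
  refine filter_congr fun e _ => ?_
  have : aS w S e (τ, M) = aS w S e (τ, M') := by
    unfold aS
    exact cE_eq_of_eq _ _ _ (obs_around_eq hM hM' h e)
  rw [this]

/-- Counting after relabelling. -/
lemma card_inter_image (τ : Equiv.Perm (Fin N)) (M L : Finset (Sym2 (Fin N))) :
    (M ∩ L.image (Sym2.map τ)).card = (pos (τ, M) ∩ L).card := by
  rw [← card_image_of_injective (pos (τ, M) ∩ L) (map_inj τ)]
  congr 1
  ext e
  simp only [mem_inter, mem_image, pos, mem_filter, mem_univ, true_and]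
  constructor
  · rintro ⟨h1, f, hf, rfl⟩
    exact ⟨f, ⟨h1, hf⟩, rfl⟩
  · rintro ⟨f, ⟨h1, h2⟩, rfl⟩
    exact ⟨h1, f, h2, rfl⟩

/-- Exponential moment for a set of pairs which may depend on the pairs touching `S`. -/
lemma exp_moment {w : Finset (Sym2 (Fin N)) → ℝ} (hw : ∀ M, 0 ≤ w M)
    (hw0 : ∀ M, ¬ M ⊆ prs (univ : Finset (Fin N)) → w M = 0) (hG : GameBound w)
    {S : Finset (Fin N)} (τ : Equiv.Perm (Fin N))
    (L : Finset (Sym2 (Fin N)) → Finset (Sym2 (Fin N)))
    (hL : ∀ M, L M ⊆ prs univ)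
    (hLS : ∀ M M', M ⊆ prs univ → M' ⊆ prs univ →
      pos (τ, M) ∩ touch S = pos (τ, M') ∩ touch S → L M = L M')
    {t : ℝ} (ht : 0 ≤ t) (ht1 : t ≤ 1) :
    ∑ M, w M * Real.exp (t * (((L M).card : ℝ) ^ 2 / (2 * (N.choose 2 : ℝ)) -
      ((pos (τ, M) ∩ L M).card : ℝ))) ≤
      2 ^ (S.card * N) * Real.exp (t ^ 2 * (N.choose 2 : ℝ)) := by
  classical
  -- representative of each possible observation
  let rep : Finset (Sym2 (Fin N)) → Finset (Sym2 (Fin N)) := fun P =>
    if h : ∃ M, M ⊆ prs univ ∧ pos (τ, M) ∩ touch S = P then L h.choose else ∅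
  have hrep : ∀ M, M ⊆ prs univ → rep (pos (τ, M) ∩ touch S) = L M := by
    intro M hM
    have hex : ∃ M', M' ⊆ prs univ ∧ pos (τ, M') ∩ touch S = pos (τ, M) ∩ touch S :=
      ⟨M, hM, rfl⟩
    have : rep (pos (τ, M) ∩ touch S) = L hex.choose := by
      simp only [rep]
      rw [dif_pos hex]
    rw [this]
    exact hLS _ _ hex.choose_spec.1 hM hex.choose_spec.2
  have hrepsub : ∀ P, rep P ⊆ prs univ := by
    intro P
    simp only [rep]
    split_ifs with h
    · exact hL _
    · exact empty_subset _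
  have hterm : ∀ P, ∑ M, w M * Real.exp (t * (((rep P).card : ℝ) ^ 2 / (2 * (N.choose 2 : ℝ)) -
      ((pos (τ, M) ∩ rep P).card : ℝ))) ≤ Real.exp (t ^ 2 * (N.choose 2 : ℝ)) := by
    intro P
    have h1 := hG ((rep P).image (Sym2.map τ)) (by
      intro e he
      obtain ⟨f, hf, rfl⟩ := mem_image.mp he
      rw [mem_prs_iff]
      refine ⟨by simp, ?_⟩
      rw [isDiag_map_iff]
      exact (mem_prs_iff.mp (hrepsub P hf)).2) t ht ht1
    rw [card_image_of_injective _ (map_inj τ)] at h1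
    have h2 : ∑ M, w M * Real.exp (t * (((rep P).card : ℝ) ^ 2 / (2 * (N.choose 2 : ℝ)) -
        ((pos (τ, M) ∩ rep P).card : ℝ))) =
        Real.exp (t * ((rep P).card : ℝ) ^ 2 / (2 * (N.choose 2 : ℝ))) *
          ∑ M, w M * Real.exp (-(t * ((M ∩ (rep P).image (Sym2.map τ)).card : ℝ))) := by
      rw [mul_sum]
      refine sum_congr rfl fun M _ => ?_
      rw [card_inter_image τ M (rep P), mul_left_comm, ← Real.exp_add]
      congr 2
      ring
    rw [h2]
    refine (mul_le_mul_of_nonneg_left h1 (Real.exp_pos _).le).trans ?_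
    rw [← Real.exp_add]
    apply le_of_eq
    congr 1
    ring
  calc ∑ M, w M * Real.exp (t * (((L M).card : ℝ) ^ 2 / (2 * (N.choose 2 : ℝ)) -
        ((pos (τ, M) ∩ L M).card : ℝ)))
      ≤ ∑ M, ∑ P ∈ (touch S).powerset, w M *
          Real.exp (t * (((rep P).card : ℝ) ^ 2 / (2 * (N.choose 2 : ℝ)) -
            ((pos (τ, M) ∩ rep P).card : ℝ))) := by
        refine sum_le_sum fun M _ => ?_
        by_cases hM : M ⊆ prs univ
        · have hmem : pos (τ, M) ∩ touch S ∈ (touch S).powerset :=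
            mem_powerset.mpr inter_subset_right
          have := single_le_sum (f := fun P => w M *
            Real.exp (t * (((rep P).card : ℝ) ^ 2 / (2 * (N.choose 2 : ℝ)) -
              ((pos (τ, M) ∩ rep P).card : ℝ))))
            (fun P _ => mul_nonneg (hw M) (Real.exp_pos _).le) hmem
          simp only [hrep M hM] at this
          exact this
        · rw [hw0 M hM]
          simp
    _ = ∑ P ∈ (touch S).powerset, ∑ M, w M *
          Real.exp (t * (((rep P).card : ℝ) ^ 2 / (2 * (N.choose 2 : ℝ)) -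
            ((pos (τ, M) ∩ rep P).card : ℝ))) := sum_comm
    _ ≤ ∑ P ∈ (touch S).powerset, Real.exp (t ^ 2 * (N.choose 2 : ℝ)) :=
        sum_le_sum fun P _ => hterm P
    _ = 2 ^ (touch S).card * Real.exp (t ^ 2 * (N.choose 2 : ℝ)) := by
        rw [sum_const, card_powerset, nsmul_eq_mul]
        push_cast
        ring
    _ ≤ 2 ^ (S.card * N) * Real.exp (t ^ 2 * (N.choose 2 : ℝ)) := by
        refine mul_le_mul_of_nonneg_right ?_ (Real.exp_pos _).le
        exact pow_le_pow_right₀ (by norm_num) (card_touch_le S)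

/-- Jensen. -/
lemma jensen_step {ι : Type*} (s : Finset ι) {w' Z : ι → ℝ} {B t : ℝ} (ht : 0 < t)
    (hw' : ∀ M ∈ s, 0 ≤ w' M) (h1 : ∑ M ∈ s, w' M = 1)
    (h : ∑ M ∈ s, w' M * Real.exp (t * Z M) ≤ Real.exp B) :
    ∑ M ∈ s, w' M * Z M ≤ B / t := by
  have h2 : ∑ M ∈ s, w' M * (1 + (t * Z M - B)) ≤ ∑ M ∈ s, w' M * Real.exp (t * Z M - B) :=
    sum_le_sum fun M hM => mul_le_mul_of_nonneg_left (by
      have := Real.add_one_le_exp (t * Z M - B); linarith) (hw' M hM)
  have h3 : ∑ M ∈ s, w' M * Real.exp (t * Z M - B) ≤ 1 := by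
    have : ∑ M ∈ s, w' M * Real.exp (t * Z M - B) =
        (∑ M ∈ s, w' M * Real.exp (t * Z M)) * Real.exp (-B) := by
      rw [sum_mul]
      refine sum_congr rfl fun M _ => ?_
      rw [mul_assoc, ← Real.exp_add]
      congr 2
    rw [this]
    refine (mul_le_mul_of_nonneg_right h (Real.exp_pos _).le).trans ?_
    rw [← Real.exp_add]
    simp
  have h4 : ∑ M ∈ s, w' M * (1 + (t * Z M - B)) =
      (1 - B) * ∑ M ∈ s, w' M + t * ∑ M ∈ s, w' M * Z M := by
    rw [mul_sum, mul_sum, ← sum_add_distrib]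
    refine sum_congr rfl fun M _ => by ring
  rw [h4, h1] at h2
  rw [le_div_iff₀ ht]
  linarith [h2.trans h3]

theorem stmt_C1 (hB3 : Stmt_B3) : Stmt_C1 := by
  classical
  intro N w w' ρ hw hw0 hG hρ hρ1 hw' hww' h1 S e hed hSe t l ht ht1 hl hl1
  have hw'0 : ∀ M, ¬ M ⊆ prs (univ : Finset (Fin N)) → w' M = 0 := by
    intro M hM
    have h := hww' M
    rw [hw0 M hM, zero_div] at h
    exact le_antisymm h (hw' M)
  -- N ≥ 2
  have hN : 2 ≤ N := by
    induction e with
    | _ x y =>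
    have hxy : x ≠ y := by simpa using hed
    have h2 : 2 ≤ Fintype.card (Fin N) := by
      have := card_le_univ ({x, y} : Finset (Fin N))
      rwa [card_pair hxy] at this
    simpa using h2
  set m : ℝ := (N.choose 2 : ℝ) with hm
  have hmpos : 0 < m := by
    rw [hm]; exact_mod_cast Nat.choose_pos hN
  have hWt : ∀ ω, 0 ≤ Wt w' ω := fun ω => by
    unfold Wt; exact div_nonneg (hw' _) (by positivity)
  -- all pairs outside S have the same expectation
  have hsym : ∀ f ∈ prs (univ \ S), ∑ ω, Wt w' ω * max (l - aS w' S f ω) 0 =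
      ∑ ω, Wt w' ω * max (l - aS w' S e ω) 0 := by
    intro f hf
    rw [mem_prs_iff] at hf
    refine hB3 w' (fun a => max (l - a) 0) S S f e rfl hf.2 hed ?_ hSe
    rw [disjoint_right]
    intro x hx
    rw [Sym2.mem_toFinset] at hx
    have := mem_sym2_iff.mp hf.1 x hx
    rw [mem_sdiff] at this
    exact this.2
  have hcard : (prs (univ \ S)).card = (N - S.card).choose 2 := by
    rw [c1_card_prs, card_sdiff_of_subset (subset_univ S), card_univ, Fintype.card_fin]
  have hE : ((N - S.card).choose 2 : ℝ) * ∑ ω, Wt w' ω * max (l - aS w' S e ω) 0 =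
      ∑ f ∈ prs (univ \ S), ∑ ω, Wt w' ω * max (l - aS w' S f ω) 0 := by
    rw [sum_congr rfl hsym, sum_const, hcard, nsmul_eq_mul]
  rw [hE]
  -- tower property
  have htow : ∀ f, ∑ ω, Wt w' ω * max (l - aS w' S f ω) 0 =
      ∑ ω, Wt w' ω * (if aS w' S f ω ≤ l then l - X f ω else 0) := by
    intro f
    have h2 := cE_tower' (Wt w') hWt (obs (around S f)) (X f)
      (fun ω => if aS w' S f ω ≤ l then 1 else 0) (by
        intro ω ω' h
        have : aS w' S f ω = aS w' S f ω' := by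
          unfold aS; exact cE_eq_of_eq _ _ _ h
        simp only [this])
    have h3 : ∑ ω, Wt w' ω * max (l - aS w' S f ω) 0 =
        ∑ ω, Wt w' ω * (if aS w' S f ω ≤ l then l else 0) -
          ∑ ω, Wt w' ω * ((if aS w' S f ω ≤ l then 1 else 0) * cE (Wt w') (obs (around S f)) (X f) ω) := by
      rw [← sum_sub_distrib]
      refine sum_congr rfl fun ω _ => ?_
      change _ = _ - Wt w' ω * ((if aS w' S f ω ≤ l then 1 else 0) * aS w' S f ω)
      by_cases hc : aS w' S f ω ≤ l
      · rw [if_pos hc, if_pos hc, max_eq_left (by linarith)]; ring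
      · rw [if_neg hc, if_neg hc, max_eq_right (by linarith)]; ring
    rw [h3, h2, ← sum_sub_distrib]
    refine sum_congr rfl fun ω _ => ?_
    by_cases hc : aS w' S f ω ≤ l
    · rw [if_pos hc, if_pos hc, if_pos hc]; ring
    · rw [if_neg hc, if_neg hc, if_neg hc]; ring
  have hsum : ∑ f ∈ prs (univ \ S), ∑ ω, Wt w' ω * max (l - aS w' S f ω) 0 =
      ∑ ω, Wt w' ω * (l * ((lowSet w' S l ω).card : ℝ) -
        ((pos ω ∩ lowSet w' S l ω).card : ℝ)) := by
    rw [sum_congr rfl (fun f _ => htow f), sum_comm]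
    refine sum_congr rfl fun ω _ => ?_
    rw [← mul_sum]
    congr 1
    rw [← sum_filter]
    change ∑ f ∈ lowSet w' S l ω, (l - X f ω) = _
    rw [sum_sub_distrib, sum_const, nsmul_eq_mul, mul_comm l]
    congr 1
    unfold X
    rw [← sum_filter, sum_const, nsmul_eq_mul, mul_one, filter_mem_eq_inter, inter_comm]
  rw [hsum]
  -- AM-GM
  have hamgm : ∀ ω, Wt w' ω * (l * ((lowSet w' S l ω).card : ℝ) -
        ((pos ω ∩ lowSet w' S l ω).card : ℝ)) ≤
      Wt w' ω * (l ^ 2 / 2 * m) + Wt w' ω * (((lowSet w' S l ω).card : ℝ) ^ 2 / (2 * m) -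
        ((pos ω ∩ lowSet w' S l ω).card : ℝ)) := by
    intro ω
    rw [← mul_add]
    refine mul_le_mul_of_nonneg_left ?_ (hWt ω)
    have h2 : l * ((lowSet w' S l ω).card : ℝ) ≤
        l ^ 2 / 2 * m + ((lowSet w' S l ω).card : ℝ) ^ 2 / (2 * m) := by
      have h3 : 0 ≤ (l * m - ((lowSet w' S l ω).card : ℝ)) ^ 2 / (2 * m) := by positivity
      have h4 : (l * m - ((lowSet w' S l ω).card : ℝ)) ^ 2 / (2 * m) =
          l ^ 2 / 2 * m + ((lowSet w' S l ω).card : ℝ) ^ 2 / (2 * m) -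
            l * ((lowSet w' S l ω).card : ℝ) := by
        field_simp
        ring
      linarith
    linarith
  refine (sum_le_sum fun ω _ => hamgm ω).trans ?_
  rw [sum_add_distrib]
  have hWtsum : ∑ ω, Wt w' ω = 1 := by
    rw [Fintype.sum_prod_type]
    unfold Wt
    simp only
    rw [sum_congr rfl (fun τ _ => (sum_div univ w' (N.factorial : ℝ)).symm), h1, sum_const,
      card_univ, Fintype.card_perm, Fintype.card_fin, nsmul_eq_mul]
    field_simp
  rw [← sum_mul, hWtsum, one_mul]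
  set B : ℝ := ((S.card * N : ℕ) * Real.log 2 + Real.log (1 / ρ)) + t ^ 2 * m with hB
  have hfix : ∀ τ : Equiv.Perm (Fin N), ∑ M, w' M * (((lowSet w' S l (τ, M)).card : ℝ) ^ 2 / (2 * m) -
        ((pos (τ, M) ∩ lowSet w' S l (τ, M)).card : ℝ)) ≤ B / t := by
    intro τ
    refine jensen_step univ ht (fun M _ => hw' M) h1 ?_
    have h2 := exp_moment hw hw0 hG τ (fun M => lowSet w' S l (τ, M)) (S := S)
      (fun M => by
        intro f hf
        have h3 := (mem_filter.mp hf).1
        rw [mem_prs_iff] at h3 ⊢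
        exact ⟨by simp, h3.2⟩)
      (fun M M' hM hM' h => lowSet_eq w' hM hM' h) ht.le ht1
    have h3 : Real.exp B = (1 / ρ) * (2 ^ (S.card * N) * Real.exp (t ^ 2 * m)) := by
      rw [hB, Real.exp_add, Real.exp_add, Real.exp_log (by positivity), Real.exp_nat_mul,
        Real.exp_log (by norm_num)]
      ring
    rw [h3]
    refine le_trans ?_ (mul_le_mul_of_nonneg_left h2 (by positivity))
    rw [mul_sum]
    refine sum_le_sum fun M _ => ?_
    rw [← mul_assoc]
    refine mul_le_mul_of_nonneg_right ?_ (Real.exp_pos _).le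
    have := hww' M
    rw [one_div, inv_mul_eq_div]
    exact this
  have hlast : ∑ ω, Wt w' ω * (((lowSet w' S l ω).card : ℝ) ^ 2 / (2 * m) -
        ((pos ω ∩ lowSet w' S l ω).card : ℝ)) ≤ B / t := by
    rw [Fintype.sum_prod_type]
    have h2 : ∀ τ : Equiv.Perm (Fin N), ∑ M, Wt w' (τ, M) *
        (((lowSet w' S l (τ, M)).card : ℝ) ^ 2 / (2 * m) -
        ((pos (τ, M) ∩ lowSet w' S l (τ, M)).card : ℝ)) ≤ (B / t) / (N.factorial : ℝ) := by
      intro τ
      have h3 : ∑ M, Wt w' (τ, M) *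
        (((lowSet w' S l (τ, M)).card : ℝ) ^ 2 / (2 * m) -
        ((pos (τ, M) ∩ lowSet w' S l (τ, M)).card : ℝ)) =
        (∑ M, w' M * (((lowSet w' S l (τ, M)).card : ℝ) ^ 2 / (2 * m) -
          ((pos (τ, M) ∩ lowSet w' S l (τ, M)).card : ℝ))) / (N.factorial : ℝ) := by
        rw [sum_div]
        refine sum_congr rfl fun M _ => ?_
        unfold Wt
        simp only
        ring
      rw [h3]
      exact div_le_div_of_nonneg_right (hfix τ) (by positivity)
    refine (sum_le_sum fun τ _ => h2 τ).trans ?_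
    rw [sum_const, card_univ, Fintype.card_perm, Fintype.card_fin, nsmul_eq_mul]
    apply le_of_eq
    field_simp
  have hBt : B / t = ((S.card * N : ℕ) * Real.log 2 + Real.log (1 / ρ)) / t + t * m := by
    rw [hB, add_div]
    congr 1
    field_simp
  rw [hBt] at hlast
  linarith

end C1

end Pool.Agent.RandomMakerFull
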