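import Pool.Agent.Work.MP_ecc80d_co_h34.Interface

/-!
# Block D2a: counting the tuples which share vertices with a given tuple
-/

namespace Pool.Agent.RandomMakerFull

open Finset

lemma mem_prs {N : ℕ} {T : Finset (Fin N)} {e : Sym2 (Fin N)} :
    e ∈ prs T ↔ (∀ v ∈ e, v ∈ T) ∧ ¬ e.IsDiag := by
  unfold prs
  rw [mem_filter, mem_sym2_iff]

lemma prs_inter {N : ℕ} (S T : Finset (Fin N)) : prs S ∩ prs T = prs (S ∩ T) := by
  ext e
  rw [mem_inter, mem_prs, mem_prs, mem_prs]
  constructor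
  · rintro ⟨⟨h1, h2⟩, h3, _⟩
    exact ⟨fun v hv => mem_inter.2 ⟨h1 v hv, h3 v hv⟩, h2⟩
  · rintro ⟨h1, h2⟩
    exact ⟨⟨fun v hv => (mem_inter.1 (h1 v hv)).1, h2⟩,
      fun v hv => (mem_inter.1 (h1 v hv)).2, h2⟩

lemma card_prs {N : ℕ} (T : Finset (Fin N)) : (prs T).card = T.card.choose 2 := by
  rw [← Sym2.card_image_offDiag]
  congr 1
  ext e
  rw [mem_prs, mem_image]
  constructor
  · induction e using Sym2.ind with
    | _ u v =>
      rintro ⟨h1, h2⟩
      refine ⟨(u, v), mem_offDiag.2 ⟨h1 u (Sym2.mem_mk_left u v), h1 v (Sym2.mem_mk_right u v),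
        fun h => h2 h⟩, rfl⟩
  · rintro ⟨⟨u, v⟩, huv, rfl⟩
    rw [mem_offDiag] at huv
    refine ⟨fun w hw => ?_, fun h => huv.2.2 h⟩
    rcases Sym2.mem_iff.1 hw with rfl | rfl
    · exact huv.1
    · exact huv.2.1

theorem block_D2a {N q : ℕ} (B : Finset (Fin N)) (b : Sym2 (Fin N) → ℝ) (β : ℕ → ℝ)
    (𝒢 : Finset (Fin q → Fin N)) (hB : B.Nonempty) (hβ : ∀ j, 0 ≤ β j)
    (h𝒢 : ∀ x ∈ 𝒢, Function.Injective x ∧ ∀ i, x i ∈ B)
    (hb : ∀ x ∈ 𝒢, ∀ J ⊆ univ.image x, (∏ e ∈ prs J, (b e)⁻¹) ≤ β J.card) :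
    ∀ x ∈ 𝒢, ∑ y ∈ 𝒢, ((prs (univ.image x) ∩ prs (univ.image y)).card : ℝ) *
        ∏ e ∈ prs (univ.image x) ∩ prs (univ.image y), (b e)⁻¹ ≤
      (B.card : ℝ) ^ q * ∑ j ∈ Finset.Icc 2 q, ((q : ℝ) ^ 2 / B.card) ^ j * (j ^ 2 * β j) := by
  classical
  intro x hx
  have hv : (0 : ℝ) < B.card := by exact_mod_cast card_pos.2 hB
  set f : ℕ → ℝ := fun j => if 2 ≤ j then j ^ 2 * β j else 0 with hf
  have hf0 : ∀ j, 0 ≤ f j := by
    intro j
    simp only [hf]
    split_ifs
    · have := hβ j; positivity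
    · exact le_rfl
  let T : (Fin q → Fin N) → Finset (Fin q) := fun y => univ.filter (fun i => y i ∈ univ.image x)
  have hT : ∀ y ∈ 𝒢, ((prs (univ.image x) ∩ prs (univ.image y)).card : ℝ) *
        ∏ e ∈ prs (univ.image x) ∩ prs (univ.image y), (b e)⁻¹ ≤ f (T y).card := by
    intro y hy
    rw [prs_inter]
    have h1 : univ.image x ∩ univ.image y = (T y).image y := by
      ext v
      simp only [T, mem_inter, mem_image, mem_univ, true_and, mem_filter]
      constructor
      · rintro ⟨⟨i, hi⟩, ⟨j, hj⟩⟩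
        exact ⟨j, ⟨i, by rw [hi, hj]⟩, hj⟩
      · rintro ⟨j, ⟨i, hi⟩, hj⟩
        exact ⟨⟨i, by rw [hi, hj]⟩, ⟨j, hj⟩⟩
    have h2 : (univ.image x ∩ univ.image y).card = (T y).card := by
      rw [h1, card_image_of_injective _ (h𝒢 y hy).1]
    have h3 := hb x hx (univ.image x ∩ univ.image y) inter_subset_left
    rw [card_prs, h2]
    rw [h2] at h3
    by_cases h4 : 2 ≤ (T y).card
    · simp only [hf, if_pos h4]
      have h5 : (((T y).card.choose 2 : ℕ) : ℝ) ≤ ((T y).card : ℝ) ^ 2 := by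
        exact_mod_cast Nat.choose_le_pow (T y).card 2
      calc (((T y).card.choose 2 : ℕ) : ℝ) * ∏ e ∈ prs (univ.image x ∩ univ.image y), (b e)⁻¹
          ≤ (((T y).card.choose 2 : ℕ) : ℝ) * β (T y).card := by gcongr
        _ ≤ ((T y).card : ℝ) ^ 2 * β (T y).card :=
          mul_le_mul_of_nonneg_right h5 (hβ _)
    · rw [Nat.choose_eq_zero_of_lt (by omega)]
      simp only [hf, if_neg h4]
      simp
  have hcount : ∀ T₀ : Finset (Fin q), ((𝒢.filter (fun y => T y = T₀)).card : ℝ) ≤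
      (q : ℝ) ^ T₀.card * (B.card : ℝ) ^ (q - T₀.card) := by
    intro T₀
    have h1 : 𝒢.filter (fun y => T y = T₀) ⊆
        Fintype.piFinset (fun i => if i ∈ T₀ then univ.image x else B) := by
      intro y hy
      rw [mem_filter] at hy
      rw [Fintype.mem_piFinset]
      intro i
      split_ifs with hi
      · rw [← hy.2] at hi
        exact (mem_filter.1 hi).2
      · exact (h𝒢 y hy.1).2 i
    have h2 := card_le_card h1
    rw [Fintype.card_piFinset] at h2
    have h3 : ∏ i : Fin q, (if i ∈ T₀ then univ.image x else B).card ≤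
        q ^ T₀.card * B.card ^ (q - T₀.card) := by
      have h4 : ∀ i : Fin q, (if i ∈ T₀ then univ.image x else B).card ≤
          if i ∈ T₀ then q else B.card := by
        intro i
        split_ifs
        · exact card_image_le.trans (by simp)
        · exact le_rfl
      refine (Finset.prod_le_prod' fun i _ => h4 i).trans (le_of_eq ?_)
      rw [Finset.prod_ite, Finset.prod_const, Finset.prod_const]
      congr 2
      · simp
      · rw [filter_not, card_sdiff_of_subset (filter_subset _ _)]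
        simp
    exact_mod_cast h2.trans h3
  calc ∑ y ∈ 𝒢, ((prs (univ.image x) ∩ prs (univ.image y)).card : ℝ) *
        ∏ e ∈ prs (univ.image x) ∩ prs (univ.image y), (b e)⁻¹
      ≤ ∑ y ∈ 𝒢, f (T y).card := sum_le_sum hT
    _ = ∑ T₀ ∈ (univ : Finset (Fin q)).powerset, ∑ y ∈ 𝒢 with T y = T₀, f (T y).card := by
        rw [Finset.sum_fiberwise_of_maps_to]
        intro y _
        simp
    _ ≤ ∑ T₀ ∈ (univ : Finset (Fin q)).powerset,
          (q : ℝ) ^ T₀.card * (B.card : ℝ) ^ (q - T₀.card) * f T₀.card := by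
        apply sum_le_sum
        intro T₀ _
        have h5 : ∑ y ∈ 𝒢 with T y = T₀, f (T y).card =
            ((𝒢.filter (fun y => T y = T₀)).card : ℝ) * f T₀.card := by
          rw [← nsmul_eq_mul, ← sum_const]
          apply sum_congr rfl
          intro y hy
          rw [(mem_filter.1 hy).2]
        rw [h5]
        exact mul_le_mul_of_nonneg_right (hcount T₀) (hf0 _)
    _ = ∑ j ∈ range (q + 1), (q.choose j : ℝ) *
          ((q : ℝ) ^ j * (B.card : ℝ) ^ (q - j) * f j) := by
        have h6 := Finset.sum_powerset_apply_card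
          (fun j => (q : ℝ) ^ j * (B.card : ℝ) ^ (q - j) * f j) (x := (univ : Finset (Fin q)))
        rw [card_univ, Fintype.card_fin] at h6
        rw [h6]
        apply sum_congr rfl
        intro j _
        rw [nsmul_eq_mul]
    _ = ∑ j ∈ Icc 2 q, (q.choose j : ℝ) *
          ((q : ℝ) ^ j * (B.card : ℝ) ^ (q - j) * (j ^ 2 * β j)) := by
        symm
        apply Finset.sum_subset_zero_on_sdiff
        · intro j hj
          rw [mem_Icc] at hj
          rw [mem_range]
          omega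
        · intro j hj
          rw [mem_sdiff, mem_range, mem_Icc] at hj
          have : ¬ 2 ≤ j := fun h => hj.2 ⟨h, by omega⟩
          simp only [hf, if_neg this, mul_zero]
        · intro j hj
          rw [mem_Icc] at hj
          simp only [hf, if_pos hj.1]
    _ ≤ ∑ j ∈ Icc 2 q, (B.card : ℝ) ^ q * (((q : ℝ) ^ 2 / B.card) ^ j * (j ^ 2 * β j)) := by
        apply sum_le_sum
        intro j hj
        rw [mem_Icc] at hj
        have h7 : (q.choose j : ℝ) ≤ (q : ℝ) ^ j := by
          exact_mod_cast Nat.choose_le_pow q j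
        have h8 : (B.card : ℝ) ^ q * (((q : ℝ) ^ 2 / B.card) ^ j * (j ^ 2 * β j)) =
            (q : ℝ) ^ j * ((q : ℝ) ^ j * (B.card : ℝ) ^ (q - j) * (j ^ 2 * β j)) := by
          have h9 : (B.card : ℝ) ^ q = (B.card : ℝ) ^ (q - j) * (B.card : ℝ) ^ j := by
            rw [← pow_add]; congr 1; omega
          rw [h9, div_pow, ← pow_mul]
          have h10 : (q : ℝ) ^ (2 * j) = (q : ℝ) ^ j * (q : ℝ) ^ j := by
            rw [← pow_add]; congr 1; ring
          rw [h10]
          field_simp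
        rw [h8]
        apply mul_le_mul_of_nonneg_right h7
        have := hβ j
        positivity
    _ = _ := by rw [mul_sum]

end Pool.Agent.RandomMakerFull
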