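import Pool.Agent.Work.MP_ecc80d_co_h34.InterfaceD
import Pool.Agent.Work.MP_ecc80d_co_h34.D2a

/-!
# Block D2: second moment count for a good family
-/

namespace Pool.Agent.RandomMakerFull

open Finset Filter

/-- The conditions on `N`. -/
lemma d2_large (ε : ℝ) (hε : 0 < ε) (c : ℝ) : ∃ N0 : ℕ, ∀ N : ℕ, N0 ≤ N →
    1 ≤ N ∧ 2 ≤ Real.log N ∧ c ≤ Real.log N ∧
    240 / ε * Real.log N ^ 2 ≤ (N : ℝ) ^ (ε / 24) ∧ (2 * Real.log N) ^ 3 ≤ N := by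
  have hlog : Tendsto (fun N : ℕ => Real.log N) atTop atTop :=
    Real.tendsto_log_atTop.comp tendsto_natCast_atTop_atTop
  have h1 := hlog.eventually_ge_atTop 2
  have h2 := hlog.eventually_ge_atTop c
  have h3 : ∀ᶠ N : ℕ in atTop, 240 / ε * Real.log N ^ 2 ≤ (N : ℝ) ^ (ε / 24) := by
    have h4 := (isLittleO_log_rpow_rpow_atTop (s := ε / 24) 2 (by positivity)).bound
      (show 0 < ε / 240 by positivity)
    have h5 := tendsto_natCast_atTop_atTop (R := ℝ).eventually h4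
    filter_upwards [h5, eventually_ge_atTop 1, h1] with N hN hN1 hN2
    have hN0 : (0 : ℝ) < N := by exact_mod_cast hN1
    rw [Real.norm_of_nonneg (by positivity), Real.norm_of_nonneg (by positivity),
      Real.rpow_two] at hN
    calc 240 / ε * Real.log N ^ 2 ≤ 240 / ε * (ε / 240 * (N : ℝ) ^ (ε / 24)) := by gcongr
      _ = (N : ℝ) ^ (ε / 24) := by field_simp
  have h6 : ∀ᶠ N : ℕ in atTop, (2 * Real.log N) ^ 3 ≤ N := by
    have h4 := (isLittleO_log_rpow_rpow_atTop (s := 1) 3 one_pos).bound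
      (show (0 : ℝ) < 1 / 8 by norm_num)
    have h5 := tendsto_natCast_atTop_atTop (R := ℝ).eventually h4
    filter_upwards [h5, eventually_ge_atTop 1, h1] with N hN hN1 hN2
    have hN0 : (0 : ℝ) < N := by exact_mod_cast hN1
    have hL : 0 ≤ Real.log N := by linarith
    rw [Real.rpow_one, Real.norm_of_nonneg (by positivity), Real.norm_of_nonneg (by positivity)]
      at hN
    have h7 : Real.log N ^ (3 : ℝ) = Real.log N ^ 3 := by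
      rw [← Real.rpow_natCast]; norm_num
    rw [h7] at hN
    calc (2 * Real.log N) ^ 3 = 8 * Real.log N ^ 3 := by ring
      _ ≤ 8 * (1 / 8 * (N : ℝ)) := by gcongr
      _ = N := by ring
  obtain ⟨N0, hN0⟩ := eventually_atTop.1 (h1.and (h2.and (h3.and (h6.and
    (eventually_ge_atTop 1)))))
  refine ⟨N0, fun N hN => ?_⟩
  obtain ⟨a1, a2, a3, a4, a5⟩ := hN0 N hN
  exact ⟨a5, a1, a2, a3, a4⟩

/-- The second moment sum. -/
lemma d2_sum (ε : ℝ) (hε : 0 < ε) (hε1 : ε ≤ 1) (j0 : ℕ) (hj0 : 18 / ε ≤ j0) (N q : ℕ)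
    (L a : ℝ) (hLdef : L = Real.log N) (hN : 1 ≤ N) (hL2 : 2 ≤ L)
    (hN3 : 240 / ε * L ^ 2 ≤ (N : ℝ) ^ (ε / 24)) (hN4 : (2 * L) ^ 3 ≤ N)
    (hq : (q : ℝ) ≤ 2 * L) (ha1 : 1 ≤ a) (haN : a ≤ N)
    (ha : ε / 60 * (N : ℝ) ^ (1 - ε / 8) ≤ a) :
    a ^ 2 * ∑ j ∈ Icc 2 q, ((q : ℝ) ^ 2 / a) ^ j *
      (j ^ 2 * (if j ≤ j0 then (L ^ 4) ^ (j ^ 2) else Real.exp (j * ((1 - ε / 3) * L)))) ≤
      (j0 : ℝ) ^ 3 * L ^ (4 * j0 + 4 * j0 ^ 2) + 1 := by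
  have hN0 : (0 : ℝ) < N := by exact_mod_cast hN
  have hN1 : (1 : ℝ) ≤ N := by exact_mod_cast hN
  have ha0 : 0 < a := by linarith
  have hq0 : (0 : ℝ) ≤ q := Nat.cast_nonneg q
  have hL0 : 0 < L := by linarith
  have hL1 : 1 ≤ L := by linarith
  -- small j
  have hsmall : ∀ j ∈ (Icc 2 q).filter (fun j => j ≤ j0), a ^ 2 * (((q : ℝ) ^ 2 / a) ^ j *
      (j ^ 2 * (if j ≤ j0 then (L ^ 4) ^ (j ^ 2) else Real.exp (j * ((1 - ε / 3) * L))))) ≤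
      (j0 : ℝ) ^ 2 * L ^ (4 * j0 + 4 * j0 ^ 2) := by
    intro j hj
    rw [mem_filter, mem_Icc] at hj
    obtain ⟨⟨hj2, _⟩, hjj⟩ := hj
    rw [if_pos hjj]
    have e1 : a ^ 2 * (((q : ℝ) ^ 2 / a) ^ j * (j ^ 2 * (L ^ 4) ^ (j ^ 2))) =
        (j : ℝ) ^ 2 * (((q : ℝ) ^ 2) ^ j * (L ^ 4) ^ (j ^ 2)) * (a ^ 2 / a ^ j) := by
      rw [div_pow]; ring
    rw [e1]
    have e2 : a ^ 2 / a ^ j ≤ 1 := by
      rw [div_le_one (by positivity)]
      exact pow_le_pow_right₀ ha1 hj2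
    have e3 : ((q : ℝ) ^ 2) ^ j ≤ L ^ (4 * j0) := by
      have h1 : (q : ℝ) ≤ L ^ 2 := by nlinarith
      calc ((q : ℝ) ^ 2) ^ j ≤ ((L ^ 2) ^ 2) ^ j := by gcongr
        _ = L ^ (4 * j) := by rw [← pow_mul, ← pow_mul]; congr 1; ring
        _ ≤ L ^ (4 * j0) := pow_le_pow_right₀ hL1 (by omega)
    have e4 : (L ^ 4) ^ (j ^ 2) ≤ L ^ (4 * j0 ^ 2) := by
      rw [← pow_mul]
      exact pow_le_pow_right₀ hL1 (by gcongr)
    have e5 : ((j : ℝ)) ^ 2 ≤ (j0 : ℝ) ^ 2 := by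
      have : (j : ℝ) ≤ j0 := by exact_mod_cast hjj
      gcongr
    calc (j : ℝ) ^ 2 * (((q : ℝ) ^ 2) ^ j * (L ^ 4) ^ (j ^ 2)) * (a ^ 2 / a ^ j)
        ≤ (j0 : ℝ) ^ 2 * (L ^ (4 * j0) * L ^ (4 * j0 ^ 2)) * 1 := by gcongr
      _ = _ := by rw [mul_one, ← pow_add]
  -- large j
  have hbase : (q : ℝ) ^ 2 / a * Real.exp ((1 - ε / 3) * L) ≤ (N : ℝ) ^ (-(ε / 6)) := by
    have h1 : Real.exp ((1 - ε / 3) * L) = (N : ℝ) ^ (1 - ε / 3) := by
      rw [Real.rpow_def_of_pos hN0, hLdef]; congr 1; ring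
    have h2 : (q : ℝ) ^ 2 ≤ 4 * L ^ 2 := by nlinarith
    rw [h1, div_mul_eq_mul_div, div_le_iff₀ ha0]
    calc (q : ℝ) ^ 2 * (N : ℝ) ^ (1 - ε / 3)
        ≤ (4 * L ^ 2) * (N : ℝ) ^ (1 - ε / 3) := by gcongr
      _ = (ε / 60) * (240 / ε * L ^ 2) * (N : ℝ) ^ (1 - ε / 3) := by field_simp; ring
      _ ≤ (ε / 60) * (N : ℝ) ^ (ε / 24) * (N : ℝ) ^ (1 - ε / 3) := by gcongr
      _ = (N : ℝ) ^ (-(ε / 6)) * (ε / 60 * (N : ℝ) ^ (1 - ε / 8)) := by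
          rw [mul_assoc, ← Real.rpow_add hN0, mul_left_comm, ← Real.rpow_add hN0]
          congr 2
          ring
      _ ≤ (N : ℝ) ^ (-(ε / 6)) * a := by gcongr
  have hlarge : ∀ j ∈ (Icc 2 q).filter (fun j => ¬ j ≤ j0), a ^ 2 * (((q : ℝ) ^ 2 / a) ^ j *
      (j ^ 2 * (if j ≤ j0 then (L ^ 4) ^ (j ^ 2) else Real.exp (j * ((1 - ε / 3) * L))))) ≤
      (q : ℝ) ^ 2 / N := by
    intro j hj
    rw [mem_filter, mem_Icc] at hj
    obtain ⟨⟨hj2, hjq⟩, hjj⟩ := hj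
    rw [if_neg hjj]
    have e1 : ((q : ℝ) ^ 2 / a) ^ j * (j ^ 2 * Real.exp (j * ((1 - ε / 3) * L))) =
        j ^ 2 * ((q : ℝ) ^ 2 / a * Real.exp ((1 - ε / 3) * L)) ^ j := by
      rw [mul_pow, ← Real.exp_nat_mul]; ring
    rw [e1]
    have e2 : ((q : ℝ) ^ 2 / a * Real.exp ((1 - ε / 3) * L)) ^ j ≤ (N : ℝ) ^ (-3 : ℝ) := by
      calc ((q : ℝ) ^ 2 / a * Real.exp ((1 - ε / 3) * L)) ^ j
          ≤ ((N : ℝ) ^ (-(ε / 6))) ^ j := by gcongr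
        _ = (N : ℝ) ^ (-(ε / 6) * j) := by rw [Real.rpow_mul hN0.le, Real.rpow_natCast]
        _ ≤ (N : ℝ) ^ (-3 : ℝ) := by
            apply Real.rpow_le_rpow_of_exponent_le hN1
            have h1 : (j0 : ℝ) ≤ j := by exact_mod_cast (not_le.1 hjj).le
            have h2 : 18 / ε ≤ j := hj0.trans h1
            rw [div_le_iff₀ hε] at h2
            nlinarith
    have e3 : (j : ℝ) ^ 2 ≤ (q : ℝ) ^ 2 := by
      have : (j : ℝ) ≤ q := by exact_mod_cast hjq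
      gcongr
    calc a ^ 2 * ((j : ℝ) ^ 2 * ((q : ℝ) ^ 2 / a * Real.exp ((1 - ε / 3) * L)) ^ j)
        ≤ (N : ℝ) ^ 2 * ((q : ℝ) ^ 2 * (N : ℝ) ^ (-3 : ℝ)) := by gcongr
      _ = (q : ℝ) ^ 2 / N := by
          rw [Real.rpow_neg hN0.le]
          have : (N : ℝ) ^ (3 : ℝ) = (N : ℝ) ^ 3 := by rw [← Real.rpow_natCast]; norm_num
          rw [this]
          field_simp
  rw [mul_sum, ← sum_filter_add_sum_filter_not (Icc 2 q) (fun j => j ≤ j0)]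
  refine add_le_add ?_ ?_
  · refine (sum_le_card_nsmul _ _ _ hsmall).trans ?_
    rw [nsmul_eq_mul]
    have h1 : ((Icc 2 q).filter (fun j => j ≤ j0)).card ≤ j0 := by
      have : (Icc 2 q).filter (fun j => j ≤ j0) ⊆ Icc 1 j0 := by
        intro j hj
        rw [mem_filter, mem_Icc] at hj
        rw [mem_Icc]
        omega
      simpa using card_le_card this
    have h2 : (((Icc 2 q).filter (fun j => j ≤ j0)).card : ℝ) ≤ j0 := by exact_mod_cast h1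
    calc (((Icc 2 q).filter (fun j => j ≤ j0)).card : ℝ) *
          ((j0 : ℝ) ^ 2 * L ^ (4 * j0 + 4 * j0 ^ 2))
        ≤ (j0 : ℝ) * ((j0 : ℝ) ^ 2 * L ^ (4 * j0 + 4 * j0 ^ 2)) := by gcongr
      _ = _ := by ring
  · refine (sum_le_card_nsmul _ _ _ hlarge).trans ?_
    rw [nsmul_eq_mul]
    have h1 : ((Icc 2 q).filter (fun j => ¬ j ≤ j0)).card ≤ q := by
      have : (Icc 2 q).filter (fun j => ¬ j ≤ j0) ⊆ Icc 1 q := by
        intro j hj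
        rw [mem_filter, mem_Icc] at hj
        rw [mem_Icc]
        omega
      simpa using card_le_card this
    have h2 : (((Icc 2 q).filter (fun j => ¬ j ≤ j0)).card : ℝ) ≤ q := by exact_mod_cast h1
    calc (((Icc 2 q).filter (fun j => ¬ j ≤ j0)).card : ℝ) * ((q : ℝ) ^ 2 / N)
        ≤ (q : ℝ) * ((q : ℝ) ^ 2 / N) := by gcongr
      _ = (q : ℝ) ^ 3 / N := by ring
      _ ≤ 1 := by
          rw [div_le_one hN0]
          refine le_trans ?_ hN4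
          gcongr

theorem block_D2 : Stmt_D2 := by
  intro ε hε hε1
  obtain ⟨j0, hj0⟩ := exists_nat_ge (18 / ε)
  obtain ⟨N0, hN0⟩ := d2_large ε hε (1800 / ε ^ 2 * ((j0 : ℝ) ^ 3 + 1))
  refine ⟨4 * j0 + 4 * j0 ^ 2 + 1, N0, ?_⟩
  intro N hN A A' b q K hA hA'A hA' hq2 hq hK hKcard hbl hb1 hprod
  obtain ⟨hN1, hL2, hLc, hN3, hN4⟩ := hN0 N hN
  set L := Real.log N with hL
  set a : ℝ := (A'.card : ℝ) with ha
  have hNpos : (0 : ℝ) < N := by exact_mod_cast hN1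
  have hL1 : 1 ≤ L := by linarith
  have hpow : (0 : ℝ) < (N : ℝ) ^ (1 - ε / 8) := Real.rpow_pos_of_pos hNpos _
  have hage : ε / 60 * (N : ℝ) ^ (1 - ε / 8) ≤ a := by
    refine le_trans ?_ hA'
    calc ε / 60 * (N : ℝ) ^ (1 - ε / 8) = ε / 30 * ((N : ℝ) ^ (1 - ε / 8) / 2) := by ring
      _ ≤ ε / 30 * A.card := by gcongr
  have hapos : 0 < a := lt_of_lt_of_le (by positivity) hage
  have hA'ne : A'.Nonempty := by
    rw [ha] at hapos
    exact card_pos.1 (by exact_mod_cast hapos)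
  have ha1 : 1 ≤ a := by
    rw [ha]
    exact_mod_cast card_pos.2 hA'ne
  have haN : a ≤ N := by
    rw [ha]
    have := card_le_univ A'
    rw [Fintype.card_fin] at this
    exact_mod_cast this
  have hq' : (q : ℝ) ≤ 2 * L := by nlinarith
  set β : ℕ → ℝ := fun j =>
    if j ≤ j0 then (L ^ 4) ^ (j ^ 2) else Real.exp (j * ((1 - ε / 3) * L)) with hβ
  have hβ0 : ∀ j, 0 ≤ β j := by
    intro j
    simp only [hβ]
    split_ifs <;> positivity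
  have hb : ∀ x ∈ K, ∀ J ⊆ univ.image x, (∏ e ∈ prs J, (b e)⁻¹) ≤ β J.card := by
    intro x hx J hJ
    simp only [hβ]
    split_ifs with hj
    · have h1 : ∀ e ∈ prs J, (b e)⁻¹ ≤ L ^ 4 := by
        intro e he
        have h2 : e ∈ prs (univ.image x) := by
          rw [mem_prs] at he ⊢
          exact ⟨fun v hv => hJ (he.1 v hv), he.2⟩
        have h3 := hbl x hx e h2
        have h4 : 0 < (L ^ 4)⁻¹ := by positivity
        rw [inv_le_comm₀ (lt_of_lt_of_le h4 h3) (by positivity)]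
        exact h3
      have h5 : ∀ e ∈ prs J, 0 ≤ (b e)⁻¹ := by
        intro e he
        have h2 : e ∈ prs (univ.image x) := by
          rw [mem_prs] at he ⊢
          exact ⟨fun v hv => hJ (he.1 v hv), he.2⟩
        have h3 := hbl x hx e h2
        have h4 : 0 < (L ^ 4)⁻¹ := by positivity
        exact inv_nonneg.2 (h4.le.trans h3)
      calc ∏ e ∈ prs J, (b e)⁻¹ ≤ ∏ e ∈ prs J, L ^ 4 := prod_le_prod h5 h1
        _ = (L ^ 4) ^ (prs J).card := by rw [prod_const]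
        _ ≤ (L ^ 4) ^ (J.card ^ 2) := by
            apply pow_le_pow_right₀ (one_le_pow₀ hL1)
            rw [card_prs]
            exact Nat.choose_le_pow _ _
    · exact hprod x hx J hJ
  have hD2a := block_D2a A' b β K hA'ne hβ0 hK hb
  have hS := d2_sum ε hε hε1 j0 hj0 N q L a hL hN1 hL2 hN3 hN4 hq' ha1 haN hage
  set S := ∑ j ∈ Finset.Icc 2 q, ((q : ℝ) ^ 2 / a) ^ j * (j ^ 2 * β j) with hSdef
  have hS0 : 0 ≤ S := by
    apply sum_nonneg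
    intro j _
    have := hβ0 j
    positivity
  have h1 : ∑ κ ∈ K, ∑ κ' ∈ K, ((prs (univ.image κ) ∩ prs (univ.image κ')).card : ℝ) *
      ∏ e ∈ prs (univ.image κ) ∩ prs (univ.image κ'), (b e)⁻¹ ≤ K.card * (a ^ q * S) := by
    have := sum_le_card_nsmul K _ _ hD2a
    rwa [nsmul_eq_mul] at this
  have h2 : (K.card : ℝ) * (a ^ q * S) ≤ 2 * (K.card : ℝ) ^ 2 * S := by
    calc (K.card : ℝ) * (a ^ q * S) ≤ K.card * ((2 * K.card) * S) := by gcongr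
      _ = _ := by ring
  have h3 : (A.card : ℝ) ^ 2 ≤ 900 / ε ^ 2 * a ^ 2 := by
    have h4 : (A.card : ℝ) ≤ 30 / ε * a := by
      have := hA'
      calc (A.card : ℝ) = 30 / ε * (ε / 30 * A.card) := by field_simp
        _ ≤ 30 / ε * a := by gcongr
    calc (A.card : ℝ) ^ 2 ≤ (30 / ε * a) ^ 2 := by gcongr
      _ = _ := by ring
  calc (∑ κ ∈ K, ∑ κ' ∈ K, ((prs (univ.image κ) ∩ prs (univ.image κ')).card : ℝ) *
      ∏ e ∈ prs (univ.image κ) ∩ prs (univ.image κ'), (b e)⁻¹) * (A.card : ℝ) ^ 2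
      ≤ (2 * (K.card : ℝ) ^ 2 * S) * (900 / ε ^ 2 * a ^ 2) :=
        mul_le_mul (h1.trans h2) h3 (by positivity) (by positivity)
    _ = (1800 / ε ^ 2 * (a ^ 2 * S)) * (K.card : ℝ) ^ 2 := by ring
    _ ≤ (1800 / ε ^ 2 * ((j0 : ℝ) ^ 3 * L ^ (4 * j0 + 4 * j0 ^ 2) + 1)) * (K.card : ℝ) ^ 2 := by
        gcongr
    _ ≤ L ^ (4 * j0 + 4 * j0 ^ 2 + 1) * (K.card : ℝ) ^ 2 := by
        apply mul_le_mul_of_nonneg_right _ (by positivity)
        have h5 : (1 : ℝ) ≤ L ^ (4 * j0 + 4 * j0 ^ 2) := one_le_pow₀ hL1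
        calc 1800 / ε ^ 2 * ((j0 : ℝ) ^ 3 * L ^ (4 * j0 + 4 * j0 ^ 2) + 1)
            ≤ 1800 / ε ^ 2 * ((j0 : ℝ) ^ 3 * L ^ (4 * j0 + 4 * j0 ^ 2) +
              L ^ (4 * j0 + 4 * j0 ^ 2)) := by gcongr
          _ = (1800 / ε ^ 2 * ((j0 : ℝ) ^ 3 + 1)) * L ^ (4 * j0 + 4 * j0 ^ 2) := by ring
          _ ≤ L * L ^ (4 * j0 + 4 * j0 ^ 2) := by gcongr
          _ = L ^ (4 * j0 + 4 * j0 ^ 2 + 1) := by rw [pow_succ]; ring

end Pool.Agent.RandomMakerFull
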