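import Pool.Agent.Work.MP_ecc80d_co_h34.Z1c
import Pool.Agent.Work.MP_ecc80d_co_h34.D1
import Pool.Agent.Work.MP_ecc80d_co_h34.D2
import Pool.Agent.Work.MP_ecc80d_co_h34.C1

/-!
# Assembly, part 4: the abstract lower bound `Stmt_Z1`
-/

namespace Pool.Agent.RandomMakerFull

open Finset Filter Asymptotics

/-- Powers of the logarithm are eventually smaller than any power of `N`. -/
lemma eventually_log_pow_mul (k : ℕ) {s c : ℝ} (hs : 0 < s) (hc : 0 < c) :
    ∀ᶠ N : ℕ in atTop, Real.log N ^ k * (N : ℝ) ^ (-s) ≤ c := by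
  have h1 := (isLittleO_log_rpow_rpow_atTop (k : ℝ) hs).bound hc
  have h2 : ∀ᶠ N : ℕ in atTop, ‖Real.log (N : ℝ) ^ (k : ℝ)‖ ≤ c * ‖(N : ℝ) ^ s‖ :=
    tendsto_natCast_atTop_atTop.eventually h1
  filter_upwards [h2, eventually_ge_atTop 1] with N hN hN1
  have hNpos : (0 : ℝ) < N := by exact_mod_cast hN1
  have hlog : 0 ≤ Real.log N := Real.log_natCast_nonneg N
  have hp : 0 < (N : ℝ) ^ s := Real.rpow_pos_of_pos hNpos s
  rw [Real.rpow_natCast, Real.norm_eq_abs, Real.norm_eq_abs, abs_of_nonneg (pow_nonneg hlog k),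
    abs_of_pos hp] at hN
  rw [Real.rpow_neg hNpos.le, ← div_eq_mul_inv, div_le_iff₀ hp]
  exact hN

lemma eventually_small {ε : ℝ} (hε : 0 < ε) (hε1 : ε ≤ 1) (C : ℕ) : ∀ᶠ N : ℕ in atTop,
    3200 / ε ≤ Real.log N ∧ Real.log N ^ 11 * (N : ℝ) ^ (-(ε / 32)) ≤ ε / 20000 ∧
    Real.log N ^ C * (N : ℝ) ^ (-(ε / 32)) < ε / 200 ∧
    2 * (N : ℝ) * ((N : ℝ) ^ (-(ε / 32))) ^ 2 + 2 ≤ ε / 1600 * N ∧
    Real.log (1 / ε) ≤ (N : ℝ) ^ 2 * ((N : ℝ) ^ (-(ε / 32))) ^ 2 ∧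
    4 ≤ (N : ℝ) * ((N : ℝ) ^ (-(ε / 32))) ^ 4 := by
  have t1 : ∀ᶠ N : ℕ in atTop, 3200 / ε ≤ Real.log N :=
    (Real.tendsto_log_atTop.comp tendsto_natCast_atTop_atTop).eventually_ge_atTop _
  have t2 := eventually_log_pow_mul 11 (s := ε / 32) (c := ε / 20000) (by positivity)
    (by positivity)
  have t3 := eventually_log_pow_mul C (s := ε / 32) (c := ε / 400) (by positivity)
    (by positivity)
  have t4 := eventually_log_pow_mul 0 (s := ε / 32) (c := ε / 6400) (by positivity)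
    (by positivity)
  have t5 : ∀ᶠ N : ℕ in atTop, (4 : ℝ) ≤ (N : ℝ) ^ (1 - ε / 8) :=
    ((tendsto_rpow_atTop (by linarith : (0 : ℝ) < 1 - ε / 8)).comp
      tendsto_natCast_atTop_atTop).eventually_ge_atTop _
  have t6 : ∀ᶠ N : ℕ in atTop, 6400 / ε ≤ (N : ℝ) :=
    tendsto_natCast_atTop_atTop.eventually_ge_atTop _
  have t7 : ∀ᶠ N : ℕ in atTop, Real.log (1 / ε) ≤ (N : ℝ) :=
    tendsto_natCast_atTop_atTop.eventually_ge_atTop _
  filter_upwards [t1, t2, t3, t4, t5, t6, t7, eventually_ge_atTop 1] with N h1 h2 h3 h4 h5 h6 h7 hN1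
  have hNpos : (0 : ℝ) < N := by exact_mod_cast hN1
  have hN1' : (1 : ℝ) ≤ N := by exact_mod_cast hN1
  have hyA : (N : ℝ) ^ (1 - ε / 8) = N * ((N : ℝ) ^ (-(ε / 32))) ^ 4 := by
    rw [← Real.rpow_natCast, ← Real.rpow_mul hNpos.le, Real.rpow_sub hNpos,
      Real.rpow_one, div_eq_mul_inv, ← Real.rpow_neg hNpos.le]
    congr 2; push_cast; ring
  set y := (N : ℝ) ^ (-(ε / 32)) with hy
  have hy0 : 0 < y := Real.rpow_pos_of_pos hNpos _
  have hy1 : y ≤ ε / 6400 := by simpa using h4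
  have hy1' : y ≤ 1 := by linarith
  have h4' : 4 ≤ (N : ℝ) * y ^ 4 := by rw [← hyA]; exact h5
  have h6' : 6400 ≤ (N : ℝ) * ε := by rwa [div_le_iff₀ hε] at h6
  have hy2 : y ^ 2 ≤ y := by nlinarith
  have hy42 : y ^ 4 ≤ y ^ 2 := pow_le_pow_of_le_one hy0.le hy1' (by norm_num)
  refine ⟨h1, h2, lt_of_le_of_lt h3 (by linarith), ?_, ?_, h4'⟩
  · have a1 : (N : ℝ) * y ^ 2 ≤ N * (ε / 6400) :=
      mul_le_mul_of_nonneg_left (hy2.trans hy1) hNpos.le
    nlinarith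
  · have a1 : (N : ℝ) * y ^ 4 ≤ N * y ^ 2 := mul_le_mul_of_nonneg_left hy42 hNpos.le
    have a2 : (N : ℝ) * 4 ≤ N * (N * y ^ 2) :=
      mul_le_mul_of_nonneg_left (h4'.trans a1) hNpos.le
    have a3 : (N : ℝ) * (N * y ^ 2) = N ^ 2 * y ^ 2 := by ring
    linarith

/-- Sets with at most one vertex are always cliques, so `NoClique q` fails for `q ≤ 1`. -/
lemma not_noClique_of_le_one {N q : ℕ} (hN : 1 ≤ N) (hq : q ≤ 1) (M : Finset (Sym2 (Fin N))) :
    ¬ NoClique q M := by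
  classical
  intro h
  obtain ⟨T, hT, hTc⟩ := Finset.exists_subset_card_eq
    (s := (univ : Finset (Fin N))) (n := q) (by rw [card_univ, Fintype.card_fin]; omega)
  refine h T hTc ?_
  intro e he
  rw [z1_mem_prs] at he
  exfalso
  obtain ⟨h1, h2⟩ := he
  induction e using Sym2.ind with
  | _ a b =>
    have ha := h1 a (Sym2.mem_mk_left a b)
    have hb := h1 b (Sym2.mem_mk_right a b)
    have hc : T.card ≤ 1 := by omega
    have := Finset.card_le_one.mp hc a ha b hb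
    exact h2 (by simpa using this)

theorem stmt_D : Stmt_D := block_D block_D1 block_D2

theorem stmt_B3 : Stmt_B3 := block_B3

theorem stmt_B4 : Stmt_B4 := block_B4 block_B2

/-- Z1. The abstract lower bound. -/
theorem stmt_Z1 : Stmt_Z1 := by
  classical
  intro ε hε hε1
  obtain ⟨C, N0, hD⟩ := stmt_D ε hε hε1
  filter_upwards [eventually_small hε hε1 C, eventually_ge_atTop 3, eventually_ge_atTop N0]
    with N hsm hN3 hN0 w hw hw1 hsupp hG q hq
  obtain ⟨h1, h2, h3, h4, h5, h6⟩ := hsm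
  by_contra hcon
  rw [not_le] at hcon
  rcases Nat.lt_or_ge q 2 with hq2 | hq2
  · have : ∑ M, w M * (open Classical in if NoClique q M then 1 else 0) = 0 := by
      apply sum_eq_zero
      intro M _
      rw [if_neg (not_noClique_of_le_one (by omega) (by omega) M), mul_zero]
    rw [this] at hcon
    linarith
  · exact fixedN (stmt_C1 stmt_B3) stmt_B4 hε hε1 hq2
      (fun A b hA hb hsum => hD N hN0 A b q hA hq2 hq hb hsum) hN3 _ rfl h1 h2 h3 h4 h5 h6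
      w hw hw1 hsupp hG _ rfl hcon

end Pool.Agent.RandomMakerFull
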