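import Pool.Agent.Work.MP_ecc80d_co_h34.Interface
import Pool.Agent.Work.MP_ecc80d_co.Lower.Game

/-!
# Block A1: the law of Maker's final set and its exponential moments
-/

namespace Pool.Agent.RandomMakerFull

open Finset Filter
open Pool.Agent.RandomMaker (BreakerStrategy cliqueProb claimed makerSet claimed_cons
  makerSet_cons makerSet_subset_claimed)
open Pool.Agent.RandomMakerLower (Valid card_free claimed_subset valid_step sdiff_claimed_cons)

variable {α : Type} [DecidableEq α] {E : Finset α}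

/-- Upper bounds for `expect` by backward induction. -/
lemma expect_le_of_super (σ : BreakerStrategy E) (f : Finset α → ℝ)
    (G : ℕ → List (α × α) → ℝ)
    (h0 : ∀ h, Valid E h → (E \ claimed h).card = 0 → f (makerSet h) ≤ G 0 h)
    (h1 : ∀ h, Valid E h → (E \ claimed h).card = 1 → ∀ m ∈ E \ claimed h,
      f (insert m (makerSet h)) ≤ G 1 h)
    (h2 : ∀ k h, Valid E h → (E \ claimed h).card = k + 2 →
      (∑ m ∈ E \ claimed h, G k ((m, σ.move h m) :: h)) / ((E \ claimed h).card : ℝ) ≤
        G (k + 2) h) :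
    ∀ k h, Valid E h → (E \ claimed h).card = k →
      Pool.Agent.RandomMaker.expect E σ f k h ≤ G k h
  | 0, h, hv, hk => h0 h hv hk
  | 1, h, hv, hk => by
    simp only [Pool.Agent.RandomMaker.expect]
    rw [div_le_iff₀ (by rw [hk]; norm_num)]
    calc ∑ m ∈ E \ claimed h, f (insert m (makerSet h)) ≤ ∑ m ∈ E \ claimed h, G 1 h :=
          sum_le_sum fun m hm => h1 h hv hk m hm
      _ = G 1 h * ((E \ claimed h).card : ℝ) := by rw [sum_const, nsmul_eq_mul, mul_comm]
  | k + 2, h, hv, hk => by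
    simp only [Pool.Agent.RandomMaker.expect]
    refine le_trans ?_ (h2 k h hv hk)
    apply div_le_div_of_nonneg_right _ (Nat.cast_nonneg _)
    refine sum_le_sum fun m hm => ?_
    have hv' := valid_step σ hv (by omega) hm
    refine expect_le_of_super σ f G h0 h1 h2 k _ hv' ?_
    have e1 := card_free hv
    have e2 := card_free hv'
    simp only [List.length_cons] at e2
    omega

/-- `expect` only depends on the values on subsets of the board. -/
lemma expect_congr_valid (σ : BreakerStrategy E) {f g : Finset α → ℝ}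
    (hfg : ∀ M, M ⊆ E → f M = g M) :
    ∀ k h, Valid E h → (E \ claimed h).card = k →
      Pool.Agent.RandomMaker.expect E σ f k h = Pool.Agent.RandomMaker.expect E σ g k h
  | 0, h, hv, hk => hfg _ ((makerSet_subset_claimed h).trans (claimed_subset hv))
  | 1, h, hv, hk => by
    simp only [Pool.Agent.RandomMaker.expect]
    congr 1
    refine sum_congr rfl fun m hm => hfg _ ?_
    exact insert_subset (mem_sdiff.mp hm).1
      ((makerSet_subset_claimed h).trans (claimed_subset hv))
  | k + 2, h, hv, hk => by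
    simp only [Pool.Agent.RandomMaker.expect]
    congr 1
    refine sum_congr rfl fun m hm => ?_
    have hv' := valid_step σ hv (by omega) hm
    refine expect_congr_valid σ hfg k _ hv' ?_
    have e1 := card_free hv
    have e2 := card_free hv'
    simp only [List.length_cons] at e2
    omega

lemma expect_const_valid (σ : BreakerStrategy E) (c : ℝ) :
    ∀ k h, Valid E h → (E \ claimed h).card = k →
      Pool.Agent.RandomMaker.expect E σ (fun _ => c) k h = c
  | 0, h, hv, hk => rfl
  | 1, h, hv, hk => by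
    simp only [Pool.Agent.RandomMaker.expect]
    rw [sum_const, nsmul_eq_mul, hk]
    simp
  | k + 2, h, hv, hk => by
    simp only [Pool.Agent.RandomMaker.expect]
    have h0 : (0 : ℝ) < ((E \ claimed h).card : ℝ) := by
      have : 0 < (E \ claimed h).card := by omega
      exact_mod_cast this
    have h1 : ∀ m ∈ E \ claimed h,
        Pool.Agent.RandomMaker.expect E σ (fun _ => c) k ((m, σ.move h m) :: h) = c := by
      intro m hm
      have hv' := valid_step σ hv (by omega) hm
      refine expect_const_valid σ c k _ hv' ?_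
      have e1 := card_free hv
      have e2 := card_free hv'
      simp only [List.length_cons] at e2
      omega
    rw [sum_congr rfl h1, sum_const, nsmul_eq_mul]
    field_simp

lemma expect_smul (σ : BreakerStrategy E) (c : ℝ) (f : Finset α → ℝ) :
    ∀ k h, Pool.Agent.RandomMaker.expect E σ (fun M => c * f M) k h =
      c * Pool.Agent.RandomMaker.expect E σ f k h
  | 0, h => rfl
  | 1, h => by
    simp only [Pool.Agent.RandomMaker.expect]
    rw [← mul_sum, mul_div_assoc]
  | k + 2, h => by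
    simp only [Pool.Agent.RandomMaker.expect]
    rw [sum_congr rfl fun m _ => expect_smul σ c f k _, ← mul_sum, mul_div_assoc]

/-- The distribution of Maker's final set. -/
noncomputable def lawOf (E : Finset α) (σ : BreakerStrategy E) (M : Finset α) : ℝ :=
  Pool.Agent.RandomMaker.expect E σ (fun M' => if M' = M then 1 else 0) E.card []

lemma valid_nil : Valid E ([] : List (α × α)) := trivial

lemma card_nil : (E \ claimed ([] : List (α × α))).card = E.card := by
  rw [Pool.Agent.RandomMakerLower.claimed_nil, sdiff_empty]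

lemma expect_eq_law (σ : BreakerStrategy E) (f : Finset α → ℝ) :
    Pool.Agent.RandomMaker.expect E σ f E.card [] = ∑ M ∈ E.powerset, lawOf E σ M * f M := by
  have h1 : Pool.Agent.RandomMaker.expect E σ f E.card [] =
      Pool.Agent.RandomMaker.expect E σ
        (fun M' => ∑ M ∈ E.powerset, f M * (if M' = M then 1 else 0)) E.card [] := by
    refine expect_congr_valid σ ?_ _ _ valid_nil card_nil
    intro M hM
    rw [sum_eq_single M]
    · simp
    · intro b _ hb
      rw [if_neg (Ne.symm hb), mul_zero]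
    · intro hb
      exact absurd (mem_powerset.mpr hM) hb
  rw [h1, Pool.Agent.RandomMaker.expect_sum σ E.powerset
    (fun M M' => f M * (if M' = M then 1 else 0))]
  refine sum_congr rfl fun M _ => ?_
  rw [expect_smul σ (f M) (fun M' => if M' = M then 1 else 0), lawOf, mul_comm]

lemma exp_neg_le {x : ℝ} (hx : |x| ≤ 1) : Real.exp (-x) ≤ 1 - x + x ^ 2 := by
  have h := Real.abs_exp_sub_one_sub_id_le (x := -x) (by rwa [abs_neg])
  have h2 := (abs_le.mp h).2
  nlinarith

/-- The one-round inequality in numbers. -/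
lemma round_ineq (l μ : ℕ) (hμ : 2 ≤ μ) (hl : l ≤ μ) {t : ℝ} (ht0 : 0 ≤ t) (ht1 : t ≤ 1) :
    (l : ℝ) * Real.exp (-(t * (1 + ((l : ℝ) - 2) * (l - 1) / (2 * (μ - 1)) -
        (l : ℝ) * (l + 1) / (2 * (μ + 1))))) +
      ((μ : ℝ) - l) * Real.exp (-(t * (((l : ℝ) - 1) * l / (2 * (μ - 1)) -
        (l : ℝ) * (l + 1) / (2 * (μ + 1))))) ≤ μ * Real.exp (t ^ 2) := by
  have hm2 : (2 : ℝ) ≤ μ := by exact_mod_cast hμ
  have hlm : (l : ℝ) ≤ μ := by exact_mod_cast hl
  have hl0 : (0 : ℝ) ≤ l := Nat.cast_nonneg _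
  have hd1 : (0 : ℝ) < μ - 1 := by linarith
  have hd2 : (0 : ℝ) < μ + 1 := by linarith
  have hd : (0 : ℝ) < (μ : ℝ) ^ 2 - 1 := by nlinarith
  set D1 : ℝ := 1 + ((l : ℝ) - 2) * (l - 1) / (2 * (μ - 1)) -
        (l : ℝ) * (l + 1) / (2 * (μ + 1)) with hD1
  set D0 : ℝ := ((l : ℝ) - 1) * l / (2 * (μ - 1)) - (l : ℝ) * (l + 1) / (2 * (μ + 1)) with hD0
  have e1 : D1 = 1 - ((μ : ℝ) * (2 * l - 1) - l ^ 2 + l - 1) / (μ ^ 2 - 1) := by
    rw [hD1]
    have : (μ : ℝ) ^ 2 - 1 = (μ - 1) * (μ + 1) := by ring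
    rw [this]
    field_simp
    ring
  have e0 : D0 = -((l : ℝ) * (μ - l)) / (μ ^ 2 - 1) := by
    rw [hD0]
    have : (μ : ℝ) ^ 2 - 1 = (μ - 1) * (μ + 1) := by ring
    rw [this]
    field_simp
    ring
  -- bounds
  have b0 : |D0| ≤ 1 := by
    rw [e0, abs_div, abs_neg, abs_of_pos hd, abs_of_nonneg (mul_nonneg hl0 (by linarith)),
      div_le_one hd]
    nlinarith [sq_nonneg ((μ : ℝ) - 2 * l)]
  have mean : 0 ≤ (l : ℝ) * D1 + ((μ : ℝ) - l) * D0 := by
    have : (l : ℝ) * D1 + ((μ : ℝ) - l) * D0 = (l : ℝ) * (μ - l) / (μ ^ 2 - 1) := by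
      rw [e1, e0]
      field_simp
      ring
    rw [this]
    exact div_nonneg (mul_nonneg hl0 (by linarith)) hd.le
  have hexp : (1 : ℝ) + t ^ 2 ≤ Real.exp (t ^ 2) := by
    have := Real.add_one_le_exp (t ^ 2)
    linarith
  have hsq : ∀ D : ℝ, |D| ≤ 1 → Real.exp (-(t * D)) ≤ 1 - t * D + t ^ 2 := by
    intro D hD
    have h1 : |t * D| ≤ 1 := by
      rw [abs_mul, abs_of_nonneg ht0]
      exact mul_le_one₀ ht1 (abs_nonneg _) hD
    refine (exp_neg_le h1).trans ?_
    have h2 : (t * D) ^ 2 ≤ t ^ 2 := by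
      rw [mul_pow]
      have : D ^ 2 ≤ 1 := by rw [sq_le_one_iff_abs_le_one]; exact hD
      nlinarith [sq_nonneg t]
    linarith
  have hb0 := hsq D0 b0
  rcases Nat.eq_zero_or_pos l with hl' | hl'
  · have hlz : (l : ℝ) = 0 := by exact_mod_cast hl'
    have h3 : D0 = 0 := by rw [e0, hlz]; simp
    rw [h3, hlz]
    simp only [zero_mul, sub_zero, mul_zero, neg_zero, Real.exp_zero, mul_one, zero_add]
    have : (1 : ℝ) ≤ Real.exp (t ^ 2) := Real.one_le_exp (sq_nonneg t)
    nlinarith
  · have hl1 : (1 : ℝ) ≤ l := by exact_mod_cast hl'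
    have b1 : |D1| ≤ 1 := by
      rw [e1, abs_le]
      have h3 : 0 ≤ ((μ : ℝ) * (2 * l - 1) - l ^ 2 + l - 1) / (μ ^ 2 - 1) := by
        apply div_nonneg _ hd.le
        nlinarith
      have h4 : ((μ : ℝ) * (2 * l - 1) - l ^ 2 + l - 1) / (μ ^ 2 - 1) ≤ 1 := by
        rw [div_le_one hd]
        nlinarith
      constructor <;> linarith
    have hb1 := hsq D1 b1
    calc (l : ℝ) * Real.exp (-(t * D1)) + ((μ : ℝ) - l) * Real.exp (-(t * D0))
        ≤ l * (1 - t * D1 + t ^ 2) + (μ - l) * (1 - t * D0 + t ^ 2) :=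
          add_le_add (mul_le_mul_of_nonneg_left hb1 hl0)
            (mul_le_mul_of_nonneg_left hb0 (by linarith))
      _ = μ * (1 + t ^ 2) - t * ((l : ℝ) * D1 + ((μ : ℝ) - l) * D0) := by ring
      _ ≤ μ * (1 + t ^ 2) := by
          have := mul_nonneg ht0 mean
          linarith
      _ ≤ μ * Real.exp (t ^ 2) := mul_le_mul_of_nonneg_left hexp (by linarith)

/-- The potential. -/
noncomputable def potG (L : Finset α) (t : ℝ) (k : ℕ) (h : List (α × α)) : ℝ :=
  Real.exp (-(t * (((makerSet h ∩ L).card : ℝ) +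
    ((L \ claimed h).card : ℝ) * ((L \ claimed h).card + 1) / (2 * (k + 1)))) + t ^ 2 * k)

lemma potG_step (σ : BreakerStrategy E) {L : Finset α} (hL : L ⊆ E) {t : ℝ} (ht0 : 0 ≤ t)
    (ht1 : t ≤ 1) (k : ℕ) (h : List (α × α)) (hv : Valid E h)
    (hk : (E \ claimed h).card = k + 2) :
    (∑ m ∈ E \ claimed h, potG L t k ((m, σ.move h m) :: h)) / ((E \ claimed h).card : ℝ) ≤
      potG L t (k + 2) h := by
  classical
  set F := E \ claimed h with hF
  set l := (L \ claimed h).card with hl
  set c : ℝ := ((makerSet h ∩ L).card : ℝ) with hc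
  have hFL : F.filter (fun m => m ∈ L) = L \ claimed h := by
    ext x
    simp only [hF, Finset.mem_filter, Finset.mem_sdiff]
    constructor
    · rintro ⟨⟨_, h2⟩, h3⟩
      exact ⟨h3, h2⟩
    · rintro ⟨h1, h2⟩
      exact ⟨⟨hL h1, h2⟩, h1⟩
  have hcardL : (F.filter (fun m => m ∈ L)).card = l := by rw [hFL]
  have hcardN : ((F.filter (fun m => ¬ m ∈ L)).card : ℝ) = (k + 2 : ℕ) - l := by
    have := card_filter_add_card_filter_not (s := F) (p := fun m => m ∈ L)
    rw [hcardL, hk] at this
    have h2 : ((F.filter (fun m => ¬ m ∈ L)).card : ℝ) + l = (k + 2 : ℕ) := by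
      rw [← this]; push_cast; ring
    linarith
  have hlF : l ≤ k + 2 := by
    rw [← hk, ← hcardL]
    exact card_filter_le _ _
  have hmono : ∀ a b : ℕ, a ≤ b → (a : ℝ) * (a + 1) ≤ b * (b + 1) := by
    intro a b hab
    have : (a : ℝ) ≤ b := by exact_mod_cast hab
    have h0 : (0 : ℝ) ≤ a := Nat.cast_nonneg _
    nlinarith
  -- bound for m ∈ L
  have hin : ∀ m ∈ F.filter (fun m => m ∈ L), potG L t k ((m, σ.move h m) :: h) ≤
      Real.exp (-(t * (c + 1 + ((l : ℝ) - 2) * (l - 1) / (2 * (k + 1)))) + t ^ 2 * k) := by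
    intro m hm
    obtain ⟨hmF, hmL⟩ := mem_filter.mp hm
    have hmc : m ∉ claimed h := (mem_sdiff.mp hmF).2
    unfold potG
    apply Real.exp_le_exp.mpr
    have e1 : (makerSet ((m, σ.move h m) :: h) ∩ L).card = (makerSet h ∩ L).card + 1 := by
      rw [makerSet_cons, insert_inter_of_mem hmL, card_insert_of_notMem]
      intro hc
      exact hmc (makerSet_subset_claimed h (mem_inter.mp hc).1)
    have e2 : l - 2 ≤ (L \ claimed ((m, σ.move h m) :: h)).card := by
      rw [sdiff_claimed_cons]
      have h1 := pred_card_le_card_erase (s := (L \ claimed h).erase m) (a := σ.move h m)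
      have h2 := pred_card_le_card_erase (s := L \ claimed h) (a := m)
      omega
    have e3 : ((l : ℝ) - 2) * (l - 1) ≤ ((L \ claimed ((m, σ.move h m) :: h)).card : ℝ) *
        ((L \ claimed ((m, σ.move h m) :: h)).card + 1) := by
      rcases Nat.lt_or_ge l 2 with h2 | h2
      · have hl1 : 1 ≤ l := by
          rw [← hcardL]
          exact card_pos.mpr ⟨m, hm⟩
        have : l = 1 := by omega
        rw [this]
        simp only [Nat.cast_one, sub_self, mul_zero]
        positivity
      · refine le_trans (le_of_eq ?_) (hmono _ _ e2)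
        rw [Nat.cast_sub h2]
        push_cast
        ring
    rw [e1]
    push_cast
    have e4 : ((l : ℝ) - 2) * (l - 1) / (2 * (k + 1)) ≤
        ((L \ claimed ((m, σ.move h m) :: h)).card : ℝ) *
        ((L \ claimed ((m, σ.move h m) :: h)).card + 1) / (2 * (k + 1)) :=
      div_le_div_of_nonneg_right e3 (by positivity)
    have e5 := mul_le_mul_of_nonneg_left e4 ht0
    nlinarith
  have hout : ∀ m ∈ F.filter (fun m => ¬ m ∈ L), potG L t k ((m, σ.move h m) :: h) ≤
      Real.exp (-(t * (c + ((l : ℝ) - 1) * l / (2 * (k + 1)))) + t ^ 2 * k) := by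
    intro m hm
    obtain ⟨hmF, hmL⟩ := mem_filter.mp hm
    unfold potG
    apply Real.exp_le_exp.mpr
    have e1 : (makerSet ((m, σ.move h m) :: h) ∩ L) = makerSet h ∩ L := by
      rw [makerSet_cons, insert_inter_of_notMem hmL]
    have e2 : l - 1 ≤ (L \ claimed ((m, σ.move h m) :: h)).card := by
      rw [sdiff_claimed_cons]
      have h1 := pred_card_le_card_erase (s := (L \ claimed h).erase m) (a := σ.move h m)
      rw [erase_eq_of_notMem (a := m)] at h1 ⊢
      · exact h1
      · intro hc; exact hmL (mem_sdiff.mp hc).1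
      · intro hc; exact hmL (mem_sdiff.mp hc).1
    have e3 : ((l : ℝ) - 1) * l ≤ ((L \ claimed ((m, σ.move h m) :: h)).card : ℝ) *
        ((L \ claimed ((m, σ.move h m) :: h)).card + 1) := by
      rcases Nat.lt_or_ge l 1 with h2 | h2
      · have : l = 0 := by omega
        rw [this]
        simp only [Nat.cast_zero, mul_zero]
        positivity
      · refine le_trans (le_of_eq ?_) (hmono _ _ e2)
        rw [Nat.cast_sub h2]
        push_cast
        ring
    rw [e1]
    have e4 : ((l : ℝ) - 1) * l / (2 * (k + 1)) ≤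
        ((L \ claimed ((m, σ.move h m) :: h)).card : ℝ) *
        ((L \ claimed ((m, σ.move h m) :: h)).card + 1) / (2 * (k + 1)) :=
      div_le_div_of_nonneg_right e3 (by positivity)
    have e5 := mul_le_mul_of_nonneg_left e4 ht0
    nlinarith
  have hsum : ∑ m ∈ F, potG L t k ((m, σ.move h m) :: h) ≤
      l * Real.exp (-(t * (c + 1 + ((l : ℝ) - 2) * (l - 1) / (2 * (k + 1)))) + t ^ 2 * k) +
      ((k + 2 : ℕ) - l) *
        Real.exp (-(t * (c + ((l : ℝ) - 1) * l / (2 * (k + 1)))) + t ^ 2 * k) := by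
    rw [← sum_filter_add_sum_filter_not F (fun m => m ∈ L)]
    refine add_le_add ((sum_le_sum hin).trans (le_of_eq ?_))
      ((sum_le_sum hout).trans (le_of_eq ?_))
    · rw [sum_const, nsmul_eq_mul, hcardL]
    · rw [sum_const, nsmul_eq_mul, hcardN]
  have hkey := round_ineq l (k + 2) (by omega) hlF ht0 ht1
  rw [hk, div_le_iff₀ (by positivity)]
  refine hsum.trans ?_
  have hP : ((k + 2 : ℕ) : ℝ) - 1 = k + 1 := by push_cast; ring
  rw [hP] at hkey
  set A : ℝ := Real.exp (-(t * (c + (l : ℝ) * (l + 1) / (2 * (((k + 2 : ℕ) : ℝ) + 1)))) +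
    t ^ 2 * k) with hA
  have hApos : 0 < A := Real.exp_pos _
  have r1 : Real.exp (-(t * (c + 1 + ((l : ℝ) - 2) * (l - 1) / (2 * (k + 1)))) + t ^ 2 * k) =
      A * Real.exp (-(t * (1 + ((l : ℝ) - 2) * (l - 1) / (2 * (k + 1)) -
        (l : ℝ) * (l + 1) / (2 * (((k + 2 : ℕ) : ℝ) + 1))))) := by
    rw [hA, ← Real.exp_add]
    congr 1
    ring
  have r2 : Real.exp (-(t * (c + ((l : ℝ) - 1) * l / (2 * (k + 1)))) + t ^ 2 * k) =
      A * Real.exp (-(t * (((l : ℝ) - 1) * l / (2 * (k + 1)) -
        (l : ℝ) * (l + 1) / (2 * (((k + 2 : ℕ) : ℝ) + 1))))) := by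
    rw [hA, ← Real.exp_add]
    congr 1
    ring
  have r3 : potG L t (k + 2) h = A * Real.exp (2 * t ^ 2) := by
    rw [hA, ← Real.exp_add]
    unfold potG
    congr 1
    rw [← hl, ← hc]
    push_cast
    ring
  rw [r1, r2, r3]
  have hexp2 : Real.exp (t ^ 2) ≤ Real.exp (2 * t ^ 2) :=
    Real.exp_le_exp.mpr (by nlinarith [sq_nonneg t])
  calc (l : ℝ) * (A * Real.exp (-(t * (1 + ((l : ℝ) - 2) * (l - 1) / (2 * (k + 1)) -
        (l : ℝ) * (l + 1) / (2 * (((k + 2 : ℕ) : ℝ) + 1)))))) +
      (((k + 2 : ℕ) : ℝ) - l) * (A * Real.exp (-(t * (((l : ℝ) - 1) * l / (2 * (k + 1)) -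
        (l : ℝ) * (l + 1) / (2 * (((k + 2 : ℕ) : ℝ) + 1))))))
      = A * ((l : ℝ) * Real.exp (-(t * (1 + ((l : ℝ) - 2) * (l - 1) / (2 * (k + 1)) -
        (l : ℝ) * (l + 1) / (2 * (((k + 2 : ℕ) : ℝ) + 1))))) +
      (((k + 2 : ℕ) : ℝ) - l) * Real.exp (-(t * (((l : ℝ) - 1) * l / (2 * (k + 1)) -
        (l : ℝ) * (l + 1) / (2 * (((k + 2 : ℕ) : ℝ) + 1)))))) := by ring
    _ ≤ A * (((k + 2 : ℕ) : ℝ) * Real.exp (t ^ 2)) := mul_le_mul_of_nonneg_left hkey hApos.le
    _ ≤ A * (((k + 2 : ℕ) : ℝ) * Real.exp (2 * t ^ 2)) :=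
        mul_le_mul_of_nonneg_left (mul_le_mul_of_nonneg_left hexp2 (Nat.cast_nonneg _)) hApos.le
    _ = A * Real.exp (2 * t ^ 2) * ((k + 2 : ℕ) : ℝ) := by ring

theorem block_A1 : Stmt_A1 := by
  intro α _ E σ
  refine ⟨lawOf E σ, ?_, ?_, ?_, expect_eq_law σ, ?_⟩
  · intro M
    exact Pool.Agent.RandomMaker.expect_nonneg σ (fun M' => by split_ifs <;> norm_num) _ _
  · intro M hM
    unfold lawOf
    rw [expect_congr_valid σ (g := fun _ => 0) ?_ _ _ valid_nil card_nil,
      expect_const_valid σ 0 _ _ valid_nil card_nil]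
    intro M' hM'
    rw [if_neg]
    rintro rfl
    exact hM hM'
  · have h1 := expect_eq_law σ (fun _ => (1 : ℝ))
    rw [expect_const_valid σ 1 _ _ valid_nil card_nil] at h1
    simpa using h1.symm
  · intro L hL t ht0 ht1
    rw [← expect_eq_law σ (fun M => Real.exp (-(t * ((M ∩ L).card : ℝ))))]
    have key := expect_le_of_super σ (fun M => Real.exp (-(t * ((M ∩ L).card : ℝ))))
      (potG L t) ?_ ?_ (fun k h hv hk => potG_step σ hL ht0 ht1 k h hv hk) E.card []
      valid_nil card_nil
    · refine key.trans ?_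
      unfold potG
      apply Real.exp_le_exp.mpr
      rw [Pool.Agent.RandomMakerLower.makerSet_nil, Pool.Agent.RandomMakerLower.claimed_nil,
        sdiff_empty, empty_inter, card_empty, Nat.cast_zero, zero_add]
      have hle : (L.card : ℝ) ≤ E.card := by exact_mod_cast card_le_card hL
      have h2 : (L.card : ℝ) ^ 2 / (2 * E.card) ≤ L.card * (L.card + 1) / (2 * (E.card + 1)) := by
        rcases Nat.eq_zero_or_pos E.card with h0 | h0
        · rw [h0]
          simp only [Nat.cast_zero, mul_zero, div_zero]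
          positivity
        · have h0' : (0 : ℝ) < E.card := by exact_mod_cast h0
          rw [div_le_div_iff₀ (by positivity) (by positivity)]
          have hL0 : (0 : ℝ) ≤ L.card := Nat.cast_nonneg _
          nlinarith [mul_nonneg hL0 (sub_nonneg.mpr hle)]
      have h3 := mul_le_mul_of_nonneg_left h2 ht0
      have h4 : t * (L.card : ℝ) ^ 2 / (2 * E.card) = t * ((L.card : ℝ) ^ 2 / (2 * E.card)) := by
        ring
      rw [h4]
      linarith
    · intro h hv hk
      unfold potG
      apply Real.exp_le_exp.mpr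
      have h1 : L \ claimed h = ∅ := by
        rw [card_eq_zero] at hk
        exact subset_empty.mp (hk ▸ sdiff_subset_sdiff hL le_rfl)
      rw [h1]
      simp
    · intro h hv hk m hm
      unfold potG
      apply Real.exp_le_exp.mpr
      have hmc : m ∉ claimed h := (mem_sdiff.mp hm).2
      have hl1 : (L \ claimed h).card ≤ 1 := by
        rw [← hk]
        exact card_le_card (sdiff_subset_sdiff hL le_rfl)
      by_cases hmL : m ∈ L
      · have e1 : (insert m (makerSet h) ∩ L).card = (makerSet h ∩ L).card + 1 := by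
          rw [insert_inter_of_mem hmL, card_insert_of_notMem]
          intro hc
          exact hmc (makerSet_subset_claimed h (mem_inter.mp hc).1)
        rw [e1]
        have e2 : ((L \ claimed h).card : ℝ) ≤ 1 := by exact_mod_cast hl1
        have e3 : ((L \ claimed h).card : ℝ) * ((L \ claimed h).card + 1) / (2 * ((1 : ℕ) + 1))
            ≤ 1 := by
          rw [div_le_one (by norm_num)]
          have h0 : (0 : ℝ) ≤ (L \ claimed h).card := Nat.cast_nonneg _
          push_cast
          nlinarith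
        have e4 := mul_le_mul_of_nonneg_left e3 ht0
        push_cast at e4 ⊢
        nlinarith [sq_nonneg t]
      · have e1 : insert m (makerSet h) ∩ L = makerSet h ∩ L := by
          rw [insert_inter_of_notMem hmL]
        have e0 : L \ claimed h = ∅ := by
          by_contra hne
          obtain ⟨x, hx⟩ := nonempty_iff_ne_empty.mpr hne
          have hxE : x ∈ E \ claimed h := mem_sdiff.mpr ⟨hL (mem_sdiff.mp hx).1,
            (mem_sdiff.mp hx).2⟩
          obtain ⟨y, hy⟩ := card_eq_one.mp hk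
          rw [hy, mem_singleton] at hxE hm
          rw [hm, ← hxE] at hmL
          exact hmL (mem_sdiff.mp hx).1
        rw [e1, e0]
        simp only [card_empty, Nat.cast_zero, zero_mul, zero_div, add_zero, Nat.cast_one, mul_one]
        nlinarith [sq_nonneg t]

end Pool.Agent.RandomMakerFull
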