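import Pool.Agent.Work.MP_ecc80d_co_h34.Interface

/-!
# Block B3: relabelling symmetry
-/

namespace Pool.Agent.RandomMakerFull

namespace H70

open Finset

/-- The relabelling bijection `(τ, M) ↦ (τ ∘ σ, M)`. -/
def relab {N : ℕ} (σ : Equiv.Perm (Fin N)) : Sp N ≃ Sp N :=
  (Equiv.mulRight σ).prodCongr (Equiv.refl _)

lemma relab_fst {N : ℕ} (σ : Equiv.Perm (Fin N)) (ω : Sp N) : (relab σ ω).1 = ω.1 * σ := rfl

lemma relab_snd {N : ℕ} (σ : Equiv.Perm (Fin N)) (ω : Sp N) : (relab σ ω).2 = ω.2 := rfl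

lemma mem_pos {N : ℕ} (ω : Sp N) (e : Sym2 (Fin N)) : e ∈ pos ω ↔ e.map ω.1 ∈ ω.2 := by
  simp [pos]

lemma mem_pos_relab {N : ℕ} (σ : Equiv.Perm (Fin N)) (ω : Sp N) (e : Sym2 (Fin N)) :
    e ∈ pos (relab σ ω) ↔ e.map σ ∈ pos ω := by
  rw [mem_pos, mem_pos, Sym2.map_map, relab_fst, relab_snd]
  rfl

lemma X_relab {N : ℕ} (σ : Equiv.Perm (Fin N)) (ω : Sp N) (e : Sym2 (Fin N)) :
    X e (relab σ ω) = X (e.map σ) ω := by
  unfold X
  simp only [mem_pos_relab]

lemma Wt_relab {N : ℕ} (w : Finset (Sym2 (Fin N)) → ℝ) (σ : Equiv.Perm (Fin N)) (ω : Sp N) :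
    Wt w (relab σ ω) = Wt w ω := rfl

lemma obs_relab {N : ℕ} (σ : Equiv.Perm (Fin N)) (Q : Finset (Sym2 (Fin N))) (ω ω' : Sp N) :
    obs Q (relab σ ω') = obs Q (relab σ ω) ↔
      obs (Q.image (Sym2.map σ)) ω' = obs (Q.image (Sym2.map σ)) ω := by
  unfold obs
  rw [Prod.mk.injEq, Prod.mk.injEq, relab_fst, relab_fst, mul_left_inj]
  refine and_congr_right fun _ => ?_
  constructor
  · intro h
    ext e
    simp only [mem_inter, mem_image]
    constructor
    · rintro ⟨h1, e', he', rfl⟩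
      refine ⟨?_, e', he', rfl⟩
      have : e' ∈ pos (relab σ ω') ∩ Q := mem_inter.2 ⟨(mem_pos_relab _ _ _).2 h1, he'⟩
      rw [h] at this
      exact (mem_pos_relab _ _ _).1 (mem_inter.1 this).1
    · rintro ⟨h1, e', he', rfl⟩
      refine ⟨?_, e', he', rfl⟩
      have : e' ∈ pos (relab σ ω) ∩ Q := mem_inter.2 ⟨(mem_pos_relab _ _ _).2 h1, he'⟩
      rw [← h] at this
      exact (mem_pos_relab _ _ _).1 (mem_inter.1 this).1
  · intro h
    ext e
    simp only [mem_inter, mem_pos_relab]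
    refine and_congr_left fun he => ?_
    have h1 : e.map σ ∈ Q.image (Sym2.map σ) := mem_image_of_mem _ he
    constructor
    · intro h2
      have : e.map σ ∈ pos ω' ∩ Q.image (Sym2.map σ) := mem_inter.2 ⟨h2, h1⟩
      rw [h] at this
      exact (mem_inter.1 this).1
    · intro h2
      have : e.map σ ∈ pos ω ∩ Q.image (Sym2.map σ) := mem_inter.2 ⟨h2, h1⟩
      rw [← h] at this
      exact (mem_inter.1 this).1

lemma cE_relab {N : ℕ} (w : Finset (Sym2 (Fin N)) → ℝ) (σ : Equiv.Perm (Fin N))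
    (Q : Finset (Sym2 (Fin N))) (e : Sym2 (Fin N)) (ω : Sp N) :
    cE (Wt w) (obs Q) (X e) (relab σ ω) =
      cE (Wt w) (obs (Q.image (Sym2.map σ))) (X (e.map σ)) ω := by
  unfold cE
  congr 1
  · symm
    refine Finset.sum_equiv (relab σ) ?_ ?_
    · intro ω'
      simp only [mem_filter, mem_univ, true_and]
      exact (obs_relab σ Q ω ω').symm
    · intro ω' _
      rw [Wt_relab, X_relab]
  · symm
    refine Finset.sum_equiv (relab σ) ?_ ?_
    · intro ω'
      simp only [mem_filter, mem_univ, true_and]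
      exact (obs_relab σ Q ω ω').symm
    · intro ω' _
      rw [Wt_relab]

lemma around_image {N : ℕ} (σ : Equiv.Perm (Fin N)) (S : Finset (Fin N)) (e : Sym2 (Fin N)) :
    (around S e).image (Sym2.map σ) = around (S.image σ) (e.map σ) := by
  have hinj : Function.Injective (Sym2.map σ) := Sym2.map.injective σ.injective
  unfold around
  rw [Finset.image_erase hinj]
  congr 1
  ext f
  induction f using Sym2.ind with
  | _ x y =>
    simp only [mem_image, mem_sym2_iff]
    constructor
    · rintro ⟨g, hg, hgf⟩ z hz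
      rw [← hgf, Sym2.mem_map] at hz
      obtain ⟨z', hz', rfl⟩ := hz
      have := hg z' hz'
      rw [mem_union] at this ⊢
      rcases this with h | h
      · exact Or.inl (mem_image_of_mem _ h)
      · right
        rw [Sym2.mem_toFinset] at h ⊢
        exact Sym2.mem_map.2 ⟨z', h, rfl⟩
    · intro h
      refine ⟨s(σ.symm x, σ.symm y), ?_, by simp⟩
      intro z hz
      have hz2 : σ z ∈ s(x, y) := by
        rcases Sym2.mem_iff.1 hz with h1 | h1 <;> subst h1 <;> simp
      have := h (σ z) hz2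
      rw [mem_union] at this ⊢
      rcases this with h | h
      · left
        obtain ⟨z', hz', h3⟩ := mem_image.1 h
        rwa [← σ.injective h3]
      · right
        rw [Sym2.mem_toFinset] at h ⊢
        obtain ⟨z', hz', h3⟩ := Sym2.mem_map.1 h
        rwa [← σ.injective h3]

/-- A permutation carrying `(S, e)` to `(S', e')`. -/
lemma exists_perm {N : ℕ} (S S' : Finset (Fin N)) (e e' : Sym2 (Fin N)) (hc : S.card = S'.card)
    (he : ¬ e.IsDiag) (he' : ¬ e'.IsDiag) (hd : Disjoint S e.toFinset)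
    (hd' : Disjoint S' e'.toFinset) :
    ∃ σ : Equiv.Perm (Fin N), S.image σ = S' ∧ e.map σ = e' := by
  induction e using Sym2.ind with
  | _ a b =>
  induction e' using Sym2.ind with
  | _ a' b' =>
  rw [Sym2.mk_isDiag_iff] at he he'
  have ha : a ∉ S := fun h => (Finset.disjoint_left.1 hd h) (by simp [Sym2.mem_toFinset])
  have hb : b ∉ S := fun h => (Finset.disjoint_left.1 hd h) (by simp [Sym2.mem_toFinset])
  have ha' : a' ∉ S' := fun h => (Finset.disjoint_left.1 hd' h) (by simp [Sym2.mem_toFinset])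
  have hb' : b' ∉ S' := fun h => (Finset.disjoint_left.1 hd' h) (by simp [Sym2.mem_toFinset])
  classical
  let ψ : S ≃ S' := Finset.equivOfCardEq hc
  let f : Fin N → Fin N := fun x =>
    if x = a then a' else if x = b then b' else if h : x ∈ S then (ψ ⟨x, h⟩ : Fin N) else x
  have fa : f a = a' := by simp [f]
  have fb : f b = b' := by simp [f, Ne.symm he]
  have fS : ∀ x (h : x ∈ S), f x = (ψ ⟨x, h⟩ : Fin N) := by
    intro x h
    have h1 : x ≠ a := fun h' => ha (h' ▸ h)
    have h2 : x ≠ b := fun h' => hb (h' ▸ h)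
    simp [f, h1, h2, h]
  have fS' : ∀ x (h : x ∈ S), f x ∈ S' := by
    intro x h
    rw [fS x h]
    exact (ψ ⟨x, h⟩).2
  have hinj : Set.InjOn f ((insert a (insert b S) : Finset (Fin N)) : Set (Fin N)) := by
    intro x hx y hy hxy
    simp only [coe_insert, Set.mem_insert_iff, mem_coe] at hx hy
    rcases hx with rfl | rfl | hx <;> rcases hy with rfl | rfl | hy
    · rfl
    · rw [fa, fb] at hxy; exact absurd hxy he'
    · rw [fa] at hxy; exact absurd (hxy ▸ fS' y hy) ha'
    · rw [fa, fb] at hxy; exact absurd hxy.symm he'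
    · rfl
    · rw [fb] at hxy; exact absurd (hxy ▸ fS' y hy) hb'
    · rw [fa] at hxy; exact absurd (hxy ▸ fS' x hx) ha'
    · rw [fb] at hxy; exact absurd (hxy ▸ fS' x hx) hb'
    · rw [fS x hx, fS y hy] at hxy
      have := ψ.injective (Subtype.ext hxy)
      exact congrArg Subtype.val this
  obtain ⟨g, hg⟩ := Finset.exists_equiv_extend_of_card_eq (t := (univ : Finset (Fin N)))
    (by simp) (s := insert a (insert b S)) (f := f) (by simp) hinj
  let σ : Equiv.Perm (Fin N) := g.trans (Equiv.subtypeUnivEquiv (fun x => mem_univ x))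
  have hσ : ∀ x, σ x = (g x : Fin N) := fun x => rfl
  refine ⟨σ, ?_, ?_⟩
  · refine Finset.eq_of_subset_of_card_le ?_ ?_
    · intro y hy
      obtain ⟨x, hx, rfl⟩ := mem_image.1 hy
      rw [hσ, hg x (by simp [hx])]
      exact fS' x hx
    · rw [Finset.card_image_of_injective _ σ.injective, hc]
  · change s(σ a, σ b) = s(a', b')
    rw [hσ, hσ, hg a (by simp), hg b (by simp), fa, fb]

end H70

open H70 Finset

theorem block_B3 : Stmt_B3 := by
  intro N w φ S S' e e' hc he he' hd hd'
  obtain ⟨σ, h1, h2⟩ := exists_perm S S' e e' hc he he' hd hd'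
  rw [← Equiv.sum_comp (relab σ) (fun ω => Wt w ω * φ (aS w S e ω))]
  refine Finset.sum_congr rfl fun ω _ => ?_
  rw [Wt_relab]
  congr 2
  unfold aS
  rw [cE_relab, around_image, h1, h2]

end Pool.Agent.RandomMakerFull
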