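import Pool.Agent.Work.MP_ecc80d_co_h34.B3

/-!
# Block B4: the energy window
-/

namespace Pool.Agent.RandomMakerFull

namespace H70

open Finset

lemma obs_mono {N : ℕ} {Q Q' : Finset (Sym2 (Fin N))} (h : Q ⊆ Q') (ω ω' : Sp N)
    (ho : obs Q' ω = obs Q' ω') : obs Q ω = obs Q ω' := by
  unfold obs at ho ⊢
  rw [Prod.mk.injEq] at ho ⊢
  refine ⟨ho.1, ?_⟩
  have h1 : ∀ X : Finset (Sym2 (Fin N)), X ∩ Q = (X ∩ Q') ∩ Q := by
    intro X
    rw [inter_assoc, inter_eq_right.2 h]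
  rw [h1, ho.2, ← h1]

lemma Wt_nonneg {N : ℕ} {w : Finset (Sym2 (Fin N)) → ℝ} (hw : ∀ M, 0 ≤ w M) (ω : Sp N) :
    0 ≤ Wt w ω := div_nonneg (hw _) (Nat.cast_nonneg _)

lemma sum_Wt {N : ℕ} {w : Finset (Sym2 (Fin N)) → ℝ} (hw1 : ∑ M, w M = 1) :
    ∑ ω, Wt w ω = 1 := by
  rw [Fintype.sum_prod_type]
  unfold Wt
  simp only
  have hN : (N.factorial : ℝ) ≠ 0 := by exact_mod_cast N.factorial_ne_zero
  have h1 : ∑ M : Finset (Sym2 (Fin N)), w M / (N.factorial : ℝ) = 1 / (N.factorial : ℝ) := by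
    rw [← Finset.sum_div, hw1]
  rw [Finset.sum_congr rfl fun x _ => h1, Finset.sum_const, Finset.card_univ,
    Fintype.card_perm, Fintype.card_fin, nsmul_eq_mul]
  field_simp

lemma cE_nonneg {Ω β : Type*} [Fintype Ω] [DecidableEq β] {w : Ω → ℝ} (hw : ∀ ω, 0 ≤ w ω)
    (p : Ω → β) {f : Ω → ℝ} (hf : ∀ ω, 0 ≤ f ω) (ω : Ω) : 0 ≤ cE w p f ω := by
  unfold cE
  exact div_nonneg (sum_nonneg fun i _ => mul_nonneg (hw i) (hf i)) (sum_nonneg fun i _ => hw i)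

lemma cE_le_one {Ω β : Type*} [Fintype Ω] [DecidableEq β] {w : Ω → ℝ} (hw : ∀ ω, 0 ≤ w ω)
    (p : Ω → β) {f : Ω → ℝ} (hf : ∀ ω, f ω ≤ 1) (ω : Ω) : cE w p f ω ≤ 1 := by
  unfold cE
  refine div_le_one_of_le₀ (sum_le_sum fun i _ => ?_) (sum_nonneg fun i _ => hw i)
  exact mul_le_of_le_one_right (hw i) (hf i)

lemma X_nonneg {N : ℕ} (e : Sym2 (Fin N)) (ω : Sp N) : 0 ≤ X e ω := by
  unfold X; split_ifs <;> norm_num

lemma X_le_one {N : ℕ} (e : Sym2 (Fin N)) (ω : Sp N) : X e ω ≤ 1 := by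
  unfold X; split_ifs <;> norm_num

lemma sq_mono (hB2 : Stmt_B2) {N : ℕ} {w : Finset (Sym2 (Fin N)) → ℝ} (hw : ∀ M, 0 ≤ w M)
    {Q Q' : Finset (Sym2 (Fin N))} (h : Q ⊆ Q') (f : Sp N → ℝ) :
    ∑ ω, Wt w ω * (cE (Wt w) (obs Q) f ω) ^ 2 ≤ ∑ ω, Wt w ω * (cE (Wt w) (obs Q') f ω) ^ 2 := by
  have h1 := hB2 (Wt w) (Wt_nonneg hw) (obs Q) (obs Q') (obs_mono h) f
  have h2 : 0 ≤ ∑ ω, Wt w ω * (cE (Wt w) (obs Q') f ω - cE (Wt w) (obs Q) f ω) ^ 2 :=
    sum_nonneg fun ω _ => mul_nonneg (Wt_nonneg hw ω) (sq_nonneg _)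
  linarith

/-- A canonical set of `s` positions avoiding `0` and `1`. -/
def canS (N s : ℕ) : Finset (Fin N) := univ.filter (fun i => 2 ≤ i.val ∧ i.val < s + 2)

lemma card_canS {N s : ℕ} (h : s + 2 ≤ N) : (canS N s).card = s := by
  have h1 : ((canS N s).image Fin.val) = Finset.Ico 2 (s + 2) := by
    ext x
    simp only [canS, mem_image, mem_filter, mem_univ, true_and, mem_Ico]
    constructor
    · rintro ⟨i, hi, rfl⟩
      exact hi
    · intro hx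
      exact ⟨⟨x, by omega⟩, hx, rfl⟩
  rw [← Finset.card_image_of_injective _ Fin.val_injective, h1, Nat.card_Ico]
  omega

lemma canS_mono {N s s' : ℕ} (h : s ≤ s') : canS N s ⊆ canS N s' := by
  intro i hi
  simp only [canS, mem_filter, mem_univ, true_and] at hi ⊢
  omega

/-- The canonical pair `{0, 1}`. -/
def canE {N : ℕ} (h : 2 ≤ N) : Sym2 (Fin N) := s(⟨0, by omega⟩, ⟨1, by omega⟩)

lemma canE_not_diag {N : ℕ} (h : 2 ≤ N) : ¬ (canE h).IsDiag := by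
  unfold canE
  rw [Sym2.mk_isDiag_iff]
  simp

lemma canS_disjoint {N : ℕ} (h : 2 ≤ N) (s : ℕ) : Disjoint (canS N s) (canE h).toFinset := by
  rw [Finset.disjoint_left]
  intro i hi hi'
  simp only [canS, mem_filter, mem_univ, true_and] at hi
  rw [Sym2.mem_toFinset] at hi'
  unfold canE at hi'
  rcases Sym2.mem_iff.1 hi' with h1 | h1
  · subst h1; simp at hi
  · subst h1; simp at hi

/-- The energy. -/
noncomputable def energy {N : ℕ} (w : Finset (Sym2 (Fin N)) → ℝ) (h : 2 ≤ N) (s : ℕ) : ℝ :=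
  ∑ ω, Wt w ω * (aS w (canS N s) (canE h) ω) ^ 2

lemma energy_nonneg {N : ℕ} {w : Finset (Sym2 (Fin N)) → ℝ} (hw : ∀ M, 0 ≤ w M) (h : 2 ≤ N)
    (s : ℕ) : 0 ≤ energy w h s :=
  sum_nonneg fun ω _ => mul_nonneg (Wt_nonneg hw ω) (sq_nonneg _)

lemma energy_le_one {N : ℕ} {w : Finset (Sym2 (Fin N)) → ℝ} (hw : ∀ M, 0 ≤ w M)
    (hw1 : ∑ M, w M = 1) (h : 2 ≤ N) (s : ℕ) : energy w h s ≤ 1 := by
  unfold energy
  calc ∑ ω, Wt w ω * (aS w (canS N s) (canE h) ω) ^ 2 ≤ ∑ ω, Wt w ω * 1 := by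
        refine sum_le_sum fun ω _ => mul_le_mul_of_nonneg_left ?_ (Wt_nonneg hw ω)
        have h0 : 0 ≤ aS w (canS N s) (canE h) ω := cE_nonneg (Wt_nonneg hw) _ (X_nonneg _) ω
        have h1 : aS w (canS N s) (canE h) ω ≤ 1 := cE_le_one (Wt_nonneg hw) _ (X_le_one _) ω
        exact pow_le_one₀ h0 h1
    _ = 1 := by rw [← Finset.sum_mul, sum_Wt hw1, one_mul]

lemma around_mono {N : ℕ} {S T : Finset (Fin N)} (h : S ⊆ T) (e : Sym2 (Fin N)) :
    around S e ⊆ around T e := by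
  unfold around
  exact Finset.erase_subset_erase _ (Finset.sym2_mono (Finset.union_subset_union_left h))

lemma energy_mono (hB2 : Stmt_B2) {N : ℕ} {w : Finset (Sym2 (Fin N)) → ℝ} (hw : ∀ M, 0 ≤ w M)
    (h : 2 ≤ N) {s s' : ℕ} (hs : s ≤ s') : energy w h s ≤ energy w h s' :=
  sq_mono hB2 hw (around_mono (canS_mono hs) _) _

lemma energy_eq {N : ℕ} (w : Finset (Sym2 (Fin N)) → ℝ) (h : 2 ≤ N) (S : Finset (Fin N))
    (e : Sym2 (Fin N)) (he : ¬ e.IsDiag) (hd : Disjoint S e.toFinset) (hS : S.card + 2 ≤ N) :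
    ∑ ω, Wt w ω * (aS w S e ω) ^ 2 = energy w h S.card :=
  block_B3 w (fun x => x ^ 2) S (canS N S.card) e (canE h) (card_canS hS).symm he
    (canE_not_diag h) hd (canS_disjoint h _)

end H70

open H70 Finset

theorem block_B4 (hB2 : Stmt_B2) : Stmt_B4 := by
  intro N w hw hw1 R n s0 hR hN
  have h2 : 2 ≤ N := by omega
  -- pigeonhole
  obtain ⟨k, hk, hkE⟩ : ∃ k ∈ Finset.range R,
      energy w h2 (s0 + (k + 1) * n) - energy w h2 (s0 + k * n) ≤ 1 / (R : ℝ) := by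
    refine Finset.exists_le_of_sum_le (Finset.nonempty_range_iff.2 (by omega)) ?_
    rw [Finset.sum_range_sub (fun k => energy w h2 (s0 + k * n)), Finset.sum_const,
      Finset.card_range, nsmul_eq_mul]
    have hR' : (R : ℝ) ≠ 0 := by
      have : (1 : ℝ) ≤ R := by exact_mod_cast hR
      linarith
    rw [mul_one_div_cancel hR']
    have := energy_nonneg hw h2 (s0 + 0 * n)
    have := energy_le_one hw hw1 h2 (s0 + R * n)
    linarith
  rw [Finset.mem_range] at hk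
  refine ⟨k, hk, ?_⟩
  intro S A hSA hS hA e he Q Q' hQ hQQ' hQ'
  have hkR : (k + 1) * n ≤ R * n := Nat.mul_le_mul_right n (by omega)
  have hk1 : (k + 1) * n = k * n + n := by ring
  have heA : e.toFinset ⊆ A := by
    intro x hx
    rw [Sym2.mem_toFinset] at hx
    have := (mem_filter.1 he).1
    rw [mem_sym2_iff] at this
    exact this x hx
  have hed : ¬ e.IsDiag := (mem_filter.1 he).2
  have hec : e.toFinset.card = 2 := Sym2.card_toFinset_of_not_isDiag e hed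
  have hdS : Disjoint S e.toFinset := Finset.disjoint_of_subset_right heA hSA
  -- upper set
  have hT : ((S ∪ A).sym2).erase e = around ((S ∪ A) \ e.toFinset) e := by
    unfold around
    rw [Finset.sdiff_union_of_subset (heA.trans Finset.subset_union_right)]
  have hTc : ((S ∪ A) \ e.toFinset).card = s0 + k * n + n - 2 := by
    rw [Finset.card_sdiff_of_subset (heA.trans Finset.subset_union_right),
      Finset.card_union_of_disjoint hSA, hS, hA, hec]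
  have e1 := hB2 (Wt w) (Wt_nonneg hw) (obs Q) (obs Q') (obs_mono hQQ') (X e)
  have e2 : ∑ ω, Wt w ω * (cE (Wt w) (obs Q') (X e) ω) ^ 2 ≤
      energy w h2 (s0 + (k + 1) * n) := by
    calc ∑ ω, Wt w ω * (cE (Wt w) (obs Q') (X e) ω) ^ 2
        ≤ ∑ ω, Wt w ω * (aS w ((S ∪ A) \ e.toFinset) e ω) ^ 2 :=
          sq_mono hB2 hw (hQ'.trans hT.subset) _
      _ = energy w h2 ((S ∪ A) \ e.toFinset).card :=
          energy_eq w h2 _ e hed Finset.sdiff_disjoint (by rw [hTc]; omega)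
      _ ≤ energy w h2 (s0 + (k + 1) * n) := energy_mono hB2 hw h2 (by rw [hTc]; omega)
  have e3 : energy w h2 (s0 + k * n) ≤ ∑ ω, Wt w ω * (cE (Wt w) (obs Q) (X e) ω) ^ 2 := by
    calc energy w h2 (s0 + k * n) = ∑ ω, Wt w ω * (aS w S e ω) ^ 2 := by
          rw [energy_eq w h2 S e hed hdS (by rw [hS]; omega), hS]
      _ ≤ _ := sq_mono hB2 hw hQ _
  rw [e1]
  linarith

end Pool.Agent.RandomMakerFull
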