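import Pool.Agent.Work.MP_ecc80d_co_h34.Interface

/-!
# Block C2: calculus for `gfun`
-/

namespace Pool.Agent.RandomMakerFull

open Finset MeasureTheory

lemma c2_cont (η : ℝ) (hη : 0 < η) (hη1 : η ≤ 1) (x : ℝ) :
    IntervalIntegrable (fun t : ℝ => max (t - x) 0 / t ^ 2) volume η 1 := by
  apply ContinuousOn.intervalIntegrable
  rw [Set.uIcc_of_le hη1]
  apply ContinuousOn.div
  · fun_prop
  · fun_prop
  · intro t ht
    have ht0 : 0 < t := lt_of_lt_of_le hη ht.1
    positivity

lemma c2_inv (η : ℝ) (hη : 0 < η) (hη1 : η ≤ 1) :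
    IntervalIntegrable (fun t : ℝ => 1 / t ^ 2) volume η 1 := by
  apply ContinuousOn.intervalIntegrable
  rw [Set.uIcc_of_le hη1]
  apply ContinuousOn.div
  · fun_prop
  · fun_prop
  · intro t ht
    have ht0 : 0 < t := lt_of_lt_of_le hη ht.1
    positivity

lemma c2_inv_val (η : ℝ) (hη : 0 < η) (hη1 : η ≤ 1) :
    ∫ t in η..1, 1 / t ^ 2 = 1 / η - 1 := by
  have h1 : ∀ t ∈ Set.uIcc η 1, HasDerivAt (fun t : ℝ => -(1 / t)) (1 / t ^ 2) t := by
    intro t ht
    rw [Set.uIcc_of_le hη1] at ht
    have ht0 : t ≠ 0 := (lt_of_lt_of_le hη ht.1).ne'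
    have h2 := (hasDerivAt_inv ht0).neg
    have e1 : (fun t : ℝ => -(1 / t)) = fun t => -(t⁻¹) := by ext t; rw [one_div]
    rw [e1]
    refine h2.congr_deriv ?_
    field_simp
  rw [intervalIntegral.integral_eq_sub_of_hasDerivAt h1 (c2_inv η hη hη1)]
  ring

lemma c2_integral_nonneg (η : ℝ) (hη1 : η ≤ 1) (x : ℝ) :
    0 ≤ ∫ t in η..1, max (t - x) 0 / t ^ 2 := by
  apply intervalIntegral.integral_nonneg hη1
  intro t _
  positivity

theorem block_C2 : Stmt_C2 := by
  intro η hη hη1
  refine ⟨?_, ?_, ?_, ?_, ?_⟩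
  · intro x _ hx1
    unfold gfun
    have := c2_integral_nonneg η hη1 x
    linarith
  · intro x hx0 hx1
    unfold gfun
    have h1 : ∫ t in η..1, max (t - x) 0 / t ^ 2 ≤ ∫ t in η..1, t⁻¹ := by
      apply intervalIntegral.integral_mono_on hη1 (c2_cont η hη hη1 x)
      · apply intervalIntegral.intervalIntegrable_inv
        · intro t ht
          rw [Set.uIcc_of_le hη1] at ht
          exact (lt_of_lt_of_le hη ht.1).ne'
        · fun_prop
      · intro t ht
        have ht0 : 0 < t := lt_of_lt_of_le hη ht.1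
        rw [div_le_iff₀ (by positivity)]
        have : t⁻¹ * t ^ 2 = t := by field_simp
        rw [this]
        exact max_le (by linarith) ht0.le
    rw [integral_inv_of_pos hη one_pos] at h1
    linarith
  · intro x hx hx1
    have hx0 : 0 < x := lt_of_lt_of_le hη hx
    unfold gfun
    have h1 : ∀ t ∈ Set.uIcc x 1, HasDerivAt (fun t : ℝ => Real.log t + x * t⁻¹)
        ((t - x) / t ^ 2) t := by
      intro t ht
      rw [Set.uIcc_of_le hx1] at ht
      have ht0 : t ≠ 0 := (lt_of_lt_of_le hx0 ht.1).ne'
      have h2 := (Real.hasDerivAt_log ht0).add ((hasDerivAt_inv ht0).const_mul x)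
      refine h2.congr_deriv ?_
      field_simp
      ring
    have hcx : IntervalIntegrable (fun t : ℝ => (t - x) / t ^ 2) volume x 1 := by
      apply ContinuousOn.intervalIntegrable
      rw [Set.uIcc_of_le hx1]
      apply ContinuousOn.div
      · fun_prop
      · fun_prop
      · intro t ht
        have ht0 : 0 < t := lt_of_lt_of_le hx0 ht.1
        positivity
    have h2 := intervalIntegral.integral_eq_sub_of_hasDerivAt h1 hcx
    have h3 : ∫ t in x..1, (t - x) / t ^ 2 = ∫ t in x..1, max (t - x) 0 / t ^ 2 := by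
      apply intervalIntegral.integral_congr
      intro t ht
      rw [Set.uIcc_of_le hx1] at ht
      simp only
      rw [max_eq_left (by linarith [ht.1])]
    have i1 : IntervalIntegrable (fun t : ℝ => max (t - x) 0 / t ^ 2) volume η x :=
      (c2_cont η hη hη1 x).mono_set (by
        rw [Set.uIcc_of_le hη1, Set.uIcc_of_le hx]; exact Set.Icc_subset_Icc_right hx1)
    have i2 : IntervalIntegrable (fun t : ℝ => max (t - x) 0 / t ^ 2) volume x 1 :=
      c2_cont x hx0 hx1 x
    have h4 := intervalIntegral.integral_add_adjacent_intervals i1 i2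
    have h5 : 0 ≤ ∫ t in η..x, max (t - x) 0 / t ^ 2 := by
      apply intervalIntegral.integral_nonneg hx
      intro t _
      positivity
    rw [← h3, h2] at h4
    rw [Real.log_one, mul_inv_cancel₀ hx0.ne', inv_one, mul_one] at h4
    linarith
  · intro x y _ _ _ _
    unfold gfun
    have h1 : (∫ t in η..1, max (t - x) 0 / t ^ 2) - ∫ t in η..1, max (t - y) 0 / t ^ 2 =
        ∫ t in η..1, (max (t - x) 0 / t ^ 2 - max (t - y) 0 / t ^ 2) :=
      (intervalIntegral.integral_sub (c2_cont η hη hη1 x) (c2_cont η hη hη1 y)).symm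
    have h2 : |∫ t in η..1, (max (t - x) 0 / t ^ 2 - max (t - y) 0 / t ^ 2)| ≤
        ∫ t in η..1, |x - y| * (1 / t ^ 2) := by
      rw [← Real.norm_eq_abs]
      apply intervalIntegral.norm_integral_le_of_norm_le hη1
      · refine Filter.Eventually.of_forall fun t ht => ?_
        have ht0 : 0 < t := lt_trans hη ht.1
        rw [Real.norm_eq_abs, ← sub_div, abs_div, abs_of_pos (by positivity : 0 < t ^ 2),
          mul_one_div]
        have h5 := abs_max_sub_max_le_abs (t - x) (t - y) 0
        rw [show t - x - (t - y) = -(x - y) by ring, abs_neg] at h5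
        exact div_le_div_of_nonneg_right h5 (by positivity)
      · exact (c2_inv η hη hη1).const_mul _
    rw [intervalIntegral.integral_const_mul, c2_inv_val η hη hη1] at h2
    have h3 : (1 - x + ∫ t in η..1, max (t - x) 0 / t ^ 2) -
        (1 - y + ∫ t in η..1, max (t - y) 0 / t ^ 2) = (y - x) +
        ((∫ t in η..1, max (t - x) 0 / t ^ 2) - ∫ t in η..1, max (t - y) 0 / t ^ 2) := by ring
    rw [h3, h1]
    refine (abs_add_le _ _).trans ?_
    rw [abs_sub_comm y x]
    have : |x - y| / η = |x - y| + |x - y| * (1 / η - 1) := by ring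
    rw [this]
    linarith
  · intro Ω _ W a κ δ hW hW1 ha hκ hδ hl
    unfold gfun
    have h1 : ∑ ω, W ω * ((1 - a ω) + ∫ t in η..1, max (t - a ω) 0 / t ^ 2) =
        ∑ ω, W ω * max (1 - a ω) 0 + ∫ t in η..1, ∑ ω, W ω * (max (t - a ω) 0 / t ^ 2) := by
      rw [intervalIntegral.integral_finsetSum]
      · rw [← Finset.sum_add_distrib]
        apply Finset.sum_congr rfl
        intro ω _
        rw [intervalIntegral.integral_const_mul, max_eq_left (by linarith [(ha ω).2])]
        ring
      · intro ω _
        exact (c2_cont η hη hη1 (a ω)).const_mul _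
    rw [h1]
    have h2 := hl 1 zero_le_one le_rfl
    have h3 : ∫ t in η..1, ∑ ω, W ω * (max (t - a ω) 0 / t ^ 2) ≤
        ∫ t in η..1, (κ / 2 + δ * (1 / t ^ 2)) := by
      apply intervalIntegral.integral_mono_on hη1
      · have h10 : (fun u => ∑ ω, W ω * (max (u - a ω) 0 / u ^ 2)) =
            ∑ ω, fun u => W ω * (max (u - a ω) 0 / u ^ 2) := by
          ext u
          rw [Finset.sum_apply]
        rw [h10]
        apply IntervalIntegrable.sum
        intro ω _
        exact (c2_cont η hη hη1 (a ω)).const_mul _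
      · exact (intervalIntegrable_const).add ((c2_inv η hη hη1).const_mul _)
      · intro t ht
        have ht0 : 0 < t := lt_of_lt_of_le hη ht.1
        have h4 := hl t ht0.le ht.2
        have h5 : ∑ ω, W ω * (max (t - a ω) 0 / t ^ 2) =
            (∑ ω, W ω * max (t - a ω) 0) / t ^ 2 := by
          rw [Finset.sum_div]
          apply Finset.sum_congr rfl
          intro ω _
          rw [mul_div_assoc]
        rw [h5, div_le_iff₀ (by positivity)]
        refine h4.trans (le_of_eq ?_)
        field_simp
    rw [intervalIntegral.integral_add (intervalIntegrable_const)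
      ((c2_inv η hη hη1).const_mul _), intervalIntegral.integral_const,
      intervalIntegral.integral_const_mul, c2_inv_val η hη hη1, smul_eq_mul] at h3
    have h6 : 0 ≤ κ * η := by positivity
    have h7 : δ * (1 / η - 1) = δ * (1 / η) - δ := by ring
    have h8 : (1 - η) * (κ / 2) = κ / 2 - κ * η / 2 := by ring
    have h9 : δ * (1 + 1 / η) = δ + δ * (1 / η) := by ring
    rw [h7, h8] at h3
    rw [h9]
    nlinarith

end Pool.Agent.RandomMakerFull
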