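import Pool.Agent.Work.MP_ecc80d_co_h34.Defs
import Pool.Agent.Work.MP_ecc80d_co.Bound

/-!
# Interface: exact statements of all blocks (each as a `Prop`)
-/

namespace Pool.Agent.RandomMakerFull

open Finset Filter
open Pool.Agent.RandomMaker (BreakerStrategy expect cliqueProb)

/-! ### Block A: the game -/

/-- A1. The law of Maker's final set under a fixed strategy, and its exponential moments.
Exact potential: with `l` unclaimed elements of `L` among `mu` unclaimed elements,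
`V(l,mu) = l (l+1) / (2 mu)` is the expected number of further elements of `L` Maker gets
against the Breaker who always takes an element of `L`. -/
def Stmt_A1 : Prop := ∀ {α : Type} [DecidableEq α] (E : Finset α) (σ : BreakerStrategy E),
  ∃ w : Finset α → ℝ, (∀ M, 0 ≤ w M) ∧ (∀ M, ¬ M ⊆ E → w M = 0) ∧
    (∑ M ∈ E.powerset, w M = 1) ∧
    (∀ f : Finset α → ℝ, expect E σ f E.card [] = ∑ M ∈ E.powerset, w M * f M) ∧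
    ∀ L ⊆ E, ∀ t : ℝ, 0 ≤ t → t ≤ 1 →
      ∑ M ∈ E.powerset, w M * Real.exp (-(t * ((M ∩ L).card : ℝ))) ≤
        Real.exp (-(t * (L.card : ℝ) ^ 2 / (2 * (E.card : ℝ))) + t ^ 2 * (E.card : ℝ))

/-! ### Block B: finite conditional expectations and the energy window -/

def Stmt_B1 : Prop := ∀ {Ω β : Type} [Fintype Ω] [DecidableEq β] (w : Ω → ℝ),
  (∀ ω, 0 ≤ w ω) → ∀ (p : Ω → β) (f : Ω → ℝ) (g : β → ℝ),
    ∑ ω, w ω * (g (p ω) * cE w p f ω) = ∑ ω, w ω * (g (p ω) * f ω)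

def Stmt_B2 : Prop := ∀ {Ω β γ : Type} [Fintype Ω] [DecidableEq β] [DecidableEq γ] (w : Ω → ℝ),
  (∀ ω, 0 ≤ w ω) → ∀ (p : Ω → β) (p' : Ω → γ), (∀ ω ω', p' ω = p' ω' → p ω = p ω') →
    ∀ f : Ω → ℝ,
    ∑ ω, w ω * (cE w p' f ω - cE w p f ω) ^ 2 =
      ∑ ω, w ω * (cE w p' f ω) ^ 2 - ∑ ω, w ω * (cE w p f ω) ^ 2

/-- B3. Relabelling symmetry. -/
def Stmt_B3 : Prop := ∀ {N : ℕ} (w : Finset (Sym2 (Fin N)) → ℝ) (φ : ℝ → ℝ)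
  (S S' : Finset (Fin N)) (e e' : Sym2 (Fin N)), S.card = S'.card → ¬ e.IsDiag → ¬ e'.IsDiag →
    Disjoint S e.toFinset → Disjoint S' e'.toFinset →
    ∑ ω, Wt w ω * φ (aS w S e ω) = ∑ ω, Wt w ω * φ (aS w S' e' ω)

/-- B4. Energy window: for some `k < R`, adding `n` revealed positions to `s0 + k n` revealed
positions changes the conditional probability of a pair by at most `1/R` in mean square. -/
def Stmt_B4 : Prop := ∀ {N : ℕ} (w : Finset (Sym2 (Fin N)) → ℝ), (∀ M, 0 ≤ w M) →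
  ∑ M, w M = 1 → ∀ R n s0 : ℕ, 1 ≤ R → s0 + R * n + 2 ≤ N →
  ∃ k < R, ∀ S A : Finset (Fin N), Disjoint S A → S.card = s0 + k * n → A.card = n →
    ∀ e ∈ prs A, ∀ Q Q' : Finset (Sym2 (Fin N)), around S e ⊆ Q → Q ⊆ Q' →
      Q' ⊆ ((S ∪ A).sym2).erase e →
      ∑ ω, Wt w ω * (cE (Wt w) (obs Q') (X e) ω - cE (Wt w) (obs Q) (X e) ω) ^ 2 ≤ 1 / R

/-! ### Block C: majorisation -/

/-- C1. `w` is the law of the game, `w' ≤ w / ρ` (conditioning on an event of probability at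
least `ρ`). -/
def Stmt_C1 : Prop := ∀ {N : ℕ} (w w' : Finset (Sym2 (Fin N)) → ℝ) (ρ : ℝ),
  (∀ M, 0 ≤ w M) → (∀ M, ¬ M ⊆ prs (univ : Finset (Fin N)) → w M = 0) → GameBound w →
  0 < ρ → ρ ≤ 1 → (∀ M, 0 ≤ w' M) → (∀ M, w' M ≤ w M / ρ) → ∑ M, w' M = 1 →
  ∀ (S : Finset (Fin N)) (e : Sym2 (Fin N)), ¬ e.IsDiag → Disjoint S e.toFinset →
  ∀ t l : ℝ, 0 < t → t ≤ 1 → 0 ≤ l → l ≤ 1 →
    ((N - S.card).choose 2 : ℝ) * ∑ ω, Wt w' ω * max (l - aS w' S e ω) 0 ≤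
      l ^ 2 / 2 * (N.choose 2 : ℝ) +
        ((S.card * N : ℕ) * Real.log 2 + Real.log (1 / ρ)) / t + t * (N.choose 2 : ℝ)

/-- C2. Calculus for `gfun`. -/
def Stmt_C2 : Prop := ∀ η : ℝ, 0 < η → η ≤ 1 →
  (∀ x, 0 ≤ x → x ≤ 1 → 0 ≤ gfun η x) ∧
  (∀ x, 0 ≤ x → x ≤ 1 → gfun η x ≤ 1 + Real.log (1 / η)) ∧
  (∀ x, η ≤ x → x ≤ 1 → -Real.log x ≤ gfun η x) ∧
  (∀ x y, 0 ≤ x → x ≤ 1 → 0 ≤ y → y ≤ 1 → |gfun η x - gfun η y| ≤ |x - y| / η) ∧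
  (∀ {Ω : Type} [Fintype Ω] (W : Ω → ℝ) (a : Ω → ℝ) (κ δ : ℝ), (∀ ω, 0 ≤ W ω) →
    ∑ ω, W ω = 1 → (∀ ω, 0 ≤ a ω ∧ a ω ≤ 1) → 0 ≤ κ → 0 ≤ δ →
    (∀ l, 0 ≤ l → l ≤ 1 → ∑ ω, W ω * max (l - a ω) 0 ≤ l ^ 2 / 2 * κ + δ) →
    ∑ ω, W ω * gfun η (a ω) ≤ κ + δ * (1 + 1 / η))

/-! ### Block E: hybrid inequality -/

/-- Sum of the one-step errors `E |P(i ∈ x | p, x ∩ P0, earlier coordinates) - b_i|`. -/
noncomputable def hybSum {Ω β I : Type} [Fintype Ω] [DecidableEq β] [DecidableEq I]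
    (w : Ω → ℝ) (p : Ω → β) (x : Ω → Finset I) (b : β → I → ℝ) : List I → Finset I → ℝ
  | [], _ => 0
  | i :: l, P0 => ∑ ω, w ω * |cE w (fun ω => (p ω, x ω ∩ P0)) (fun ω => if i ∈ x ω then 1 else 0) ω
      - b (p ω) i| + hybSum w p x b l (insert i P0)

def Stmt_E : Prop := ∀ {Ω β I : Type} [Fintype Ω] [DecidableEq β] [DecidableEq I]
  (w : Ω → ℝ) (p : Ω → β) (x : Ω → Finset I) (b : β → I → ℝ) (F : β → Finset I → ℝ)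
  (l : List I), (∀ ω, 0 ≤ w ω) → (∀ s i, 0 ≤ b s i ∧ b s i ≤ 1) → l.Nodup →
  (∀ ω, x ω ⊆ l.toFinset) →
  (∀ s y i, |F s (insert i y) - F s (y.erase i)| ≤ 1) →
    |∑ ω, w ω * F (p ω) (x ω) - ∑ ω, w ω * Rs (b (p ω)) l (F (p ω)) (x ω)| ≤
      hybSum w p x b l ∅

/-! ### Block F: product measures -/

/-- F1. Robust lower bound for the distance to pattern-free sets under a product measure. -/
def Stmt_F1 : Prop := ∀ {I ι : Type} [DecidableEq I] (b : I → ℝ) (l : List I)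
  (Free : Finset I → Prop) (K : Finset ι) (κ : ι → Finset I),
  (∀ i, 0 ≤ b i ∧ b i ≤ 1) → l.Nodup → Free ∅ → (∀ i ∈ K, ∀ z, κ i ⊆ z → ¬ Free z) →
  (∀ i ∈ K, κ i ⊆ l.toFinset) → (∀ i ∈ K, ∀ e ∈ κ i, 0 < b e) → ∀ x,
    (K.card : ℝ) ^ 2 ≤ Rs b l (dst Free) x *
      ∑ i ∈ K, ∑ j ∈ K, ((κ i ∩ κ j).card : ℝ) * ∏ e ∈ κ i ∩ κ j, (b e)⁻¹

/-- F2. Properties of `dst`. -/
def Stmt_F2 : Prop := ∀ {I : Type} [DecidableEq I] (Free : Finset I → Prop), Free ∅ →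
  (∀ z z', z ⊆ z' → Free z' → Free z) →
  (∀ y, 0 ≤ dst Free y) ∧ (∀ y, Free y → dst Free y = 0) ∧
  ∀ (y : Finset I) (i : I), |dst Free (insert i y) - dst Free (y.erase i)| ≤ 1

/-! ### Block D: choice of the good cliques and second moment -/

/-- D. Deterministic. `h` is `gfun` plus a large penalty for the pairs with `b < η`. The family
`K` consists of injective maps `Fin q → A`. -/
def Stmt_D : Prop := ∀ ε : ℝ, 0 < ε → ε ≤ 1 → ∃ C : ℕ, ∃ N0 : ℕ, ∀ N : ℕ, N0 ≤ N →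
  ∀ (A : Finset (Fin N)) (b : Sym2 (Fin N) → ℝ) (q : ℕ),
  (N : ℝ) ^ (1 - ε / 8) / 2 ≤ A.card → 2 ≤ q → (q : ℝ) ≤ (2 - ε) * Real.log N →
  (∀ e, 0 ≤ b e ∧ b e ≤ 1) →
  ∑ e ∈ prs A, (gfun (Real.log N ^ 4)⁻¹ (b e) +
      (if b e < (Real.log N ^ 4)⁻¹ then Real.log N ^ 3 else 0)) ≤
    (1 + ε / 24) * (A.card.choose 2 : ℝ) →
  ∃ K : Finset (Fin q → Fin N), K.Nonempty ∧ (∀ κ ∈ K, Function.Injective κ ∧ ∀ i, κ i ∈ A) ∧
    (∀ κ ∈ K, ∀ e ∈ prs (univ.image κ), (Real.log N ^ 4)⁻¹ ≤ b e) ∧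
    (∑ κ ∈ K, ∑ κ' ∈ K, ((prs (univ.image κ) ∩ prs (univ.image κ')).card : ℝ) *
      ∏ e ∈ prs (univ.image κ) ∩ prs (univ.image κ'), (b e)⁻¹) * (A.card : ℝ) ^ 2 ≤
      Real.log N ^ C * (K.card : ℝ) ^ 2

/-! ### Block Z: assembly -/

/-- Z1. The abstract lower bound. -/
def Stmt_Z1 : Prop := ∀ ε : ℝ, 0 < ε → ε ≤ 1 → ∀ᶠ N : ℕ in atTop,
  ∀ w : Finset (Sym2 (Fin N)) → ℝ, (∀ M, 0 ≤ w M) → ∑ M, w M = 1 →
  (∀ M, ¬ M ⊆ prs (univ : Finset (Fin N)) → w M = 0) → GameBound w →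
  ∀ q : ℕ, (q : ℝ) ≤ (2 - ε) * Real.log N →
    ∑ M, w M * (open Classical in if NoClique q M then 1 else 0) ≤ ε

/-- Z2. The final lower bound. -/
def Stmt_Z2 : Prop := ∀ ε : ℝ, 0 < ε → ∀ᶠ N : ℕ in atTop, ∀ q : ℕ,
  (q : ℝ) ≤ (2 - ε) * Real.log N → 1 - ε < cliqueProb N q

end Pool.Agent.RandomMakerFull
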