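import Pool.Agent.Work.MP_ecc80d_co_h34.InterfaceD
import Pool.Agent.Work.MP_ecc80d_co_h34.Interface

/-!
# Block D from its two halves
-/

namespace Pool.Agent.RandomMakerFull

open Finset

theorem block_D (h1 : Stmt_D1) (h2 : Stmt_D2) : Stmt_D := by
  intro ε hε hε1
  obtain ⟨N1, h1⟩ := h1 ε hε hε1
  obtain ⟨C, N2, h2⟩ := h2 ε hε hε1
  refine ⟨C, max (max N1 N2) 1, fun N hN A b q hA hq hqL hb hsum => ?_⟩
  obtain ⟨A', hA', hcard, K, hK1, hK2, hK3, hK4⟩ :=
    h1 N ((le_max_left _ _).trans ((le_max_left _ _).trans hN)) A b q hA hq hqL hb hsum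
  refine ⟨K, ?_, fun κ hκ => ⟨(hK1 κ hκ).1, fun i => hA' ((hK1 κ hκ).2 i)⟩, hK3,
    h2 N ((le_max_right _ _).trans ((le_max_left _ _).trans hN)) A A' b q K hA hA' hcard hq hqL
      hK1 hK2 hK3 (fun e => (hb e).2) hK4⟩
  rw [← card_pos]
  have hN1 : 1 ≤ N := (le_max_right _ _).trans hN
  have hApos : (0 : ℝ) < A.card := by
    have : (0 : ℝ) < (N : ℝ) ^ (1 - ε / 8) / 2 := by
      have : (0 : ℝ) < N := by exact_mod_cast hN1
      positivity
    linarith
  have hA'pos : (0 : ℝ) < A'.card := by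
    have : 0 < ε / 30 * A.card := by positivity
    linarith
  have : (0 : ℝ) < (A'.card : ℝ) ^ q := by positivity
  have h3 : (0 : ℝ) < K.card := by linarith
  exact_mod_cast h3

end Pool.Agent.RandomMakerFull
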