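import Mathlib

/-!
# Block D1, part a: random maps and squared excesses
-/

namespace Pool.Agent.RandomMakerFull

namespace H70

open Finset

/-- Resampling one coordinate. -/
lemma resample {ι V : Type*} [Fintype ι] [DecidableEq ι] [Fintype V] (j : ι)
    (Φ : (ι → V) → ℝ) :
    (Fintype.card V : ℝ) * ∑ κ, Φ κ = ∑ κ, ∑ v, Φ (Function.update κ j v) := by
  let E : ((ι → V) × V) ≃ ((ι → V) × V) :=
    { toFun := fun x => (Function.update x.1 j x.2, x.1 j)
      invFun := fun x => (Function.update x.1 j x.2, x.1 j)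
      left_inv := fun x => by
        simp
      right_inv := fun x => by
        simp }
  have h1 : ∑ κ, ∑ v, Φ (Function.update κ j v) = ∑ x : (ι → V) × V, Φ (E x).1 := by
    rw [Fintype.sum_prod_type]
    rfl
  rw [h1, Equiv.sum_comp E (fun x => Φ x.1), Fintype.sum_prod_type]
  simp only [Finset.sum_const, Finset.card_univ, nsmul_eq_mul]
  rw [Finset.mul_sum]

/-- Row mean. -/
noncomputable def rmean {V : Type*} [Fintype V] (g : V → V → ℝ) (u : V) : ℝ :=
  (∑ w, g u w) / Fintype.card V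

/-- Row excess. -/
noncomputable def exc {V : Type*} [Fintype V] {q : ℕ} (g : V → V → ℝ) (κ : Fin q → V)
    (i : Fin q) : ℝ := ∑ j ∈ univ.erase i, (g (κ i) (κ j) - rmean g (κ i))

section core

variable {V : Type*} [Fintype V] [DecidableEq V] {q : ℕ}

lemma sum_eq_ind (hV : 0 < Fintype.card V) {i j : Fin q} (hij : j ≠ i) :
    ∑ κ : Fin q → V, (if κ i = κ j then (1 : ℝ) else 0) =
      (Fintype.card V : ℝ) ^ q / Fintype.card V := by
  have hV' : (0 : ℝ) < Fintype.card V := by exact_mod_cast hV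
  have h := resample j (fun κ : Fin q → V => if κ i = κ j then (1 : ℝ) else 0)
  have h2 : ∀ κ : Fin q → V, ∑ v, (if Function.update κ j v i = Function.update κ j v j then
      (1 : ℝ) else 0) = 1 := by
    intro κ
    simp only [Function.update_self, Function.update_of_ne hij.symm]
    rw [Finset.sum_ite_eq]
    simp
  simp only [h2, Finset.sum_const, Finset.card_univ, nsmul_eq_mul, mul_one] at h
  rw [Fintype.card_fun, Fintype.card_fin] at h
  rw [eq_div_iff hV'.ne', mul_comm, h]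
  push_cast
  rfl

omit [DecidableEq V] in
lemma sum_bad_ind (hV : 0 < Fintype.card V) (bad : V → V → Prop) [DecidableRel bad] (β : ℝ)
    (hbad : ∀ u, ((univ.filter (fun w => bad u w)).card : ℝ) ≤ β * Fintype.card V)
    {i j : Fin q} (hij : j ≠ i) :
    ∑ κ : Fin q → V, (if bad (κ i) (κ j) then (1 : ℝ) else 0) ≤
      β * (Fintype.card V : ℝ) ^ q := by
  have hV' : (0 : ℝ) < Fintype.card V := by exact_mod_cast hV
  have h := resample j (fun κ : Fin q → V => if bad (κ i) (κ j) then (1 : ℝ) else 0)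
  have h2 : ∀ κ : Fin q → V, ∑ v, (if bad (Function.update κ j v i) (Function.update κ j v j) then
      (1 : ℝ) else 0) ≤ β * Fintype.card V := by
    intro κ
    simp only [Function.update_self, Function.update_of_ne hij.symm]
    rw [Finset.sum_boole]
    exact hbad (κ i)
  have h3 := Finset.sum_le_sum (s := (univ : Finset (Fin q → V))) fun κ _ => h2 κ
  rw [← h, Finset.sum_const, Finset.card_univ, Fintype.card_fun, Fintype.card_fin,
    nsmul_eq_mul] at h3
  push_cast at h3
  have h4 : (Fintype.card V : ℝ) * ∑ κ : Fin q → V, (if bad (κ i) (κ j) then (1 : ℝ) else 0) ≤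
      (Fintype.card V : ℝ) * (β * (Fintype.card V : ℝ) ^ q) := by
    calc _ ≤ (Fintype.card V : ℝ) ^ q * (β * (Fintype.card V : ℝ)) := h3
      _ = _ := by ring
  exact le_of_mul_le_mul_left h4 hV'

omit [DecidableEq V] in
lemma sum_exc_sq (hV : 0 < Fintype.card V) (g : V → V → ℝ) (G : ℝ)
    (hg0 : ∀ u w, 0 ≤ g u w) (hgG : ∀ u w, g u w ≤ G) (i : Fin q) :
    ∑ κ : Fin q → V, (exc g κ i) ^ 2 ≤ q * G ^ 2 * (Fintype.card V : ℝ) ^ q := by
  have hV' : (0 : ℝ) < Fintype.card V := by exact_mod_cast hV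
  have hm0 : ∀ u, 0 ≤ rmean g u := fun u => div_nonneg (sum_nonneg fun w _ => hg0 u w) hV'.le
  have hmG : ∀ u, rmean g u ≤ G := by
    intro u
    unfold rmean
    rw [div_le_iff₀ hV']
    calc ∑ w, g u w ≤ ∑ _w : V, G := sum_le_sum fun w _ => hgG u w
      _ = G * Fintype.card V := by rw [Finset.sum_const, Finset.card_univ, nsmul_eq_mul]; ring
  have hzero : ∀ u, ∑ v, (g u v - rmean g u) = 0 := by
    intro u
    rw [Finset.sum_sub_distrib, Finset.sum_const, Finset.card_univ, nsmul_eq_mul]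
    unfold rmean
    field_simp
    ring
  have hcross : ∀ j ∈ univ.erase i, ∀ k ∈ univ.erase i, j ≠ k →
      ∑ κ : Fin q → V, (g (κ i) (κ j) - rmean g (κ i)) * (g (κ i) (κ k) - rmean g (κ i)) = 0 := by
    intro j hj k hk hjk
    have hk' : k ≠ i := Finset.ne_of_mem_erase hk
    have h := resample k (fun κ : Fin q → V =>
      (g (κ i) (κ j) - rmean g (κ i)) * (g (κ i) (κ k) - rmean g (κ i)))
    have h2 : ∀ κ : Fin q → V, ∑ v,
        (g (Function.update κ k v i) (Function.update κ k v j) - rmean g (Function.update κ k v i)) *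
        (g (Function.update κ k v i) (Function.update κ k v k) - rmean g (Function.update κ k v i))
        = 0 := by
      intro κ
      simp only [Function.update_self, Function.update_of_ne hk'.symm, Function.update_of_ne hjk]
      rw [← Finset.mul_sum, hzero, mul_zero]
    rw [Finset.sum_congr rfl fun κ _ => h2 κ, Finset.sum_const_zero] at h
    rcases mul_eq_zero.1 h with h | h
    · exact absurd h hV'.ne'
    · exact h
  have hdiag : ∀ j : Fin q, ∑ κ : Fin q → V,
      (g (κ i) (κ j) - rmean g (κ i)) * (g (κ i) (κ j) - rmean g (κ i)) ≤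
        G ^ 2 * (Fintype.card V : ℝ) ^ q := by
    intro j
    calc ∑ κ : Fin q → V, (g (κ i) (κ j) - rmean g (κ i)) * (g (κ i) (κ j) - rmean g (κ i))
        ≤ ∑ _κ : Fin q → V, G ^ 2 := by
          refine sum_le_sum fun κ _ => ?_
          have h1 := hg0 (κ i) (κ j)
          have h2 := hgG (κ i) (κ j)
          have h3 := hm0 (κ i)
          have h4 := hmG (κ i)
          have h5 : |g (κ i) (κ j) - rmean g (κ i)| ≤ G := abs_le.2 ⟨by linarith, by linarith⟩
          calc _ = |g (κ i) (κ j) - rmean g (κ i)| ^ 2 := by rw [sq_abs]; ring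
            _ ≤ G ^ 2 := pow_le_pow_left₀ (abs_nonneg _) h5 2
      _ = _ := by
        rw [Finset.sum_const, Finset.card_univ, Fintype.card_fun, Fintype.card_fin, nsmul_eq_mul]
        push_cast
        ring
  have hexp : ∑ κ : Fin q → V, (exc g κ i) ^ 2 = ∑ j ∈ univ.erase i, ∑ k ∈ univ.erase i,
      ∑ κ : Fin q → V, (g (κ i) (κ j) - rmean g (κ i)) * (g (κ i) (κ k) - rmean g (κ i)) := by
    have : ∀ κ : Fin q → V, (exc g κ i) ^ 2 = ∑ j ∈ univ.erase i, ∑ k ∈ univ.erase i,
        (g (κ i) (κ j) - rmean g (κ i)) * (g (κ i) (κ k) - rmean g (κ i)) := by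
      intro κ
      unfold exc
      rw [sq, Finset.sum_mul_sum]
    rw [Finset.sum_congr rfl fun κ _ => this κ, Finset.sum_comm]
    refine Finset.sum_congr rfl fun j _ => ?_
    rw [Finset.sum_comm]
  rw [hexp]
  calc ∑ j ∈ univ.erase i, ∑ k ∈ univ.erase i,
      ∑ κ : Fin q → V, (g (κ i) (κ j) - rmean g (κ i)) * (g (κ i) (κ k) - rmean g (κ i))
      = ∑ j ∈ univ.erase i, ∑ κ : Fin q → V,
        (g (κ i) (κ j) - rmean g (κ i)) * (g (κ i) (κ j) - rmean g (κ i)) := by
        refine Finset.sum_congr rfl fun j hj => ?_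
        exact Finset.sum_eq_single_of_mem j hj fun k hk hkj => hcross j hj k hk (Ne.symm hkj)
    _ ≤ ∑ _j ∈ univ.erase i, G ^ 2 * (Fintype.card V : ℝ) ^ q := sum_le_sum fun j _ => hdiag j
    _ = ((univ.erase i).card : ℝ) * (G ^ 2 * (Fintype.card V : ℝ) ^ q) := by
        rw [Finset.sum_const, nsmul_eq_mul]
    _ ≤ (q : ℝ) * (G ^ 2 * (Fintype.card V : ℝ) ^ q) := by
        refine mul_le_mul_of_nonneg_right ?_ (by positivity)
        have := Finset.card_erase_le (s := (univ : Finset (Fin q))) (a := i)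
        rw [Finset.card_univ, Fintype.card_fin] at this
        exact_mod_cast this
    _ = q * G ^ 2 * (Fintype.card V : ℝ) ^ q := by ring

/-- Core counting lemma. -/
lemma core_count (hV : 0 < Fintype.card V) (hq : 1 ≤ q) (g : V → V → ℝ) (G : ℝ) (hG : 0 < G)
    (hg0 : ∀ u w, 0 ≤ g u w) (hgG : ∀ u w, g u w ≤ G)
    (bad : V → V → Prop) [DecidableRel bad] (β : ℝ)
    (hbad : ∀ u, ((univ.filter (fun w => bad u w)).card : ℝ) ≤ β * Fintype.card V)
    (h1 : (q : ℝ) ^ 2 / Fintype.card V ≤ 1 / 8) (h2 : (q : ℝ) ^ 2 * β ≤ 1 / 8) :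
    (Fintype.card V : ℝ) ^ q ≤ 2 * ((univ.filter (fun κ : Fin q → V =>
      Function.Injective κ ∧ (∀ i j, i ≠ j → ¬ bad (κ i) (κ j)) ∧
        ∑ i, (exc g κ i) ^ 2 ≤ 4 * (q : ℝ) ^ 2 * G ^ 2)).card : ℝ) := by
  classical
  have hV' : (0 : ℝ) < Fintype.card V := by exact_mod_cast hV
  have hq' : (0 : ℝ) < q := by exact_mod_cast hq
  have hD : 0 < 4 * (q : ℝ) ^ 2 * G ^ 2 := by positivity
  have hβ : 0 ≤ β := by
    obtain ⟨u⟩ : Nonempty V := Fintype.card_pos_iff.1 hV
    have := (Nat.cast_nonneg _).trans (hbad u)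
    exact nonneg_of_mul_nonneg_left this hV'
  -- pointwise inequality
  have hpt : ∀ κ : Fin q → V, (1 : ℝ) ≤ (if (Function.Injective κ ∧
      (∀ i j, i ≠ j → ¬ bad (κ i) (κ j)) ∧ ∑ i, (exc g κ i) ^ 2 ≤ 4 * (q : ℝ) ^ 2 * G ^ 2) then 1
        else 0) + (∑ i, ∑ j ∈ univ.erase i, (if κ i = κ j then (1 : ℝ) else 0)) +
      (∑ i, ∑ j ∈ univ.erase i, (if bad (κ i) (κ j) then (1 : ℝ) else 0)) +
      (∑ i, (exc g κ i) ^ 2) / (4 * (q : ℝ) ^ 2 * G ^ 2) := by
    intro κ
    have p1 : ∀ i j, (0 : ℝ) ≤ (if κ i = κ j then (1 : ℝ) else 0) := by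
      intro i j; split_ifs <;> norm_num
    have p2 : ∀ i j, (0 : ℝ) ≤ (if bad (κ i) (κ j) then (1 : ℝ) else 0) := by
      intro i j; split_ifs <;> norm_num
    have s1 : 0 ≤ ∑ i, ∑ j ∈ univ.erase i, (if κ i = κ j then (1 : ℝ) else 0) :=
      sum_nonneg fun i _ => sum_nonneg fun j _ => p1 i j
    have s2 : 0 ≤ ∑ i, ∑ j ∈ univ.erase i, (if bad (κ i) (κ j) then (1 : ℝ) else 0) :=
      sum_nonneg fun i _ => sum_nonneg fun j _ => p2 i j
    have s3 : 0 ≤ (∑ i, (exc g κ i) ^ 2) / (4 * (q : ℝ) ^ 2 * G ^ 2) :=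
      div_nonneg (sum_nonneg fun i _ => sq_nonneg _) hD.le
    by_cases c1 : Function.Injective κ
    · by_cases c2 : ∀ i j, i ≠ j → ¬ bad (κ i) (κ j)
      · by_cases c3 : ∑ i, (exc g κ i) ^ 2 ≤ 4 * (q : ℝ) ^ 2 * G ^ 2
        · rw [if_pos ⟨c1, c2, c3⟩]
          linarith
        · have : 1 ≤ (∑ i, (exc g κ i) ^ 2) / (4 * (q : ℝ) ^ 2 * G ^ 2) := by
            rw [le_div_iff₀ hD, one_mul]
            exact (not_le.1 c3).le
          split_ifs <;> linarith
      · push Not at c2
        obtain ⟨i, j, hij, hb⟩ := c2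
        have : (1 : ℝ) ≤ ∑ i, ∑ j ∈ univ.erase i, (if bad (κ i) (κ j) then (1 : ℝ) else 0) := by
          calc (1 : ℝ) = (if bad (κ i) (κ j) then (1 : ℝ) else 0) := by rw [if_pos hb]
            _ ≤ ∑ j ∈ univ.erase i, (if bad (κ i) (κ j) then (1 : ℝ) else 0) :=
              Finset.single_le_sum (f := fun j => (if bad (κ i) (κ j) then (1 : ℝ) else 0))
                (fun j _ => p2 i j) (mem_erase.2 ⟨hij.symm, mem_univ _⟩)
            _ ≤ _ := Finset.single_le_sum
                (f := fun i => ∑ j ∈ univ.erase i, (if bad (κ i) (κ j) then (1 : ℝ) else 0))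
                (fun i _ => sum_nonneg fun j _ => p2 i j) (mem_univ i)
        split_ifs <;> linarith
    · rw [Function.Injective] at c1
      push Not at c1
      obtain ⟨i, j, hb, hij⟩ := c1
      have : (1 : ℝ) ≤ ∑ i, ∑ j ∈ univ.erase i, (if κ i = κ j then (1 : ℝ) else 0) := by
        calc (1 : ℝ) = (if κ i = κ j then (1 : ℝ) else 0) := by rw [if_pos hb]
          _ ≤ ∑ j ∈ univ.erase i, (if κ i = κ j then (1 : ℝ) else 0) :=
            Finset.single_le_sum (f := fun j => (if κ i = κ j then (1 : ℝ) else 0))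
              (fun j _ => p1 i j) (mem_erase.2 ⟨Ne.symm hij, mem_univ _⟩)
          _ ≤ _ := Finset.single_le_sum
              (f := fun i => ∑ j ∈ univ.erase i, (if κ i = κ j then (1 : ℝ) else 0))
              (fun i _ => sum_nonneg fun j _ => p1 i j) (mem_univ i)
      split_ifs <;> linarith
  have hsum := Finset.sum_le_sum (s := (univ : Finset (Fin q → V))) fun κ _ => hpt κ
  rw [Finset.sum_const, Finset.card_univ, Fintype.card_fun, Fintype.card_fin, nsmul_eq_mul,
    mul_one, Finset.sum_add_distrib, Finset.sum_add_distrib, Finset.sum_add_distrib,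
    Finset.sum_boole, ← Finset.sum_div] at hsum
  push_cast at hsum
  have card_le : ∀ i : Fin q, ((univ.erase i).card : ℝ) ≤ q := by
    intro i
    have := Finset.card_erase_le (s := (univ : Finset (Fin q))) (a := i)
    rw [Finset.card_univ, Fintype.card_fin] at this
    exact_mod_cast this
  have t1 : ∑ κ : Fin q → V, ∑ i, ∑ j ∈ univ.erase i, (if κ i = κ j then (1 : ℝ) else 0) ≤
      (Fintype.card V : ℝ) ^ q * (1 / 8) := by
    rw [Finset.sum_comm]
    calc ∑ i : Fin q, ∑ κ : Fin q → V, ∑ j ∈ univ.erase i, (if κ i = κ j then (1 : ℝ) else 0)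
        ≤ ∑ _i : Fin q, (q : ℝ) * ((Fintype.card V : ℝ) ^ q / Fintype.card V) := by
          refine sum_le_sum fun i _ => ?_
          rw [Finset.sum_comm]
          rw [Finset.sum_congr rfl fun j hj => sum_eq_ind hV (Finset.ne_of_mem_erase hj),
            Finset.sum_const, nsmul_eq_mul]
          exact mul_le_mul_of_nonneg_right (card_le i) (by positivity)
      _ = (Fintype.card V : ℝ) ^ q * ((q : ℝ) ^ 2 / Fintype.card V) := by
          rw [Finset.sum_const, Finset.card_univ, Fintype.card_fin, nsmul_eq_mul]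
          ring
      _ ≤ _ := mul_le_mul_of_nonneg_left h1 (by positivity)
  have t2 : ∑ κ : Fin q → V, ∑ i, ∑ j ∈ univ.erase i,
      (if bad (κ i) (κ j) then (1 : ℝ) else 0) ≤ (Fintype.card V : ℝ) ^ q * (1 / 8) := by
    rw [Finset.sum_comm]
    calc ∑ i : Fin q, ∑ κ : Fin q → V, ∑ j ∈ univ.erase i,
          (if bad (κ i) (κ j) then (1 : ℝ) else 0)
        ≤ ∑ _i : Fin q, (q : ℝ) * (β * (Fintype.card V : ℝ) ^ q) := by
          refine sum_le_sum fun i _ => ?_
          rw [Finset.sum_comm]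
          calc _ ≤ ∑ _j ∈ univ.erase i, β * (Fintype.card V : ℝ) ^ q :=
                sum_le_sum fun j hj => sum_bad_ind hV bad β hbad (Finset.ne_of_mem_erase hj)
            _ = ((univ.erase i).card : ℝ) * (β * (Fintype.card V : ℝ) ^ q) := by
                rw [Finset.sum_const, nsmul_eq_mul]
            _ ≤ _ := mul_le_mul_of_nonneg_right (card_le i) (by positivity)
      _ = (Fintype.card V : ℝ) ^ q * ((q : ℝ) ^ 2 * β) := by
          rw [Finset.sum_const, Finset.card_univ, Fintype.card_fin, nsmul_eq_mul]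
          ring
      _ ≤ _ := mul_le_mul_of_nonneg_left h2 (by positivity)
  have t3 : (∑ κ : Fin q → V, ∑ i, (exc g κ i) ^ 2) / (4 * (q : ℝ) ^ 2 * G ^ 2) ≤
      (Fintype.card V : ℝ) ^ q * (1 / 4) := by
    rw [div_le_iff₀ hD, Finset.sum_comm]
    calc ∑ i : Fin q, ∑ κ : Fin q → V, (exc g κ i) ^ 2
        ≤ ∑ _i : Fin q, (q : ℝ) * G ^ 2 * (Fintype.card V : ℝ) ^ q :=
          sum_le_sum fun i _ => sum_exc_sq hV g G hg0 hgG i
      _ = _ := by
          rw [Finset.sum_const, Finset.card_univ, Fintype.card_fin, nsmul_eq_mul]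
          ring
  linarith

end core

end H70

end Pool.Agent.RandomMakerFull
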