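import Pool.Agent.Work.MP_ecc80d_co_h34.Defs

/-!
# Block D1, part b: pruning
-/

namespace Pool.Agent.RandomMakerFull

namespace H70

open Finset

lemma prs_insert {N : ℕ} {v : Fin N} {S : Finset (Fin N)} (hv : v ∉ S) :
    prs (insert v S) = prs S ∪ S.image (fun u => s(v, u)) := by
  ext e
  induction e using Sym2.ind with
  | _ x y =>
    simp only [prs, mem_filter, mem_union, mem_image, mk_mem_sym2_iff, Sym2.mk_isDiag_iff,
      mem_insert]
    constructor
    · rintro ⟨⟨hx | hx, hy | hy⟩, hne⟩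
      · exact absurd (hx.trans hy.symm) hne
      · exact Or.inr ⟨y, hy, by rw [hx]⟩
      · exact Or.inr ⟨x, hx, by rw [hy]; exact Sym2.eq_swap⟩
      · exact Or.inl ⟨⟨hx, hy⟩, hne⟩
    · rintro (⟨⟨hx, hy⟩, hne⟩ | ⟨u, hu, h⟩)
      · exact ⟨⟨Or.inr hx, Or.inr hy⟩, hne⟩
      · rcases Sym2.eq_iff.1 h with ⟨h1, h2⟩ | ⟨h1, h2⟩
        · subst h1; subst h2
          exact ⟨⟨Or.inl rfl, Or.inr hu⟩, fun h => hv (h ▸ hu)⟩
        · subst h1; subst h2
          exact ⟨⟨Or.inr hu, Or.inl rfl⟩, fun h => hv (h ▸ hu)⟩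

lemma sum_prs_insert {N : ℕ} (f : Sym2 (Fin N) → ℝ) {v : Fin N} {S : Finset (Fin N)}
    (hv : v ∉ S) :
    ∑ e ∈ prs (insert v S), f e = ∑ e ∈ prs S, f e + ∑ u ∈ S, f s(v, u) := by
  rw [prs_insert hv, Finset.sum_union, Finset.sum_image]
  · intro u _ u' _ h
    exact Sym2.congr_right.1 h
  · rw [Finset.disjoint_left]
    intro e he he'
    obtain ⟨u, _, rfl⟩ := mem_image.1 he'
    have := (mem_filter.1 he).1
    rw [mk_mem_sym2_iff] at this
    exact hv this.1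

lemma sum_ordered {N : ℕ} (f : Sym2 (Fin N) → ℝ) (S : Finset (Fin N)) :
    ∑ u ∈ S, ∑ w ∈ S.erase u, f s(u, w) = 2 * ∑ e ∈ prs S, f e := by
  induction S using Finset.induction_on with
  | empty => simp [prs]
  | insert v S hv ih =>
    rw [Finset.sum_insert hv, sum_prs_insert f hv, Finset.erase_insert hv, mul_add, ← ih]
    have h1 : ∑ u ∈ S, ∑ w ∈ (insert v S).erase u, f s(u, w) =
        ∑ u ∈ S, (f s(v, u) + ∑ w ∈ S.erase u, f s(u, w)) := by
      refine Finset.sum_congr rfl fun u hu => ?_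
      have huv : v ≠ u := fun h => hv (h ▸ hu)
      rw [Finset.erase_insert_of_ne huv, Finset.sum_insert (by simp [hv]), Sym2.eq_swap]
    rw [h1, Finset.sum_add_distrib]
    ring

/-- Pruning: a large subset in which all weighted degrees are small. -/
lemma prune {N : ℕ} (A : Finset (Fin N)) (h : Sym2 (Fin N) → ℝ) (δ : ℝ) (hδ : 0 < δ)
    (hh : ∀ e, 0 ≤ h e)
    (hA : ∑ e ∈ prs A, h e ≤ (1 + δ) * (A.card.choose 2 : ℝ)) :
    ∃ A' ⊆ A, δ / (1 + 2 * δ) * (A.card : ℝ) ^ 2 ≤ (A'.card : ℝ) ^ 2 ∧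
      ∀ v ∈ A', ∑ u ∈ A'.erase v, h s(v, u) ≤ (1 + 2 * δ) * A'.card := by
  obtain ⟨A', hA', hmin⟩ := Finset.exists_min_image A.powerset
    (fun B => 2 * ∑ e ∈ prs B, h e - (1 + 2 * δ) * (B.card : ℝ) ^ 2) ⟨A, mem_powerset_self A⟩
  rw [mem_powerset] at hA'
  refine ⟨A', hA', ?_, ?_⟩
  · have h1 := hmin A (mem_powerset_self A)
    have h2 : 0 ≤ ∑ e ∈ prs A', h e := sum_nonneg fun e _ => hh e
    have h3 : (A.card.choose 2 : ℝ) ≤ (A.card : ℝ) ^ 2 / 2 := by
      rw [Nat.cast_choose_two]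
      have : (0 : ℝ) ≤ A.card := Nat.cast_nonneg _
      nlinarith
    rw [div_mul_eq_mul_div, div_le_iff₀ (by positivity)]
    nlinarith
  · intro v hv
    have h1 := hmin (A'.erase v) (mem_powerset.2 ((Finset.erase_subset _ _).trans hA'))
    have h2 := sum_prs_insert h (Finset.notMem_erase v A')
    rw [Finset.insert_erase hv] at h2
    have h3 : ((A'.erase v).card : ℝ) = A'.card - 1 := by
      rw [Finset.card_erase_of_mem hv, Nat.cast_sub (Finset.card_pos.2 ⟨v, hv⟩)]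
      simp
    rw [h3, h2] at h1
    nlinarith

end H70

end Pool.Agent.RandomMakerFull
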