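import Pool.Agent.Work.MP_ecc80d_co_h34.Defs

/-!
# Interface of the two halves of block D
-/

namespace Pool.Agent.RandomMakerFull

open Finset

/-- D1. Pruning and existence of the good family. -/
def Stmt_D1 : Prop := ∀ ε : ℝ, 0 < ε → ε ≤ 1 → ∃ N0 : ℕ, ∀ N : ℕ, N0 ≤ N →
  ∀ (A : Finset (Fin N)) (b : Sym2 (Fin N) → ℝ) (q : ℕ),
  (N : ℝ) ^ (1 - ε / 8) / 2 ≤ A.card → 2 ≤ q → (q : ℝ) ≤ (2 - ε) * Real.log N →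
  (∀ e, 0 ≤ b e ∧ b e ≤ 1) →
  ∑ e ∈ prs A, (gfun (Real.log N ^ 4)⁻¹ (b e) +
      (if b e < (Real.log N ^ 4)⁻¹ then Real.log N ^ 3 else 0)) ≤
    (1 + ε / 24) * (A.card.choose 2 : ℝ) →
  ∃ A' ⊆ A, ε / 30 * A.card ≤ A'.card ∧ ∃ K : Finset (Fin q → Fin N),
    (∀ κ ∈ K, Function.Injective κ ∧ ∀ i, κ i ∈ A') ∧ (A'.card : ℝ) ^ q ≤ 2 * K.card ∧
    (∀ κ ∈ K, ∀ e ∈ prs (univ.image κ), (Real.log N ^ 4)⁻¹ ≤ b e) ∧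
    ∀ κ ∈ K, ∀ J ⊆ univ.image κ,
      ∏ e ∈ prs J, (b e)⁻¹ ≤ Real.exp (J.card * ((1 - ε / 3) * Real.log N))

/-- D2. Second moment count for a good family. -/
def Stmt_D2 : Prop := ∀ ε : ℝ, 0 < ε → ε ≤ 1 → ∃ C N0 : ℕ, ∀ N : ℕ, N0 ≤ N →
  ∀ (A A' : Finset (Fin N)) (b : Sym2 (Fin N) → ℝ) (q : ℕ) (K : Finset (Fin q → Fin N)),
  (N : ℝ) ^ (1 - ε / 8) / 2 ≤ A.card → A' ⊆ A → ε / 30 * A.card ≤ A'.card →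
  2 ≤ q → (q : ℝ) ≤ (2 - ε) * Real.log N →
  (∀ κ ∈ K, Function.Injective κ ∧ ∀ i, κ i ∈ A') → (A'.card : ℝ) ^ q ≤ 2 * K.card →
  (∀ κ ∈ K, ∀ e ∈ prs (univ.image κ), (Real.log N ^ 4)⁻¹ ≤ b e) → (∀ e, b e ≤ 1) →
  (∀ κ ∈ K, ∀ J ⊆ univ.image κ,
      ∏ e ∈ prs J, (b e)⁻¹ ≤ Real.exp (J.card * ((1 - ε / 3) * Real.log N))) →
  (∑ κ ∈ K, ∑ κ' ∈ K, ((prs (univ.image κ) ∩ prs (univ.image κ')).card : ℝ) *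
      ∏ e ∈ prs (univ.image κ) ∩ prs (univ.image κ'), (b e)⁻¹) * (A.card : ℝ) ^ 2 ≤
      Real.log N ^ C * (K.card : ℝ) ^ 2

end Pool.Agent.RandomMakerFull
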