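import Pool.Agent.Work.MP_ecc80d_co_h34.D1a
import Pool.Agent.Work.MP_ecc80d_co_h34.D1b
import Pool.Agent.Work.MP_ecc80d_co_h34.C2
import Pool.Agent.Work.MP_ecc80d_co_h34.InterfaceD

/-!
# Block D1, part c: assembly
-/

namespace Pool.Agent.RandomMakerFull

namespace H70

open Finset Filter

/-- The numerical conditions used in D1. -/
lemma D1_numerics (ε : ℝ) (hε : 0 < ε) (hε1 : ε ≤ 1) : ∃ N0 : ℕ, ∀ N : ℕ, N0 ≤ N →
    64 ≤ Real.log N ∧ 32 * Real.log N ^ 2 ≤ ε / 60 * (N : ℝ) ^ (1 - ε / 8) ∧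
      2 * (1 + 4 * Real.log (Real.log N)) ^ 3 / (ε / 24) ^ 2 ≤ ε / 24 * Real.log N := by
  have hL : Tendsto (fun N : ℕ => Real.log N) atTop atTop :=
    Real.tendsto_log_atTop.comp tendsto_natCast_atTop_atTop
  have e1 : ∀ᶠ N : ℕ in atTop, 64 ≤ Real.log N := hL.eventually_ge_atTop 64
  have e2 : ∀ᶠ N : ℕ in atTop, 32 * Real.log N ^ 2 ≤ ε / 60 * (N : ℝ) ^ (1 - ε / 8) := by
    have h1 : (fun x : ℝ => Real.log x ^ 2) =o[atTop] fun x : ℝ => x ^ (1 - ε / 8) := by
      have := isLittleO_log_rpow_rpow_atTop (r := (2 : ℝ)) (s := 1 - ε / 8) (by linarith)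
      refine this.congr' ?_ EventuallyEq.rfl
      filter_upwards [eventually_ge_atTop (1 : ℝ)] with x hx
      rw [← Real.rpow_natCast]
      norm_num
    have h2 := (h1.comp_tendsto tendsto_natCast_atTop_atTop).bound
      (show (0 : ℝ) < ε / 60 / 32 by positivity)
    filter_upwards [h2] with N hN
    simp only [Function.comp] at hN
    rw [Real.norm_of_nonneg (by positivity), Real.norm_of_nonneg (by positivity)] at hN
    linarith
  have e3 : ∀ᶠ N : ℕ in atTop,
      2 * (1 + 4 * Real.log (Real.log N)) ^ 3 / (ε / 24) ^ 2 ≤ ε / 24 * Real.log N := by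
    have h1 : (fun x : ℝ => Real.log x ^ 3) =o[atTop] fun x : ℝ => x := by
      have := isLittleO_log_rpow_rpow_atTop (r := (3 : ℝ)) (s := 1) one_pos
      refine this.congr' ?_ ?_
      · filter_upwards [eventually_ge_atTop (1 : ℝ)] with x hx
        rw [← Real.rpow_natCast]
        norm_num
      · filter_upwards with x
        exact Real.rpow_one x
    have hc : (0 : ℝ) < ε / 24 * (ε / 24) ^ 2 / 2 / 125 := by positivity
    have h2 := (h1.comp_tendsto hL).bound hc
    have h3 : ∀ᶠ N : ℕ in atTop, Real.exp 1 ≤ Real.log N := hL.eventually_ge_atTop _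
    filter_upwards [h2, h3] with N hN hN3
    simp only [Function.comp] at hN
    have hlog : 1 ≤ Real.log (Real.log N) := by
      rw [Real.le_log_iff_exp_le ((Real.exp_pos 1).trans_le hN3)]
      exact hN3
    have hLp : 0 < Real.log N := (Real.exp_pos 1).trans_le hN3
    rw [Real.norm_of_nonneg (by positivity), Real.norm_of_nonneg hLp.le] at hN
    have h4 : (1 + 4 * Real.log (Real.log N)) ^ 3 ≤ (5 * Real.log (Real.log N)) ^ 3 :=
      pow_le_pow_left₀ (by linarith) (by linarith) 3
    rw [div_le_iff₀ (by positivity)]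
    calc 2 * (1 + 4 * Real.log (Real.log N)) ^ 3 ≤ 2 * (5 * Real.log (Real.log N)) ^ 3 := by
          linarith
      _ = 250 * Real.log (Real.log N) ^ 3 := by ring
      _ ≤ 250 * (ε / 24 * (ε / 24) ^ 2 / 2 / 125 * Real.log N) := by linarith
      _ = _ := by ring
  obtain ⟨N0, hN0⟩ := eventually_atTop.1 (e1.and (e2.and e3))
  exact ⟨N0, fun N hN => hN0 N hN⟩

lemma aux_cancel (q G δ : ℝ) (hq : q ≠ 0) (hδ : δ ≠ 0) :
    (4 * q ^ 2 * G ^ 2) / (δ * q) ^ 2 = 4 * G ^ 2 / δ ^ 2 := by
  field_simp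

/-- The weight function on the subtype. -/
noncomputable def gV {N : ℕ} (η : ℝ) (b : Sym2 (Fin N) → ℝ) (A' : Finset (Fin N))
    (u w : A') : ℝ := if u = w then 0 else gfun η (b s((u : Fin N), (w : Fin N)))

/-- Row sum bound: `Σ_{j ∈ T \ i} g ≤ (1+3δ) q + G |T| exc² / (δ q)²`. -/
lemma row_bound {V : Type*} [Fintype V] {q : ℕ} (hq : 1 ≤ q) (g : V → V → ℝ)
    (G δ : ℝ) (hG : 0 < G) (hδ : 0 < δ) (hg0 : ∀ u w, 0 ≤ g u w) (hgG : ∀ u w, g u w ≤ G)
    (hmean : ∀ u, rmean g u ≤ 1 + 2 * δ) (κ : Fin q → V) (T : Finset (Fin q)) (i : Fin q) :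
    ∑ j ∈ T.erase i, g (κ i) (κ j) ≤
      (1 + 3 * δ) * q + G * T.card * ((exc g κ i) ^ 2 / (δ * q) ^ 2) := by
  have hq' : (0 : ℝ) < q := by exact_mod_cast hq
  have hδq : 0 < δ * q := by positivity
  by_cases h : exc g κ i ≤ δ * q
  · have h1 : ∑ j ∈ T.erase i, g (κ i) (κ j) ≤ ∑ j ∈ univ.erase i, g (κ i) (κ j) :=
      Finset.sum_le_sum_of_subset_of_nonneg (Finset.erase_subset_erase _ (subset_univ _))
        fun j _ _ => hg0 _ _
    have h2 : ∑ j ∈ univ.erase i, g (κ i) (κ j) =
        exc g κ i + ((univ.erase i).card : ℝ) * rmean g (κ i) := by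
      unfold exc
      rw [Finset.sum_sub_distrib, Finset.sum_const, nsmul_eq_mul]
      ring
    have h3 : ((univ.erase i).card : ℝ) ≤ q := by
      have := Finset.card_erase_le (s := (univ : Finset (Fin q))) (a := i)
      rw [Finset.card_univ, Fintype.card_fin] at this
      exact_mod_cast this
    have h4 : ((univ.erase i).card : ℝ) * rmean g (κ i) ≤ q * (1 + 2 * δ) := by
      calc ((univ.erase i).card : ℝ) * rmean g (κ i)
          ≤ ((univ.erase i).card : ℝ) * (1 + 2 * δ) :=
            mul_le_mul_of_nonneg_left (hmean _) (Nat.cast_nonneg _)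
        _ ≤ q * (1 + 2 * δ) := mul_le_mul_of_nonneg_right h3 (by positivity)
    have h5 : 0 ≤ G * T.card * ((exc g κ i) ^ 2 / (δ * q) ^ 2) := by positivity
    nlinarith
  · have h1 : 1 ≤ (exc g κ i) ^ 2 / (δ * q) ^ 2 := by
      rw [le_div_iff₀ (by positivity), one_mul]
      exact pow_le_pow_left₀ hδq.le (not_le.1 h).le 2
    have h2 : ∑ j ∈ T.erase i, g (κ i) (κ j) ≤ G * T.card := by
      calc ∑ j ∈ T.erase i, g (κ i) (κ j) ≤ ∑ _j ∈ T.erase i, G := sum_le_sum fun j _ => hgG _ _
        _ = ((T.erase i).card : ℝ) * G := by rw [Finset.sum_const, nsmul_eq_mul]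
        _ ≤ T.card * G := by
            refine mul_le_mul_of_nonneg_right ?_ hG.le
            exact_mod_cast Finset.card_erase_le
        _ = _ := by ring
    have h3 : G * T.card * 1 ≤ G * T.card * ((exc g κ i) ^ 2 / (δ * q) ^ 2) :=
      mul_le_mul_of_nonneg_left h1 (by positivity)
    have h4 : 0 ≤ (1 + 3 * δ) * q := by positivity
    linarith

end H70

open H70 Finset Filter

theorem block_D1 : Stmt_D1 := by
  intro ε hε hε1
  obtain ⟨N0, hN0⟩ := D1_numerics ε hε hε1
  refine ⟨N0, ?_⟩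
  intro N hN A b q hA hq2 hq hb hsum
  obtain ⟨n1, n2, n3⟩ := hN0 N hN
  set L := Real.log N with hLdef
  have hL0 : 0 < L := by linarith
  set η : ℝ := (L ^ 4)⁻¹ with hηdef
  have hη : 0 < η := by positivity
  have hη1 : η ≤ 1 := inv_le_one_of_one_le₀ (one_le_pow₀ (by linarith))
  obtain ⟨c1, c2, c3, -, -⟩ := block_C2 η hη hη1
  set δ : ℝ := ε / 24 with hδdef
  have hδ : 0 < δ := by positivity
  have hδ1 : δ ≤ 1 / 24 := by rw [hδdef]; linarith
  set h : Sym2 (Fin N) → ℝ := fun e => gfun η (b e) + (if b e < η then L ^ 3 else 0) with hh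
  have hg0 : ∀ e, 0 ≤ gfun η (b e) := fun e => c1 _ (hb e).1 (hb e).2
  have hh0 : ∀ e, 0 ≤ h e := by
    intro e
    have := hg0 e
    simp only [hh]
    split_ifs <;> positivity
  obtain ⟨A', hA', hA'c, hdeg⟩ := prune A h δ hδ hh0 hsum
  -- size of `A'`
  have hA'30 : ε / 30 * A.card ≤ A'.card := by
    have h1 : (ε / 30 * A.card) ^ 2 ≤ (A'.card : ℝ) ^ 2 := by
      refine le_trans ?_ hA'c
      rw [mul_pow]
      refine mul_le_mul_of_nonneg_right ?_ (sq_nonneg _)
      rw [le_div_iff₀ (by positivity)]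
      rw [hδdef]
      nlinarith
    exact le_of_sq_le_sq h1 (Nat.cast_nonneg _) 
  refine ⟨A', hA', hA'30, ?_⟩
  have hq0 : (0 : ℝ) < q := by
    have : (2 : ℝ) ≤ q := by exact_mod_cast hq2
    linarith
  have hqL : (q : ℝ) ≤ 2 * L := by nlinarith
  have hq2L : (q : ℝ) ^ 2 ≤ 4 * L ^ 2 := by nlinarith
  have hA'L : 32 * L ^ 2 ≤ A'.card := by
    calc 32 * L ^ 2 ≤ ε / 60 * (N : ℝ) ^ (1 - ε / 8) := n2
      _ = ε / 30 * ((N : ℝ) ^ (1 - ε / 8) / 2) := by ring
      _ ≤ ε / 30 * A.card := mul_le_mul_of_nonneg_left hA (by positivity)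
      _ ≤ A'.card := hA'30
  have hA'pos : (0 : ℝ) < A'.card := by
    have : 0 < 32 * L ^ 2 := by positivity
    linarith
  have hA'ne : A'.Nonempty := Finset.card_pos.1 (by exact_mod_cast hA'pos)
  -- the weights on the subtype
  set G : ℝ := 1 + 4 * Real.log L with hGdef
  have hG1 : 1 ≤ G := by
    have : 0 ≤ Real.log L := Real.log_nonneg (by linarith)
    linarith
  have hlogη : 1 + Real.log (1 / η) = G := by
    rw [hηdef, one_div, inv_inv, Real.log_pow, hGdef]
    norm_num
  have hcard : Fintype.card A' = A'.card := Fintype.card_coe A'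
  have hV : 0 < Fintype.card A' := by rw [hcard]; exact Finset.card_pos.2 hA'ne
  have hgV0 : ∀ u w, 0 ≤ gV η b A' u w := by
    intro u w
    unfold gV
    split_ifs
    · exact le_rfl
    · exact hg0 _
  have hgVG : ∀ u w, gV η b A' u w ≤ G := by
    intro u w
    unfold gV
    split_ifs
    · linarith
    · rw [← hlogη]; exact c2 _ (hb _).1 (hb _).2
  -- sums over the subtype
  have hsub : ∀ (u : A') (F : Fin N → ℝ), ∑ w : A', (if u = w then 0 else F w) =
      ∑ w ∈ A'.erase u, F w := by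
    intro u F
    have h1 : ∑ w : A', (if u = w then 0 else F w) =
        ∑ w ∈ A', (if (u : Fin N) = w then 0 else F w) := by
      rw [← Finset.sum_coe_sort A' (fun w => (if (u : Fin N) = w then 0 else F w))]
      refine Finset.sum_congr rfl fun w _ => ?_
      simp only [Subtype.ext_iff]
    rw [h1, ← Finset.add_sum_erase A' _ u.2]
    simp only [if_true, zero_add]
    refine Finset.sum_congr rfl fun w hw => ?_
    rw [if_neg (Ne.symm (Finset.ne_of_mem_erase hw))]
  have hrow : ∀ u : A', ∑ w, gV η b A' u w ≤ (1 + 2 * δ) * A'.card := by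
    intro u
    have h1 : ∑ w, gV η b A' u w = ∑ w ∈ A'.erase u, gfun η (b s((u : Fin N), w)) :=
      hsub u (fun w => gfun η (b s((u : Fin N), w)))
    rw [h1]
    refine le_trans (sum_le_sum fun w _ => ?_) (hdeg u u.2)
    simp only [hh]
    split_ifs <;> [skip; simp]
    have : 0 < L ^ 3 := by positivity
    linarith
  have hmean : ∀ u : A', rmean (gV η b A') u ≤ 1 + 2 * δ := by
    intro u
    unfold rmean
    rw [hcard, div_le_iff₀ hA'pos]
    exact hrow u
  classical
  set bad : A' → A' → Prop := fun u w => u ≠ w ∧ b s((u : Fin N), (w : Fin N)) < η with hbaddef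
  have hbad : ∀ u : A', ((univ.filter (fun w => bad u w)).card : ℝ) ≤
      (2 / L ^ 3) * Fintype.card A' := by
    intro u
    have h1 : ((univ.filter (fun w => bad u w)).card : ℝ) * L ^ 3 ≤ (1 + 2 * δ) * A'.card := by
      calc ((univ.filter (fun w => bad u w)).card : ℝ) * L ^ 3
          = ∑ w : A', (if bad u w then L ^ 3 else 0) := by
            rw [← Finset.sum_filter, Finset.sum_const, nsmul_eq_mul]
        _ = ∑ w : A', (if u = w then 0 else
              (if b s((u : Fin N), (w : Fin N)) < η then L ^ 3 else 0)) := by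
            refine Finset.sum_congr rfl fun w _ => ?_
            simp only [hbaddef]
            by_cases huw : u = w
            · simp [huw]
            · simp [huw]
        _ = ∑ w ∈ A'.erase u, (if b s((u : Fin N), w) < η then L ^ 3 else 0) :=
            hsub u (fun w => (if b s((u : Fin N), w) < η then L ^ 3 else 0))
        _ ≤ ∑ w ∈ A'.erase u, h s((u : Fin N), w) := by
            refine sum_le_sum fun w _ => ?_
            simp only [hh]
            have := hg0 s((u : Fin N), w)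
            linarith
        _ ≤ _ := hdeg u u.2
    rw [hcard, div_mul_eq_mul_div, le_div_iff₀ (by positivity)]
    refine h1.trans ?_
    exact mul_le_mul_of_nonneg_right (by linarith) hA'pos.le
  have hcount := core_count (q := q) hV (by omega) (gV η b A') G (by linarith) hgV0 hgVG bad
    (2 / L ^ 3) hbad ?_ ?_
  rotate_left
  · rw [hcard, div_le_iff₀ hA'pos]
    linarith
  · calc (q : ℝ) ^ 2 * (2 / L ^ 3) ≤ 4 * L ^ 2 * (2 / L ^ 3) :=
          mul_le_mul_of_nonneg_right hq2L (by positivity)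
      _ = 8 / L := by field_simp; ring
      _ ≤ 1 / 8 := by rw [div_le_iff₀ hL0]; linarith
  set Good : Finset (Fin q → A') := univ.filter (fun κ : Fin q → A' =>
      Function.Injective κ ∧ (∀ i j, i ≠ j → ¬ bad (κ i) (κ j)) ∧
        ∑ i, (exc (gV η b A') κ i) ^ 2 ≤ 4 * (q : ℝ) ^ 2 * G ^ 2) with hGood
  have hemb : Function.Injective (fun (κ : Fin q → A') (i : Fin q) => (κ i : Fin N)) := by
    intro κ κ' hκ
    funext i
    exact Subtype.ext (congrFun hκ i)
  refine ⟨Good.image (fun (κ : Fin q → A') (i : Fin q) => (κ i : Fin N)), ?_, ?_, ?_, ?_⟩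
  · intro κ hκ
    obtain ⟨κ0, hκ0, rfl⟩ := mem_image.1 hκ
    rw [hGood, mem_filter] at hκ0
    exact ⟨fun i j hij => hκ0.2.1 (Subtype.ext hij), fun i => (κ0 i).2⟩
  · rw [Finset.card_image_of_injective _ hemb]
    rw [hcard] at hcount
    exact hcount
  · intro κ hκ e he
    obtain ⟨κ0, hκ0, rfl⟩ := mem_image.1 hκ
    rw [hGood, mem_filter] at hκ0
    induction e using Sym2.ind with
    | _ x y =>
      rw [prs, mem_filter, mk_mem_sym2_iff, Sym2.mk_isDiag_iff] at he
      obtain ⟨⟨hx, hy⟩, hxy⟩ := he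
      obtain ⟨i, -, hi⟩ := mem_image.1 hx
      obtain ⟨j, -, hj⟩ := mem_image.1 hy
      subst hi; subst hj
      have hij : i ≠ j := fun h => hxy (by rw [h])
      have h1 := hκ0.2.2.1 i j hij
      simp only [hbaddef, not_and, not_lt] at h1
      exact h1 fun h => hxy (by rw [h])
  · intro κ hκ J hJ
    obtain ⟨κ0, hκ0, rfl⟩ := mem_image.1 hκ
    rw [hGood, mem_filter] at hκ0
    obtain ⟨-, hinj, hnb, hexc⟩ := hκ0
    set κ : Fin q → Fin N := fun i => (κ0 i : Fin N) with hκdef
    have hκinj : Function.Injective κ := fun i j hij => hinj (Subtype.ext hij)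
    set T : Finset (Fin q) := univ.filter (fun i => κ i ∈ J) with hT
    have hJT : J = T.image κ := by
      ext x
      rw [mem_image]
      constructor
      · intro hx
        obtain ⟨i, -, hi⟩ := mem_image.1 (hJ hx)
        exact ⟨i, by rw [hT, mem_filter]; exact ⟨mem_univ _, hi ▸ hx⟩, hi⟩
      · rintro ⟨i, hi, rfl⟩
        rw [hT, mem_filter] at hi
        exact hi.2
    have hJc : J.card = T.card := by rw [hJT, Finset.card_image_of_injective _ hκinj]
    have hbη : ∀ e ∈ prs J, η ≤ b e := by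
      intro e he
      induction e using Sym2.ind with
      | _ x y =>
        rw [prs, mem_filter, mk_mem_sym2_iff, Sym2.mk_isDiag_iff] at he
        obtain ⟨⟨hx, hy⟩, hxy⟩ := he
        obtain ⟨i, -, hi⟩ := mem_image.1 (hJ hx)
        obtain ⟨j, -, hj⟩ := mem_image.1 (hJ hy)
        subst hi; subst hj
        have hij : i ≠ j := fun h => hxy (by rw [h])
        have h1 := hnb i j hij
        simp only [hbaddef, not_and, not_lt] at h1
        exact h1 fun h => hxy (congrArg Subtype.val h)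
    have hprod : ∏ e ∈ prs J, (b e)⁻¹ ≤ Real.exp (∑ e ∈ prs J, gfun η (b e)) := by
      rw [Real.exp_sum]
      refine Finset.prod_le_prod (fun e _ => inv_nonneg.2 (hb e).1) fun e he => ?_
      have hbe : 0 < b e := hη.trans_le (hbη e he)
      have h1 := c3 (b e) (hbη e he) (hb e).2
      calc (b e)⁻¹ = Real.exp (-Real.log (b e)) := by
            rw [Real.exp_neg, Real.exp_log hbe]
        _ ≤ _ := Real.exp_le_exp.2 h1
    refine hprod.trans (Real.exp_le_exp.2 ?_)
    -- the sum of `g` over the pairs of `J`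
    have h2 : 2 * ∑ e ∈ prs J, gfun η (b e) =
        ∑ i ∈ T, ∑ j ∈ T.erase i, gV η b A' (κ0 i) (κ0 j) := by
      rw [← sum_ordered (fun e => gfun η (b e)) J, hJT, Finset.sum_image
        (fun i _ j _ hij => hκinj hij)]
      refine Finset.sum_congr rfl fun i _ => ?_
      rw [← Finset.image_erase hκinj, Finset.sum_image (fun i _ j _ hij => hκinj hij)]
      refine Finset.sum_congr rfl fun j hj => ?_
      unfold gV
      rw [if_neg (fun h => (Finset.ne_of_mem_erase hj) (hinj h).symm)]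
    have h3 : ∑ i ∈ T, ∑ j ∈ T.erase i, gV η b A' (κ0 i) (κ0 j) ≤
        T.card * ((1 + 3 * δ) * q + 4 * G ^ 3 / δ ^ 2) := by
      calc ∑ i ∈ T, ∑ j ∈ T.erase i, gV η b A' (κ0 i) (κ0 j)
          ≤ ∑ i ∈ T, ((1 + 3 * δ) * q + G * T.card *
              ((exc (gV η b A') κ0 i) ^ 2 / (δ * q) ^ 2)) :=
            sum_le_sum fun i _ => row_bound (by omega) (gV η b A') G δ (by linarith) hδ hgV0 hgVG
              hmean κ0 T i
        _ = T.card * ((1 + 3 * δ) * q) + G * T.card *
              ((∑ i ∈ T, (exc (gV η b A') κ0 i) ^ 2) / (δ * q) ^ 2) := by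
            rw [Finset.sum_add_distrib, Finset.sum_const, nsmul_eq_mul, ← Finset.mul_sum,
              ← Finset.sum_div]
        _ ≤ T.card * ((1 + 3 * δ) * q) + G * T.card *
              ((4 * (q : ℝ) ^ 2 * G ^ 2) / (δ * q) ^ 2) := by
            have h4 : ∑ i ∈ T, (exc (gV η b A') κ0 i) ^ 2 ≤ 4 * (q : ℝ) ^ 2 * G ^ 2 :=
              (Finset.sum_le_sum_of_subset_of_nonneg (subset_univ _)
                fun i _ _ => sq_nonneg _).trans hexc
            have h5 : (∑ i ∈ T, (exc (gV η b A') κ0 i) ^ 2) / (δ * q) ^ 2 ≤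
                (4 * (q : ℝ) ^ 2 * G ^ 2) / (δ * q) ^ 2 :=
              div_le_div_of_nonneg_right h4 (by positivity)
            have h6 := mul_le_mul_of_nonneg_left h5
              (show 0 ≤ G * T.card from mul_nonneg (by linarith) (Nat.cast_nonneg _))
            linarith
        _ = _ := by
            rw [aux_cancel q G δ hq0.ne' hδ.ne']
            ring
    have h7 : (1 + 3 * δ) * q + 4 * G ^ 3 / δ ^ 2 ≤ 2 * ((1 - ε / 3) * L) := by
      have h8 : (1 + 3 * δ) * q ≤ (1 + 3 * δ) * ((2 - ε) * L) :=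
        mul_le_mul_of_nonneg_left hq (by positivity)
      have h9 : 4 * G ^ 3 / δ ^ 2 ≤ 2 * (δ * L) := by
        have : 4 * G ^ 3 / δ ^ 2 = 2 * (2 * G ^ 3 / δ ^ 2) := by ring
        rw [this]
        linarith
      have h10 : (1 + 3 * δ) * ((2 - ε) * L) + 2 * (δ * L) ≤ 2 * ((1 - ε / 3) * L) := by
        rw [hδdef]
        have : 0 ≤ ε ^ 2 * L := by positivity
        nlinarith
      linarith
    have h11 : (T.card : ℝ) * ((1 + 3 * δ) * q + 4 * G ^ 3 / δ ^ 2) ≤
        T.card * (2 * ((1 - ε / 3) * L)) := mul_le_mul_of_nonneg_left h7 (Nat.cast_nonneg _)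
    rw [hJc]
    linarith

end Pool.Agent.RandomMakerFull
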