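import Mathlib

/-!
# Adaptive Breaker against the random Maker: definitions for the sharp lower bound

Shared definitions (finite conditional expectations, the randomly relabelled graph, the
resampling operator, Hamming distance to clique-free graphs).
-/

namespace Pool.Agent.RandomMakerFull

open Finset

/-- Conditional expectation of `f` given the map `p` on a finite space with weights `w`. -/
noncomputable def cE {Ω β : Type*} [Fintype Ω] [DecidableEq β] (w : Ω → ℝ) (p : Ω → β)
    (f : Ω → ℝ) (ω : Ω) : ℝ :=
  (∑ ω' with p ω' = p ω, w ω' * f ω') / (∑ ω' with p ω' = p ω, w ω')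

/-- The space of pairs (labelling of the positions by vertices, graph). -/
abbrev Sp (N : ℕ) := Equiv.Perm (Fin N) × Finset (Sym2 (Fin N))

/-- Uniform random labelling times the law `w` of the graph. -/
noncomputable def Wt {N : ℕ} (w : Finset (Sym2 (Fin N)) → ℝ) (ω : Sp N) : ℝ :=
  w ω.2 / (N.factorial : ℝ)

/-- The graph in terms of positions. -/
def pos {N : ℕ} (ω : Sp N) : Finset (Sym2 (Fin N)) := univ.filter (fun e => e.map ω.1 ∈ ω.2)

/-- Indicator of the position pair `e`. -/
noncomputable def X {N : ℕ} (e : Sym2 (Fin N)) (ω : Sp N) : ℝ := if e ∈ pos ω then 1 else 0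

/-- What is observed when the pairs in `Q` are revealed (the labelling is always known). -/
def obs {N : ℕ} (Q : Finset (Sym2 (Fin N))) (ω : Sp N) :
    Equiv.Perm (Fin N) × Finset (Sym2 (Fin N)) := (ω.1, pos ω ∩ Q)

/-- All pairs inside `S ∪ e` except `e`. -/
def around {N : ℕ} (S : Finset (Fin N)) (e : Sym2 (Fin N)) : Finset (Sym2 (Fin N)) :=
  ((S ∪ e.toFinset).sym2).erase e

/-- Conditional probability of the pair `e` given all other pairs inside `S ∪ e`. -/
noncomputable def aS {N : ℕ} (w : Finset (Sym2 (Fin N)) → ℝ) (S : Finset (Fin N))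
    (e : Sym2 (Fin N)) : Sp N → ℝ := cE (Wt w) (obs (around S e)) (X e)

/-- The proper pairs inside `T`. -/
def prs {N : ℕ} (T : Finset (Fin N)) : Finset (Sym2 (Fin N)) := T.sym2.filter (fun e => ¬ e.IsDiag)

/-- The convex function replacing `-log`. -/
noncomputable def gfun (η x : ℝ) : ℝ := (1 - x) + ∫ t in η..1, max (t - x) 0 / t ^ 2

/-- Resampling operator: the coordinates in the list are replaced by independent Bernoulli
variables with parameters `b`. -/
noncomputable def Rs {I : Type*} [DecidableEq I] (b : I → ℝ) :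
    List I → (Finset I → ℝ) → Finset I → ℝ
  | [], f, x => f x
  | i :: l, f, x => b i * Rs b l f (insert i x) + (1 - b i) * Rs b l f (x.erase i)

open Classical in
/-- Number of elements which have to be removed from `y` to reach a set with `Free`. -/
noncomputable def dst {I : Type*} [DecidableEq I] (Free : Finset I → Prop) (y : Finset I) : ℝ :=
  ((sInf {k : ℕ | ∃ z ⊆ y, Free z ∧ (y \ z).card = k} : ℕ) : ℝ)

/-- `y` contains no complete graph on `q` vertices. -/
def NoClique {N : ℕ} (q : ℕ) (y : Finset (Sym2 (Fin N))) : Prop :=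
  ∀ T : Finset (Fin N), T.card = q → ¬ prs T ⊆ y

/-- The exponential moment bound satisfied by Maker's final graph against every Breaker. -/
def GameBound {N : ℕ} (w : Finset (Sym2 (Fin N)) → ℝ) : Prop :=
  ∀ L ⊆ prs (univ : Finset (Fin N)), ∀ t : ℝ, 0 ≤ t → t ≤ 1 →
    ∑ M, w M * Real.exp (-(t * ((M ∩ L).card : ℝ))) ≤
      Real.exp (-(t * (L.card : ℝ) ^ 2 / (2 * (N.choose 2 : ℝ))) + t ^ 2 * (N.choose 2 : ℝ))

end Pool.Agent.RandomMakerFull
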