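import Pool.Agent.Work.MP_ecc80d_co_h34.CondExp
import Pool.Agent.Work.MP_ecc80d_co_h34.Interface

/-!
# The hybrid inequality
-/

namespace Pool.Agent.RandomMakerFull

open Finset

theorem block_B1 : Stmt_B1 := fun w hw p f g => cE_tower w hw p f g

theorem block_B2 : Stmt_B2 := fun w hw p p' h f => cE_energy w hw p p' h f

section Rs

variable {I : Type*} [DecidableEq I]

lemma Rs_add (b : I → ℝ) : ∀ (l : List I) (f g : Finset I → ℝ) (x : Finset I),
    Rs b l (fun y => f y + g y) x = Rs b l f x + Rs b l g x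
  | [], f, g, x => rfl
  | i :: l, f, g, x => by simp only [Rs, Rs_add b l f g]; ring

lemma Rs_mul (b : I → ℝ) (c : ℝ) : ∀ (l : List I) (f : Finset I → ℝ) (x : Finset I),
    Rs b l (fun y => c * f y) x = c * Rs b l f x
  | [], f, x => rfl
  | i :: l, f, x => by simp only [Rs, Rs_mul b c l f]; ring

lemma Rs_sum {ι : Type*} (b : I → ℝ) (s : Finset ι) (f : ι → Finset I → ℝ) :
    ∀ (l : List I) (x : Finset I),
      Rs b l (fun y => ∑ i ∈ s, f i y) x = ∑ i ∈ s, Rs b l (f i) x
  | [], x => rfl
  | i :: l, x => by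
    simp only [Rs, Rs_sum b s f l, mul_sum, ← sum_add_distrib]

lemma Rs_mono {b : I → ℝ} (hb : ∀ i, 0 ≤ b i ∧ b i ≤ 1) : ∀ (l : List I)
    {f g : Finset I → ℝ} (_ : ∀ y, f y ≤ g y) (x : Finset I), Rs b l f x ≤ Rs b l g x
  | [], _, _, h, x => h x
  | i :: l, f, g, h, x => by
    have h1 := Rs_mono hb l h (insert i x)
    have h2 := Rs_mono hb l h (x.erase i)
    have := hb i
    simp only [Rs]
    nlinarith [mul_le_mul_of_nonneg_left h1 this.1,
      mul_le_mul_of_nonneg_left h2 (sub_nonneg.mpr this.2)]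

lemma Rs_const (b : I → ℝ) (c : ℝ) : ∀ (l : List I) (x : Finset I),
    Rs b l (fun _ => c) x = c
  | [], x => rfl
  | i :: l, x => by simp only [Rs, Rs_const b c l]; ring

/-- `Rs b l f x` only depends on the coordinates of `x` outside `l`. -/
lemma Rs_congr (b : I → ℝ) : ∀ (l : List I) (f : Finset I → ℝ) (x x' : Finset I),
    (∀ j, j ∉ l → (j ∈ x ↔ j ∈ x')) → Rs b l f x = Rs b l f x'
  | [], f, x, x', h => by
    have : x = x' := by ext j; exact h j (by simp)
    rw [this]
  | i :: l, f, x, x', h => by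
    simp only [Rs]
    rw [Rs_congr b l f (insert i x) (insert i x') ?_, Rs_congr b l f (x.erase i) (x'.erase i) ?_]
    · intro j hj
      by_cases hji : j = i
      · simp [hji]
      · have := h j (by simp [hji, hj])
        simp [hji, this]
    · intro j hj
      by_cases hji : j = i
      · simp [hji]
      · have := h j (by simp [hji, hj])
        simp [hji, this]

/-- Resampling preserves the coordinatewise Lipschitz property. -/
lemma Rs_lipschitz {b : I → ℝ} (hb : ∀ i, 0 ≤ b i ∧ b i ≤ 1) {F : Finset I → ℝ}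
    (hF : ∀ y i, |F (insert i y) - F (y.erase i)| ≤ 1) : ∀ (l : List I) (y : Finset I) (i : I),
    |Rs b l F (insert i y) - Rs b l F (y.erase i)| ≤ 1
  | [], y, i => hF y i
  | j :: l, y, i => by
    simp only [Rs]
    have hbj := hb j
    rcases eq_or_ne i j with rfl | hij
    · have e1 : insert i (insert i y) = insert i y := by simp
      have e2 : (insert i y).erase i = y.erase i := by ext k; simp
      have e3 : insert i (y.erase i) = insert i y := by
        ext k; simp only [mem_insert, mem_erase]; tauto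
      have e4 : (y.erase i).erase i = y.erase i := by ext k; simp
      rw [e1, e2, e3, e4]
      simp
    · have e1 : insert j (insert i y) = insert i (insert j y) := Finset.insert_comm _ _ _
      have e2 : (insert i y).erase j = insert i (y.erase j) := by
        ext k; simp only [mem_insert, mem_erase]
        constructor
        · rintro ⟨h1, h2 | h2⟩
          · exact Or.inl h2
          · exact Or.inr ⟨h1, h2⟩
        · rintro (h2 | ⟨h1, h2⟩)
          · exact ⟨by rw [h2]; exact hij, Or.inl h2⟩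
          · exact ⟨h1, Or.inr h2⟩
      have e3 : insert j (y.erase i) = (insert j y).erase i := by
        ext k; simp only [mem_insert, mem_erase]
        constructor
        · rintro (h2 | ⟨h1, h2⟩)
          · exact ⟨by rw [h2]; exact hij.symm, Or.inl h2⟩
          · exact ⟨h1, Or.inr h2⟩
        · rintro ⟨h1, h2 | h2⟩
          · exact Or.inl h2
          · exact Or.inr ⟨h1, h2⟩
      have e4 : (y.erase i).erase j = (y.erase j).erase i := by
        ext k; simp only [mem_erase]; tauto
      rw [e1, e2, e3, e4]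
      have h1 := abs_le.mp (Rs_lipschitz hb hF l (insert j y) i)
      have h2 := abs_le.mp (Rs_lipschitz hb hF l (y.erase j) i)
      rw [abs_le]
      constructor
      · nlinarith [mul_le_mul_of_nonneg_left h1.1 hbj.1,
          mul_le_mul_of_nonneg_left h2.1 (sub_nonneg.mpr hbj.2)]
      · nlinarith [mul_le_mul_of_nonneg_left h1.2 hbj.1,
          mul_le_mul_of_nonneg_left h2.2 (sub_nonneg.mpr hbj.2)]

end Rs

section hybrid

variable {Ω β I : Type} [Fintype Ω] [DecidableEq β] [DecidableEq I]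

lemma hybrid_aux (w : Ω → ℝ) (p : Ω → β) (x : Ω → Finset I) (b : β → I → ℝ)
    (F : β → Finset I → ℝ) (hw : ∀ ω, 0 ≤ w ω) (hb : ∀ s i, 0 ≤ b s i ∧ b s i ≤ 1)
    (hF : ∀ s y i, |F s (insert i y) - F s (y.erase i)| ≤ 1) :
    ∀ (l : List I) (P0 : Finset I), l.Nodup → (∀ i ∈ l, i ∉ P0) →
      (∀ ω, x ω ⊆ P0 ∪ l.toFinset) →
      |∑ ω, w ω * F (p ω) (x ω) - ∑ ω, w ω * Rs (b (p ω)) l (F (p ω)) (x ω)| ≤
        hybSum w p x b l P0
  | [], P0, _, _, _ => by simp [Rs, hybSum]
  | i :: l, P0, hl, hP, hx => by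
    have hil : i ∉ l := (List.nodup_cons.mp hl).1
    have hlnd : l.Nodup := (List.nodup_cons.mp hl).2
    have ih := hybrid_aux w p x b F hw hb hF l (insert i P0) hlnd (by
      intro j hj
      have h1 := hP j (List.mem_cons_of_mem _ hj)
      simp only [mem_insert, not_or]
      exact ⟨fun h => hil (h ▸ hj), h1⟩) (by
      intro ω j hj
      have := hx ω hj
      simp only [mem_union, mem_insert, List.mem_toFinset, List.mem_cons] at this ⊢
      tauto)
    -- one resampling step
    have hiP : i ∉ P0 := hP i (by simp)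
    set c : Ω → ℝ := cE w (fun ω => (p ω, x ω ∩ P0)) (fun ω => if i ∈ x ω then 1 else 0) with hc
    set u : Ω → ℝ := fun ω => Rs (b (p ω)) l (F (p ω)) (insert i (x ω)) with hu
    set v : Ω → ℝ := fun ω => Rs (b (p ω)) l (F (p ω)) ((x ω).erase i) with hv
    have hdep : ∀ ω ω' : Ω, (p ω, x ω ∩ P0) = (p ω', x ω' ∩ P0) →
        u ω - v ω = u ω' - v ω' := by
      intro ω ω' h
      have h1 : p ω = p ω' := (Prod.ext_iff.mp h).1
      have h2 : x ω ∩ P0 = x ω' ∩ P0 := (Prod.ext_iff.mp h).2
      have hmem : ∀ j, j ∉ l → j ≠ i → (j ∈ x ω ↔ j ∈ x ω') := by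
        intro j hj hji
        by_cases hjP : j ∈ P0
        · have : j ∈ x ω ∩ P0 ↔ j ∈ x ω' ∩ P0 := by rw [h2]
          simpa [hjP] using this
        · have h3 : ∀ ω, j ∉ x ω := by
            intro ω hjx
            have := hx ω hjx
            simp only [mem_union, List.mem_toFinset, List.mem_cons] at this
            tauto
          simp [h3]
      have hA : u ω = u ω' := by
        simp only [hu, h1]
        refine Rs_congr _ l _ _ _ fun j hj => ?_
        by_cases hji : j = i
        · simp [hji]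
        · simp [hji, hmem j hj hji]
      have hB : v ω = v ω' := by
        simp only [hv, h1]
        refine Rs_congr _ l _ _ _ fun j hj => ?_
        by_cases hji : j = i
        · simp [hji]
        · simp [hji, hmem j hj hji]
      rw [hA, hB]
    have htower : ∑ ω, w ω * ((u ω - v ω) * c ω) =
        ∑ ω, w ω * ((u ω - v ω) * (if i ∈ x ω then (1 : ℝ) else 0)) :=
      cE_tower' w hw (fun ω => (p ω, x ω ∩ P0)) _ (fun ω => u ω - v ω) hdep
    have hx2 : ∀ ω, Rs (b (p ω)) l (F (p ω)) (x ω) =
        v ω + (u ω - v ω) * (if i ∈ x ω then (1 : ℝ) else 0) := by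
      intro ω
      by_cases hi : i ∈ x ω
      · simp only [hi, if_true, hu, insert_eq_of_mem hi]; ring
      · simp only [hi, if_false, hv, erase_eq_of_notMem hi]; ring
    have hstep : ∑ ω, w ω * Rs (b (p ω)) l (F (p ω)) (x ω) -
        ∑ ω, w ω * Rs (b (p ω)) (i :: l) (F (p ω)) (x ω) =
        ∑ ω, w ω * ((u ω - v ω) * (c ω - b (p ω) i)) := by
      have e1 : ∑ ω, w ω * Rs (b (p ω)) l (F (p ω)) (x ω) =
          ∑ ω, w ω * v ω + ∑ ω, w ω * ((u ω - v ω) * c ω) := by
        rw [htower, ← sum_add_distrib]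
        refine sum_congr rfl fun ω _ => by rw [hx2 ω]; ring
      have e2 : ∑ ω, w ω * Rs (b (p ω)) (i :: l) (F (p ω)) (x ω) =
          ∑ ω, w ω * v ω + ∑ ω, w ω * ((u ω - v ω) * b (p ω) i) := by
        rw [← sum_add_distrib]
        refine sum_congr rfl fun ω _ => ?_
        simp only [Rs, hu, hv]; ring
      rw [e1, e2]
      have e3 : ∀ ω, w ω * ((u ω - v ω) * (c ω - b (p ω) i)) =
          w ω * ((u ω - v ω) * c ω) - w ω * ((u ω - v ω) * b (p ω) i) := fun ω => by ring
      simp only [e3, sum_sub_distrib]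
      ring
    have habs : |∑ ω, w ω * ((u ω - v ω) * (c ω - b (p ω) i))| ≤
        ∑ ω, w ω * |c ω - b (p ω) i| := by
      refine (abs_sum_le_sum_abs _ _).trans (sum_le_sum fun ω _ => ?_)
      rw [abs_mul, abs_of_nonneg (hw ω), abs_mul]
      refine mul_le_mul_of_nonneg_left ?_ (hw ω)
      have h1 := Rs_lipschitz (hb (p ω)) (hF (p ω)) l (x ω) i
      have h2 : |u ω - v ω| ≤ 1 := h1
      nlinarith [abs_nonneg (c ω - b (p ω) i)]
    simp only [hybSum]
    have tri : |∑ ω, w ω * F (p ω) (x ω) - ∑ ω, w ω * Rs (b (p ω)) (i :: l) (F (p ω)) (x ω)| ≤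
        |∑ ω, w ω * F (p ω) (x ω) - ∑ ω, w ω * Rs (b (p ω)) l (F (p ω)) (x ω)| +
        |∑ ω, w ω * Rs (b (p ω)) l (F (p ω)) (x ω) -
          ∑ ω, w ω * Rs (b (p ω)) (i :: l) (F (p ω)) (x ω)| := abs_sub_le _ _ _
    rw [hstep] at tri
    linarith

theorem block_E : Stmt_E := by
  intro Ω β I _ _ _ w p x b F l hw hb hl hx hF
  exact hybrid_aux w p x b F hw hb hF l ∅ hl (by simp) (by simpa using hx)

end hybrid

end Pool.Agent.RandomMakerFull
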