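import Pool.Agent.Work.MP_ecc80d_co_h34.Hybrid

/-!
# Distance to pattern-free sets under a product measure
-/

namespace Pool.Agent.RandomMakerFull

open Finset

section dst

variable {I : Type*} [DecidableEq I] {Free : Finset I → Prop}

lemma dst_spec (h0 : Free ∅) (y : Finset I) :
    ∃ z ⊆ y, Free z ∧ dst Free y = ((y \ z).card : ℝ) := by
  classical
  have hne : {k : ℕ | ∃ z ⊆ y, Free z ∧ (y \ z).card = k}.Nonempty :=
    ⟨(y \ ∅).card, ∅, empty_subset _, h0, rfl⟩
  obtain ⟨z, hz, hf, hc⟩ := Nat.sInf_mem hne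
  exact ⟨z, hz, hf, by unfold dst; rw [hc]⟩

lemma dst_le {y z : Finset I} (hz : z ⊆ y) (hf : Free z) : dst Free y ≤ ((y \ z).card : ℝ) := by
  unfold dst
  have : sInf {k : ℕ | ∃ z ⊆ y, Free z ∧ (y \ z).card = k} ≤ (y \ z).card :=
    Nat.sInf_le ⟨z, hz, hf, rfl⟩
  exact_mod_cast this

lemma dst_nonneg (y : Finset I) : 0 ≤ dst Free y := by
  unfold dst; exact Nat.cast_nonneg _

end dst

theorem block_F2 : Stmt_F2 := by
  intro I _ Free h0 hdown
  refine ⟨fun y => dst_nonneg y, fun y hy => ?_, fun y i => ?_⟩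
  · have := dst_le (Subset.refl y) hy
    rw [Finset.sdiff_self, card_empty, Nat.cast_zero] at this
    exact le_antisymm this (dst_nonneg y)
  · obtain ⟨z, hz, hf, hc⟩ := dst_spec h0 (y.erase i)
    obtain ⟨z', hz', hf', hc'⟩ := dst_spec h0 (insert i y)
    have h1 : dst Free (insert i y) ≤ dst Free (y.erase i) + 1 := by
      have hsub : z ⊆ insert i y :=
        hz.trans ((erase_subset _ _).trans (subset_insert _ _))
      refine (dst_le hsub hf).trans ?_
      rw [hc]
      have : insert i y \ z ⊆ insert i (y.erase i \ z) := by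
        intro j hj
        simp only [mem_sdiff, mem_insert, mem_erase] at hj ⊢
        by_cases hji : j = i
        · exact Or.inl hji
        · right; tauto
      have h2 := (card_le_card this).trans (card_insert_le _ _)
      exact_mod_cast h2
    have h2 : dst Free (y.erase i) ≤ dst Free (insert i y) := by
      have hsub : z' ∩ y.erase i ⊆ y.erase i := inter_subset_right
      refine (dst_le hsub (hdown _ _ inter_subset_left hf')).trans ?_
      rw [hc']
      have : y.erase i \ (z' ∩ y.erase i) ⊆ insert i y \ z' := by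
        intro j hj
        simp only [mem_sdiff, mem_inter, mem_insert, mem_erase] at hj ⊢
        tauto
      exact_mod_cast card_le_card this
    rw [abs_le]
    constructor <;> linarith

section product

variable {I ι : Type*} [DecidableEq I]

/-- Probability of a prescribed set of elements. -/
lemma Rs_indicator (b : I → ℝ) : ∀ (l : List I) (F x : Finset I), l.Nodup →
    Rs b l (fun y => if F ⊆ y then (1 : ℝ) else 0) x =
      (∏ e ∈ F ∩ l.toFinset, b e) * (if F \ l.toFinset ⊆ x then 1 else 0)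
  | [], F, x, _ => by simp [Rs]
  | i :: l, F, x, hl => by
    have hil : i ∉ l.toFinset := by simpa using (List.nodup_cons.mp hl).1
    have hlnd := (List.nodup_cons.mp hl).2
    simp only [Rs, Rs_indicator b l F _ hlnd]
    rw [List.toFinset_cons]
    by_cases hiF : i ∈ F
    · have h1 : ¬ F \ l.toFinset ⊆ x.erase i := by
        intro h
        have := h (mem_sdiff.mpr ⟨hiF, hil⟩)
        simp at this
      have h2 : F \ l.toFinset ⊆ insert i x ↔ F \ insert i l.toFinset ⊆ x := by
        constructor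
        · intro h j hj
          simp only [mem_sdiff, mem_insert, not_or] at hj
          have := h (mem_sdiff.mpr ⟨hj.1, hj.2.2⟩)
          rcases mem_insert.mp this with h3 | h3
          · exact absurd h3 hj.2.1
          · exact h3
        · intro h j hj
          simp only [mem_sdiff] at hj
          by_cases hji : j = i
          · simp [hji]
          · exact mem_insert_of_mem (h (by simp [hj.1, hj.2, hji]))
      have h3 : F ∩ insert i l.toFinset = insert i (F ∩ l.toFinset) := by
        rw [inter_insert_of_mem hiF]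
      rw [h3, prod_insert (by simp [hil]), if_neg h1]
      by_cases h4 : F \ l.toFinset ⊆ insert i x
      · rw [if_pos h4, if_pos (h2.mp h4)]; ring
      · rw [if_neg h4, if_neg (fun h => h4 (h2.mpr h))]; ring
    · have h3 : F ∩ insert i l.toFinset = F ∩ l.toFinset := by
        rw [inter_insert_of_notMem hiF]
      have h4 : F \ insert i l.toFinset = F \ l.toFinset := by
        ext j; simp only [mem_sdiff, mem_insert, not_or]
        constructor
        · rintro ⟨h5, h6, h7⟩; exact ⟨h5, h7⟩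
        · rintro ⟨h5, h6⟩; exact ⟨h5, fun h => hiF (h ▸ h5), h6⟩
      have h1 : F \ l.toFinset ⊆ x.erase i ↔ F \ l.toFinset ⊆ x := by
        constructor
        · intro h; exact h.trans (erase_subset _ _)
        · intro h j hj
          exact mem_erase.mpr ⟨fun h5 => hiF (h5 ▸ (mem_sdiff.mp hj).1), h hj⟩
      have h2 : F \ l.toFinset ⊆ insert i x ↔ F \ l.toFinset ⊆ x := by
        constructor
        · intro h j hj
          rcases mem_insert.mp (h hj) with h5 | h5
          · exact absurd (h5 ▸ (mem_sdiff.mp hj).1) hiF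
          · exact h5
        · intro h; exact h.trans (subset_insert _ _)
      rw [h3, h4]
      simp only [h1, h2]
      ring

lemma Rs_indicator' (b : I → ℝ) (l : List I) (hl : l.Nodup) (F : Finset I)
    (hF : F ⊆ l.toFinset) (x : Finset I) :
    Rs b l (fun y => if F ⊆ y then (1 : ℝ) else 0) x = ∏ e ∈ F, b e := by
  rw [Rs_indicator b l F x hl, inter_eq_left.mpr hF, sdiff_eq_empty_iff_subset.mpr hF]
  simp

end product

theorem block_F1 : Stmt_F1 := by
  intro I ι _ b l Free K κ hb hl h0 hfree hκ hpos x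
  classical
  set c : ι → ℝ := fun i => ∏ e ∈ κ i, (b e)⁻¹ with hc
  have hc0 : ∀ i ∈ K, 0 < c i := fun i hi =>
    prod_pos fun e he => inv_pos.mpr (hpos i hi e he)
  set U : Finset I := K.biUnion κ with hU
  set Xe : I → Finset I → ℝ := fun e y =>
    ∑ i ∈ K, if e ∈ κ i ∧ κ i ⊆ y then c i else 0 with hXe
  set XX : Finset I → ℝ := fun y => ∑ i ∈ K, c i * (if κ i ⊆ y then 1 else 0) with hXX
  set WW : Finset I → ℝ := fun y => ∑ i ∈ K, ∑ j ∈ K,
    (((κ i ∩ κ j).card : ℝ) * (c i * c j)) * (if κ i ∪ κ j ⊆ y then 1 else 0) with hWW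
  have hXe0 : ∀ e y, 0 ≤ Xe e y := fun e y =>
    sum_nonneg fun i hi => by split_ifs; exacts [(hc0 i hi).le, le_rfl]
  have hWsq : ∀ y, WW y = ∑ e ∈ U, (Xe e y) ^ 2 := by
    intro y
    have : ∀ e, (Xe e y) ^ 2 = ∑ i ∈ K, ∑ j ∈ K,
        (if e ∈ κ i ∧ κ i ⊆ y then c i else 0) * (if e ∈ κ j ∧ κ j ⊆ y then c j else 0) := by
      intro e
      rw [sq, hXe]; simp only
      rw [sum_mul_sum]
    simp only [this]
    rw [sum_comm]
    simp only [hWW]
    refine sum_congr rfl fun i hi => ?_
    rw [sum_comm]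
    refine sum_congr rfl fun j hj => ?_
    have h1 : ∀ e, (if e ∈ κ i ∧ κ i ⊆ y then c i else 0) * (if e ∈ κ j ∧ κ j ⊆ y then c j else 0)
        = if e ∈ κ i ∩ κ j then (if κ i ∪ κ j ⊆ y then c i * c j else 0) else 0 := by
      intro e
      by_cases h1 : e ∈ κ i <;> by_cases h2 : e ∈ κ j <;> by_cases h3 : κ i ⊆ y <;>
        by_cases h4 : κ j ⊆ y <;> simp [h1, h2, h3, h4, union_subset_iff]
    simp only [h1]
    rw [← sum_filter, sum_const, nsmul_eq_mul]
    have h2 : U.filter (fun e => e ∈ κ i ∩ κ j) = κ i ∩ κ j := by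
      ext e
      simp only [mem_filter, hU, mem_biUnion, mem_inter]
      constructor
      · rintro ⟨_, h⟩; exact h
      · intro h; exact ⟨⟨i, hi, h.1⟩, h⟩
    rw [h2]
    split_ifs <;> ring
  have hW0 : ∀ y, 0 ≤ WW y := fun y => by
    rw [hWsq]; exact sum_nonneg fun e _ => sq_nonneg _
  have hkey : ∀ y, (XX y) ^ 2 ≤ dst Free y * WW y := by
    intro y
    obtain ⟨z, hz, hf, hd⟩ := dst_spec h0 y
    have h1 : XX y ≤ ∑ e ∈ y \ z, Xe e y := by
      simp only [hXX, hXe]
      rw [sum_comm]
      refine sum_le_sum fun i hi => ?_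
      by_cases hiy : κ i ⊆ y
      · simp only [hiy, if_true, mul_one, and_true]
        have hnot : ¬ κ i ⊆ z := fun h => hfree i hi z h hf
        obtain ⟨e, he, hez⟩ := not_subset.mp hnot
        have hey : e ∈ y \ z := mem_sdiff.mpr ⟨hiy he, hez⟩
        calc c i = (if e ∈ κ i then c i else 0) := by rw [if_pos he]
          _ ≤ ∑ e ∈ y \ z, if e ∈ κ i then c i else 0 :=
            single_le_sum (f := fun e => if e ∈ κ i then c i else 0)
              (fun e _ => by split_ifs; exacts [(hc0 i hi).le, le_rfl]) hey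
      · simp [hiy]
    have hX0 : 0 ≤ XX y := sum_nonneg fun i hi =>
      mul_nonneg (hc0 i hi).le (by split_ifs <;> norm_num)
    have h2 : (∑ e ∈ y \ z, Xe e y) ^ 2 ≤ ((y \ z).card : ℝ) * ∑ e ∈ y \ z, (Xe e y) ^ 2 := by
      exact sq_sum_le_card_mul_sum_sq
    have h3 : ∑ e ∈ y \ z, (Xe e y) ^ 2 ≤ WW y := by
      rw [hWsq]
      have : ∑ e ∈ y \ z, (Xe e y) ^ 2 = ∑ e ∈ (y \ z) ∩ U, (Xe e y) ^ 2 := by
        symm
        refine sum_subset inter_subset_left fun e he1 he2 => ?_
        have heU : e ∉ U := fun h => he2 (mem_inter.mpr ⟨he1, h⟩)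
        have : Xe e y = 0 := by
          refine sum_eq_zero fun i hi => ?_
          have : e ∉ κ i := fun h => heU (mem_biUnion.mpr ⟨i, hi, h⟩)
          simp [this]
        rw [this]; ring
      rw [this]
      exact sum_le_sum_of_subset_of_nonneg inter_subset_right fun e _ _ => sq_nonneg _
    rw [hd]
    calc (XX y) ^ 2 ≤ (∑ e ∈ y \ z, Xe e y) ^ 2 := by gcongr
      _ ≤ ((y \ z).card : ℝ) * ∑ e ∈ y \ z, (Xe e y) ^ 2 := h2
      _ ≤ _ := mul_le_mul_of_nonneg_left h3 (Nat.cast_nonneg _)
  -- expectations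
  have hRX : Rs b l XX x = K.card := by
    simp only [hXX]
    rw [Rs_sum]
    have : ∀ i ∈ K, Rs b l (fun y => c i * (if κ i ⊆ y then (1 : ℝ) else 0)) x = 1 := by
      intro i hi
      rw [Rs_mul, Rs_indicator' b l hl _ (hκ i hi), hc]
      simp only
      rw [← prod_mul_distrib]
      exact prod_eq_one fun e he => inv_mul_cancel₀ (hpos i hi e he).ne'
    rw [sum_congr rfl this]; simp
  set V : ℝ := ∑ i ∈ K, ∑ j ∈ K, ((κ i ∩ κ j).card : ℝ) * ∏ e ∈ κ i ∩ κ j, (b e)⁻¹ with hV
  have hRW : Rs b l WW x = V := by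
    simp only [hWW]
    rw [Rs_sum]
    refine sum_congr rfl fun i hi => ?_
    rw [Rs_sum]
    refine sum_congr rfl fun j hj => ?_
    rw [Rs_mul, Rs_indicator' b l hl _ (union_subset (hκ i hi) (hκ j hj)), mul_assoc]
    congr 1
    have h1 : (∏ e ∈ κ i ∪ κ j, b e) * (∏ e ∈ κ i ∩ κ j, b e) =
        (∏ e ∈ κ i, b e) * ∏ e ∈ κ j, b e := prod_union_inter
    have hbi : ∏ e ∈ κ i, b e ≠ 0 := (prod_pos fun e he => hpos i hi e he).ne'
    have hbj : ∏ e ∈ κ j, b e ≠ 0 := (prod_pos fun e he => hpos j hj e he).ne'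
    have hbij : ∏ e ∈ κ i ∩ κ j, b e ≠ 0 :=
      (prod_pos fun e he => hpos i hi e (mem_inter.mp he).1).ne'
    simp only [hc, prod_inv_distrib]
    have h2 : ∏ e ∈ κ i ∪ κ j, b e =
        ((∏ e ∈ κ i, b e) * ∏ e ∈ κ j, b e) * (∏ e ∈ κ i ∩ κ j, b e)⁻¹ := by
      rw [← h1, mul_assoc, mul_inv_cancel₀ hbij, mul_one]
    rw [h2]
    field_simp
  rcases K.eq_empty_or_nonempty with hK | hK
  · subst hK
    simp [hV]
  · have hKc : (0 : ℝ) < K.card := by exact_mod_cast hK.card_pos
    have hVpos : 0 < V := by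
      obtain ⟨i, hi⟩ := hK
      have hne : (κ i).Nonempty := by
        by_contra h
        rw [not_nonempty_iff_eq_empty] at h
        exact hfree i hi ∅ (by rw [h]) h0
      refine sum_pos' (fun i' hi' => sum_nonneg fun j' hj' => ?_) ⟨i, hi, ?_⟩
      · exact mul_nonneg (Nat.cast_nonneg _) (prod_nonneg fun e he =>
          (inv_pos.mpr (hpos i' hi' e (mem_inter.mp he).1)).le)
      · refine sum_pos' (fun j' hj' => ?_) ⟨i, hi, ?_⟩
        · exact mul_nonneg (Nat.cast_nonneg _) (prod_nonneg fun e he =>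
            (inv_pos.mpr (hpos i hi e (mem_inter.mp he).1)).le)
        · rw [inter_self]
          exact mul_pos (by exact_mod_cast hne.card_pos)
            (prod_pos fun e he => inv_pos.mpr (hpos i hi e he))
    set θ : ℝ := V / K.card with hθ
    have hθ0 : 0 < θ := div_pos hVpos hKc
    have hpt : ∀ y, 2 * XX y ≤ θ * dst Free y + θ⁻¹ * WW y := by
      intro y
      have h1 := hkey y
      have hX0 : 0 ≤ XX y := sum_nonneg fun i hi =>
        mul_nonneg (hc0 i hi).le (by split_ifs <;> norm_num)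
      have h2 : 0 ≤ θ * dst Free y + θ⁻¹ * WW y :=
        add_nonneg (mul_nonneg hθ0.le (dst_nonneg y)) (mul_nonneg (inv_pos.mpr hθ0).le (hW0 y))
      have h3 : (2 * XX y) ^ 2 ≤ (θ * dst Free y + θ⁻¹ * WW y) ^ 2 := by
        have h4 : θ * dst Free y * (θ⁻¹ * WW y) = dst Free y * WW y := by
          field_simp
        nlinarith [sq_nonneg (θ * dst Free y - θ⁻¹ * WW y)]
      exact (pow_le_pow_iff_left₀ (by linarith) h2 (by norm_num)).mp h3
    have hR := Rs_mono hb l hpt x
    rw [Rs_mul b 2 l XX x, hRX, Rs_add b l, Rs_mul, Rs_mul, hRW] at hR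
    have h5 : θ⁻¹ * V = K.card := by
      rw [hθ]; field_simp
    rw [h5] at hR
    have h6 : (K.card : ℝ) ≤ V / K.card * Rs b l (dst Free) x := by linarith
    have h7 := mul_le_mul_of_nonneg_left h6 hKc.le
    have h8 : (K.card : ℝ) * (V / K.card * Rs b l (dst Free) x) = Rs b l (dst Free) x * V := by
      field_simp
    rw [h8] at h7
    calc (K.card : ℝ) ^ 2 = K.card * K.card := by ring
      _ ≤ _ := h7

end Pool.Agent.RandomMakerFull
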