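import Pool.Agent.Work.MP_ecc80d_co_h34.Product
import Pool.Agent.Work.MP_ecc80d_co_h34.B4

/-!
# Assembly, part 1: the inequality for fixed `N`
-/

namespace Pool.Agent.RandomMakerFull

open Finset
open H70 (Wt_nonneg X_nonneg X_le_one sum_Wt)

section core

variable {N : ℕ}

/-- The observed pairs: all pairs inside `S ∪ A` except the proper pairs of `A`. -/
def QA (S A : Finset (Fin N)) : Finset (Sym2 (Fin N)) := (S ∪ A).sym2 \ prs A

lemma prs_subset_sym2 (S A : Finset (Fin N)) : prs A ⊆ (S ∪ A).sym2 := by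
  intro e he
  have h1 : e ∈ A.sym2 := (mem_filter.mp he).1
  exact Finset.sym2_mono subset_union_right h1

lemma z1_mem_prs {T : Finset (Fin N)} {e : Sym2 (Fin N)} :
    e ∈ prs T ↔ (∀ v ∈ e, v ∈ T) ∧ ¬ e.IsDiag := by
  unfold prs
  rw [mem_filter, Finset.mem_sym2_iff]

lemma around_subset_QA {S A : Finset (Fin N)} (hd : Disjoint S A) {e : Sym2 (Fin N)}
    (he : e ∈ prs A) : around S e ⊆ QA S A := by
  intro f hf
  unfold around at hf
  rw [mem_erase, Finset.mem_sym2_iff] at hf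
  obtain ⟨hfe, hf⟩ := hf
  have heA := z1_mem_prs.mp he
  unfold QA
  rw [mem_sdiff, Finset.mem_sym2_iff]
  refine ⟨fun v hv => ?_, fun hfA => ?_⟩
  · have := hf v hv
    rw [mem_union, Sym2.mem_toFinset] at this
    rcases this with h | h
    · exact mem_union_left _ h
    · exact mem_union_right _ (heA.1 v h)
  · have hfA' := z1_mem_prs.mp hfA
    have hfe' : ∀ v ∈ f, v ∈ e := by
      intro v hv
      have := hf v hv
      rw [mem_union, Sym2.mem_toFinset] at this
      rcases this with h | h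
      · exact absurd (hfA'.1 v hv) (fun h' => (Finset.disjoint_left.mp hd) h h')
      · exact h
    -- two proper pairs, one inside the other, are equal
    apply hfe
    induction f using Sym2.ind with
    | _ a b =>
      have ha := hfe' a (Sym2.mem_mk_left a b)
      have hb := hfe' b (Sym2.mem_mk_right a b)
      have hab : a ≠ b := fun h => hfA'.2 (by rw [h]; simp)
      exact ((Sym2.mem_and_mem_iff hab).mp ⟨ha, hb⟩).symm

variable (w : Finset (Sym2 (Fin N)) → ℝ) (S A : Finset (Fin N))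

/-- Conditional probability of `e` as a function of what is observed. -/
noncomputable def bfun (s : Equiv.Perm (Fin N) × Finset (Sym2 (Fin N))) (e : Sym2 (Fin N)) : ℝ :=
  (∑ ω' with obs (QA S A) ω' = s, Wt w ω' * X e ω') / (∑ ω' with obs (QA S A) ω' = s, Wt w ω')

lemma bfun_obs (ω : Sp N) (e : Sym2 (Fin N)) :
    bfun w S A (obs (QA S A) ω) e = cE (Wt w) (obs (QA S A)) (X e) ω := rfl

variable {w}

lemma bfun_mem (hw : ∀ M, 0 ≤ w M) (s : Equiv.Perm (Fin N) × Finset (Sym2 (Fin N)))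
    (e : Sym2 (Fin N)) : 0 ≤ bfun w S A s e ∧ bfun w S A s e ≤ 1 := by
  unfold bfun
  have h0 : ∀ ω : Sp N, 0 ≤ Wt w ω := Wt_nonneg hw
  constructor
  · exact div_nonneg (sum_nonneg fun ω _ => mul_nonneg (h0 ω) (X_nonneg e ω))
      (sum_nonneg fun ω _ => h0 ω)
  · refine div_le_one_of_le₀ (sum_le_sum fun ω _ => ?_) (sum_nonneg fun ω _ => h0 ω)
    exact mul_le_of_le_one_right (h0 ω) (X_le_one e ω)

variable {S A}

lemma cE_hyb {P0 : Finset (Sym2 (Fin N))} (hP : P0 ⊆ prs A) {e : Sym2 (Fin N)} (he : e ∈ prs A) :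
    cE (Wt w) (fun ω => (obs (QA S A) ω, (pos ω ∩ prs A) ∩ P0))
      (fun ω => if e ∈ pos ω ∩ prs A then 1 else 0) = cE (Wt w) (obs (QA S A ∪ P0)) (X e) := by
  have h1 : (fun ω : Sp N => if e ∈ pos ω ∩ prs A then (1 : ℝ) else 0) = X e := by
    funext ω
    unfold X
    simp [he]
  rw [h1]
  refine cE_congr_map _ _ _ (fun ω ω' => ?_) _
  have h2 : ∀ ω : Sp N, (pos ω ∩ prs A) ∩ P0 = pos ω ∩ P0 := by
    intro ω
    rw [inter_assoc, inter_eq_right.mpr hP]
  rw [Prod.mk.injEq, h2, h2]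
  unfold obs
  simp only [Prod.mk.injEq, inter_union_distrib_left]
  constructor
  · rintro ⟨⟨h3, h4⟩, h5⟩
    exact ⟨h3, by rw [h4, h5]⟩
  · rintro ⟨h3, h4⟩
    have h5 : ∀ Q : Finset (Sym2 (Fin N)), Q ⊆ QA S A ∪ P0 →
        pos ω ∩ Q = pos ω' ∩ Q := by
      intro Q hQ
      have h6 : ∀ ω : Sp N, pos ω ∩ Q = (pos ω ∩ QA S A ∪ pos ω ∩ P0) ∩ Q := by
        intro ω
        rw [← inter_union_distrib_left, inter_assoc, inter_eq_right.mpr hQ]
      rw [h6 ω, h6 ω', h4]
    exact ⟨⟨h3, h5 _ subset_union_left⟩, h5 _ subset_union_right⟩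

/-- The bound for the hybrid sum. -/
lemma hybSum_le (hw : ∀ M, 0 ≤ w M) (hw1 : ∑ M, w M = 1) (hd : Disjoint S A) {R : ℕ}
    (hR : ∀ e ∈ prs A, ∀ Q Q' : Finset (Sym2 (Fin N)), around S e ⊆ Q → Q ⊆ Q' →
      Q' ⊆ ((S ∪ A).sym2).erase e →
      ∑ ω, Wt w ω * (cE (Wt w) (obs Q') (X e) ω - cE (Wt w) (obs Q) (X e) ω) ^ 2 ≤ 1 / R) :
    ∀ (l : List (Sym2 (Fin N))) (P0 : Finset (Sym2 (Fin N))), P0 ⊆ prs A → l.Nodup →
      (∀ e ∈ l, e ∈ prs A ∧ e ∉ P0) →
      hybSum (Wt w) (obs (QA S A)) (fun ω => pos ω ∩ prs A) (bfun w S A) l P0 ≤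
        l.length * Real.sqrt (1 / R)
  | [], P0, _, _, _ => by simp [hybSum]
  | e :: l, P0, hP, hl, hlA => by
    have hel : e ∉ l := (List.nodup_cons.mp hl).1
    have heA := (hlA e (by simp)).1
    have heP := (hlA e (by simp)).2
    have ih := hybSum_le hw hw1 hd hR l (insert e P0) (insert_subset heA hP)
      (List.nodup_cons.mp hl).2 (by
        intro f hf
        refine ⟨(hlA f (List.mem_cons_of_mem _ hf)).1, ?_⟩
        rw [mem_insert, not_or]
        exact ⟨fun h => hel (h ▸ hf), (hlA f (List.mem_cons_of_mem _ hf)).2⟩)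
    simp only [hybSum]
    rw [cE_hyb hP heA]
    have h1 : ∑ ω, Wt w ω * |cE (Wt w) (obs (QA S A ∪ P0)) (X e) ω -
        bfun w S A (obs (QA S A) ω) e| ≤ Real.sqrt (1 / R) := by
      apply Real.le_sqrt_of_sq_le
      refine (sum_abs_sq_le (Wt w) (Wt_nonneg hw) (sum_Wt hw1).le _).trans ?_
      simp only [bfun_obs]
      refine hR e heA _ _ (around_subset_QA hd heA) subset_union_left ?_
      intro f hf
      rw [mem_erase]
      rcases mem_union.mp hf with h | h
      · unfold QA at h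
        rw [mem_sdiff] at h
        exact ⟨fun h' => h.2 (h' ▸ heA), h.1⟩
      · exact ⟨fun h' => heP (h' ▸ h), prs_subset_sym2 S A (hP h)⟩
    rw [List.length_cons]
    push_cast
    linarith

lemma noClique_mono {q : ℕ} {y z : Finset (Sym2 (Fin N))} (h : y ⊆ z) (hz : NoClique q z) :
    NoClique q y := fun T hT hy => hz T hT (hy.trans h)

lemma noClique_empty {q : ℕ} (hq : 2 ≤ q) : NoClique q (∅ : Finset (Sym2 (Fin N))) := by
  intro T hT hsub
  obtain ⟨a, ha, b, hb, hab⟩ := Finset.one_lt_card.mp (by omega : 1 < T.card)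
  have : s(a, b) ∈ prs T := by
    rw [z1_mem_prs]
    refine ⟨fun v hv => ?_, by simpa using hab⟩
    rcases Sym2.mem_iff.mp hv with rfl | rfl
    · exact ha
    · exact hb
  exact absurd (hsub this) (by simp)

lemma noClique_pos {q : ℕ} (ω : Sp N) (h : NoClique q ω.2) : NoClique q (pos ω) := by
  classical
  intro T hT hsub
  refine h (T.image ω.1) (by rw [card_image_of_injective _ ω.1.injective, hT]) ?_
  intro f hf
  rw [z1_mem_prs] at hf
  induction f using Sym2.ind with
  | _ a b =>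
    have ha : a ∈ T.image ω.1 := hf.1 a (Sym2.mem_mk_left a b)
    have hb : b ∈ T.image ω.1 := hf.1 b (Sym2.mem_mk_right a b)
    obtain ⟨a', ha', rfl⟩ := mem_image.mp ha
    obtain ⟨b', hb', rfl⟩ := mem_image.mp hb
    have hab : a' ≠ b' := fun h => hf.2 (by rw [h]; simp)
    have h1 : s(a', b') ∈ prs T := by
      rw [z1_mem_prs]
      refine ⟨fun v hv => ?_, by simpa using hab⟩
      rcases Sym2.mem_iff.mp hv with rfl | rfl
      · exact ha'
      · exact hb'
    have h2 := hsub h1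
    unfold pos at h2
    rw [mem_filter] at h2
    simpa using h2.2

/-- The main inequality for fixed `N`: if on the event `Good` the distance to the clique-free
graphs under the product measure is at least `D0`, then `P(Good) * D0` is small. -/
theorem core {q : ℕ} (hq : 2 ≤ q) (hw : ∀ M, 0 ≤ w M) (hw1 : ∑ M, w M = 1)
    (hsupp : ∀ M, w M ≠ 0 → NoClique q M) (hd : Disjoint S A) {R : ℕ}
    (hR : ∀ e ∈ prs A, ∀ Q Q' : Finset (Sym2 (Fin N)), around S e ⊆ Q → Q ⊆ Q' →
      Q' ⊆ ((S ∪ A).sym2).erase e →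
      ∑ ω, Wt w ω * (cE (Wt w) (obs Q') (X e) ω - cE (Wt w) (obs Q) (X e) ω) ^ 2 ≤ 1 / R)
    (Good : Equiv.Perm (Fin N) × Finset (Sym2 (Fin N)) → Prop) [DecidablePred Good] (D0 : ℝ)
    (hD0 : ∀ s x, Good s → D0 ≤ Rs (bfun w S A s) (prs A).toList (dst (NoClique q)) x) :
    (∑ ω, Wt w ω * (if Good (obs (QA S A) ω) then 1 else 0)) * D0 ≤
      (prs A).card * Real.sqrt (1 / R) := by
  classical
  obtain ⟨hF1, hF2, hF3⟩ := block_F2 (NoClique (N := N) q) (noClique_empty hq)
    (fun z z' h h' => noClique_mono h h')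
  set F : Equiv.Perm (Fin N) × Finset (Sym2 (Fin N)) → Finset (Sym2 (Fin N)) → ℝ :=
    fun s y => if Good s then dst (NoClique q) y else 0 with hF
  have hE := block_E (Wt w) (obs (QA S A)) (fun ω => pos ω ∩ prs A) (bfun w S A) F
    (prs A).toList (Wt_nonneg hw) (bfun_mem S A hw) (Finset.nodup_toList _)
    (by intro ω; rw [Finset.toList_toFinset]; exact inter_subset_right)
    (by
      intro s y i
      simp only [hF]
      split_ifs
      · exact hF3 y i
      · simp)
  have h1 : ∑ ω, Wt w ω * F (obs (QA S A) ω) (pos ω ∩ prs A) = 0 := by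
    refine sum_eq_zero fun ω _ => ?_
    rcases eq_or_ne (w ω.2) 0 with h | h
    · unfold Wt; rw [h]; simp
    · have h2 := noClique_mono (inter_subset_left (s₂ := prs A)) (noClique_pos ω (hsupp _ h))
      simp only [hF]
      rw [hF2 _ h2]; simp
  have h2 := hybSum_le hw hw1 hd hR (prs A).toList ∅ (empty_subset _) (Finset.nodup_toList _)
    (by intro e he; exact ⟨Finset.mem_toList.mp he, by simp⟩)
  rw [Finset.length_toList] at h2
  rw [h1, zero_sub, abs_neg] at hE
  have h3 := (le_abs_self _).trans (hE.trans h2)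
  refine le_trans ?_ h3
  rw [sum_mul]
  refine sum_le_sum fun ω _ => ?_
  rw [mul_assoc]
  refine mul_le_mul_of_nonneg_left ?_ (Wt_nonneg hw ω)
  by_cases hg : Good (obs (QA S A) ω)
  · have h4 : F (obs (QA S A) ω) = dst (NoClique q) := by
      funext y; simp only [hF]; rw [if_pos hg]
    rw [if_pos hg, one_mul, h4]
    exact hD0 _ _ hg
  · have h4 : F (obs (QA S A) ω) = fun _ => 0 := by
      funext y; simp only [hF]; rw [if_neg hg]
    rw [if_neg hg, zero_mul, h4, Rs_const]

end core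

end Pool.Agent.RandomMakerFull
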