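import Pool.Agent.Work.MP_ecc80d_co_h34.Z1a
import Pool.Agent.Work.MP_ecc80d_co_h34.C2
import Pool.Agent.Work.MP_ecc80d_co_h34.D

/-!
# Assembly, part 2: the probability of the good event, fixed `N`
-/

namespace Pool.Agent.RandomMakerFull

open Finset
open H70 (Wt_nonneg X_nonneg X_le_one sum_Wt)

section

variable {N : ℕ} {w : Finset (Sym2 (Fin N)) → ℝ} {S A : Finset (Fin N)}

/-- Expectation of the penalised cost of one pair. -/
lemma exp_h (hw : ∀ M, 0 ≤ w M) (hw1 : ∑ M, w M = 1) (hd : Disjoint S A) {R : ℕ}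
    (hR : ∀ e ∈ prs A, ∀ Q Q' : Finset (Sym2 (Fin N)), around S e ⊆ Q → Q ⊆ Q' →
      Q' ⊆ ((S ∪ A).sym2).erase e →
      ∑ ω, Wt w ω * (cE (Wt w) (obs Q') (X e) ω - cE (Wt w) (obs Q) (X e) ω) ^ 2 ≤ 1 / R)
    {κ δ : ℝ} (hκ : 0 ≤ κ) (hδ : 0 ≤ δ)
    (hC : ∀ e ∈ prs A, ∀ l : ℝ, 0 ≤ l → l ≤ 1 →
      ∑ ω, Wt w ω * max (l - aS w S e ω) 0 ≤ l ^ 2 / 2 * κ + δ)
    {η Λ : ℝ} (hη : 0 < η) (hη1 : 4 * η ≤ 1) (hΛ : 0 ≤ Λ) {e : Sym2 (Fin N)} (he : e ∈ prs A) :
    ∑ ω, Wt w ω * (gfun η (bfun w S A (obs (QA S A) ω) e) +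
      (if bfun w S A (obs (QA S A) ω) e < η then Λ else 0)) ≤
      κ + δ * (1 + 1 / η) + Real.sqrt (1 / R) / η +
        Λ * (4 * η * κ + δ / (2 * η) + 1 / R / η ^ 2) := by
  obtain ⟨g1, g2, g3, g4, g5⟩ := block_C2 η hη (by linarith)
  have hW0 : ∀ ω : Sp N, 0 ≤ Wt w ω := Wt_nonneg hw
  have ha : ∀ ω, 0 ≤ aS w S e ω ∧ aS w S e ω ≤ 1 := fun ω =>
    ⟨H70.cE_nonneg hW0 _ (X_nonneg e) ω, H70.cE_le_one hW0 _ (X_le_one e) ω⟩
  have hb : ∀ ω, 0 ≤ bfun w S A (obs (QA S A) ω) e ∧ bfun w S A (obs (QA S A) ω) e ≤ 1 :=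
    fun ω => bfun_mem S A hw _ e
  have hsq : ∑ ω, Wt w ω * (bfun w S A (obs (QA S A) ω) e - aS w S e ω) ^ 2 ≤ 1 / R := by
    simp only [bfun_obs]
    refine hR e he _ _ (Subset.refl _) (around_subset_QA hd he) ?_
    intro f hf
    unfold QA at hf
    rw [mem_sdiff] at hf
    exact mem_erase.mpr ⟨fun h' => hf.2 (h' ▸ he), hf.1⟩
  have habs : ∑ ω, Wt w ω * |bfun w S A (obs (QA S A) ω) e - aS w S e ω| ≤
      Real.sqrt (1 / R) := by
    apply Real.le_sqrt_of_sq_le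
    exact (sum_abs_sq_le (Wt w) hW0 (sum_Wt hw1).le _).trans hsq
  have hg : ∑ ω, Wt w ω * gfun η (aS w S e ω) ≤ κ + δ * (1 + 1 / η) :=
    g5 (Wt w) (aS w S e) κ δ hW0 (sum_Wt hw1) ha hκ hδ (hC e he)
  have h4 := hC e he (4 * η) (by linarith) hη1
  -- pointwise bound
  have hpt : ∀ ω, gfun η (bfun w S A (obs (QA S A) ω) e) +
      (if bfun w S A (obs (QA S A) ω) e < η then Λ else 0) ≤
      gfun η (aS w S e ω) + |bfun w S A (obs (QA S A) ω) e - aS w S e ω| / η +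
        Λ * (max (4 * η - aS w S e ω) 0 / (2 * η) +
          (bfun w S A (obs (QA S A) ω) e - aS w S e ω) ^ 2 / η ^ 2) := by
    intro ω
    have e1 := g4 (bfun w S A (obs (QA S A) ω) e) (aS w S e ω) (hb ω).1 (hb ω).2 (ha ω).1
      (ha ω).2
    have e2 := (le_abs_self _).trans e1
    have e3 : (if bfun w S A (obs (QA S A) ω) e < η then Λ else 0) ≤
        Λ * (max (4 * η - aS w S e ω) 0 / (2 * η) +
          (bfun w S A (obs (QA S A) ω) e - aS w S e ω) ^ 2 / η ^ 2) := by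
      have hnn1 : 0 ≤ max (4 * η - aS w S e ω) 0 / (2 * η) := by positivity
      have hnn2 : 0 ≤ (bfun w S A (obs (QA S A) ω) e - aS w S e ω) ^ 2 / η ^ 2 := by positivity
      split_ifs with hlt
      · have : 1 ≤ max (4 * η - aS w S e ω) 0 / (2 * η) +
            (bfun w S A (obs (QA S A) ω) e - aS w S e ω) ^ 2 / η ^ 2 := by
          rcases le_or_gt (aS w S e ω) (2 * η) with h | h
          · have : 1 ≤ max (4 * η - aS w S e ω) 0 / (2 * η) := by
              rw [le_div_iff₀ (by linarith)]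
              exact le_trans (by linarith) (le_max_left _ _)
            linarith
          · have : 1 ≤ (bfun w S A (obs (QA S A) ω) e - aS w S e ω) ^ 2 / η ^ 2 := by
              rw [le_div_iff₀ (by positivity)]
              nlinarith
            linarith
        nlinarith
      · positivity
    linarith
  calc ∑ ω, Wt w ω * (gfun η (bfun w S A (obs (QA S A) ω) e) +
      (if bfun w S A (obs (QA S A) ω) e < η then Λ else 0))
      ≤ ∑ ω, Wt w ω * (gfun η (aS w S e ω) +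
        |bfun w S A (obs (QA S A) ω) e - aS w S e ω| / η +
        Λ * (max (4 * η - aS w S e ω) 0 / (2 * η) +
          (bfun w S A (obs (QA S A) ω) e - aS w S e ω) ^ 2 / η ^ 2)) :=
        sum_le_sum fun ω _ => mul_le_mul_of_nonneg_left (hpt ω) (hW0 ω)
    _ = ∑ ω, Wt w ω * gfun η (aS w S e ω) +
        (∑ ω, Wt w ω * |bfun w S A (obs (QA S A) ω) e - aS w S e ω|) / η +
        Λ * ((∑ ω, Wt w ω * max (4 * η - aS w S e ω) 0) / (2 * η) +
          (∑ ω, Wt w ω * (bfun w S A (obs (QA S A) ω) e - aS w S e ω) ^ 2) / η ^ 2) := by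
        rw [sum_div, sum_div, sum_div, ← sum_add_distrib, ← sum_add_distrib, mul_sum,
          ← sum_add_distrib]
        refine sum_congr rfl fun ω _ => ?_
        ring
    _ ≤ _ := by
        have e1 : (∑ ω, Wt w ω * |bfun w S A (obs (QA S A) ω) e - aS w S e ω|) / η ≤
            Real.sqrt (1 / R) / η := div_le_div_of_nonneg_right habs hη.le
        have e2 : (∑ ω, Wt w ω * max (4 * η - aS w S e ω) 0) / (2 * η) ≤
            4 * η * κ + δ / (2 * η) := by
          rw [div_le_iff₀ (by linarith)]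
          refine h4.trans (le_of_eq ?_)
          field_simp
          ring
        have e3 : (∑ ω, Wt w ω * (bfun w S A (obs (QA S A) ω) e - aS w S e ω) ^ 2) / η ^ 2 ≤
            1 / R / η ^ 2 := div_le_div_of_nonneg_right hsq (by positivity)
        have e4 := mul_le_mul_of_nonneg_left (add_le_add e2 e3) hΛ
        linarith

/-- Markov's inequality for the good event. -/
lemma good_prob (hw : ∀ M, 0 ≤ w M) (hw1 : ∑ M, w M = 1) {η Λ τ θ : ℝ} (hθ : 0 < θ)
    (hcard : 0 < (prs A).card) (hη : 0 < η) (hη1 : η ≤ 1) (hΛ : 0 ≤ Λ)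
    (hexp : ∀ e ∈ prs A, ∑ ω, Wt w ω * (gfun η (bfun w S A (obs (QA S A) ω) e) +
      (if bfun w S A (obs (QA S A) ω) e < η then Λ else 0)) ≤ 1 + τ)
    (Good : Equiv.Perm (Fin N) × Finset (Sym2 (Fin N)) → Prop) [DecidablePred Good]
    (hGood : ∀ s, ¬ Good s → (1 + θ) * ((prs A).card : ℝ) <
      ∑ e ∈ prs A, (gfun η (bfun w S A s e) + (if bfun w S A s e < η then Λ else 0))) :
    1 - (1 + τ) / (1 + θ) ≤ ∑ ω, Wt w ω * (if Good (obs (QA S A) ω) then 1 else 0) := by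
  obtain ⟨g1, -, -, -, -⟩ := block_C2 η hη hη1
  have hW0 : ∀ ω : Sp N, 0 ≤ Wt w ω := Wt_nonneg hw
  have hcard' : (0 : ℝ) < (prs A).card := by exact_mod_cast hcard
  set H : Sp N → ℝ := fun ω => ∑ e ∈ prs A, (gfun η (bfun w S A (obs (QA S A) ω) e) +
      (if bfun w S A (obs (QA S A) ω) e < η then Λ else 0)) with hH
  have hH0 : ∀ ω, 0 ≤ H ω := fun ω => sum_nonneg fun e _ => by
    have hb := bfun_mem S A hw (obs (QA S A) ω) e
    have := g1 _ hb.1 hb.2
    split_ifs <;> linarith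
  have h1 : ∑ ω, Wt w ω * H ω ≤ (1 + τ) * (prs A).card := by
    simp only [hH, mul_sum]
    rw [sum_comm]
    calc ∑ e ∈ prs A, ∑ ω, Wt w ω * (gfun η (bfun w S A (obs (QA S A) ω) e) +
        (if bfun w S A (obs (QA S A) ω) e < η then Λ else 0)) ≤ ∑ e ∈ prs A, (1 + τ) :=
          sum_le_sum hexp
      _ = _ := by rw [sum_const, nsmul_eq_mul]; ring
  have h2 : ∀ ω, (1 + θ) * (prs A).card * (1 - (if Good (obs (QA S A) ω) then 1 else 0)) ≤
      H ω := by
    intro ω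
    split_ifs with hg
    · simpa using hH0 ω
    · rw [sub_zero, mul_one]; exact (hGood _ hg).le
  have h3 : ∑ ω, Wt w ω * ((1 + θ) * (prs A).card *
      (1 - (if Good (obs (QA S A) ω) then 1 else 0))) ≤ (1 + τ) * (prs A).card :=
    (sum_le_sum fun ω _ => mul_le_mul_of_nonneg_left (h2 ω) (hW0 ω)).trans h1
  have h4 : ∑ ω, Wt w ω * ((1 + θ) * (prs A).card *
      (1 - (if Good (obs (QA S A) ω) then 1 else 0))) = (1 + θ) * (prs A).card *
      (1 - ∑ ω, Wt w ω * (if Good (obs (QA S A) ω) then 1 else 0)) := by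
    have : (1 : ℝ) = ∑ ω, Wt w ω := (sum_Wt hw1).symm
    rw [mul_sub, mul_one]
    nth_rewrite 2 [← mul_one ((1 + θ) * ((prs A).card : ℝ))]
    rw [this, mul_sum, mul_sum, ← sum_sub_distrib, ← this]
    refine sum_congr rfl fun ω _ => ?_
    ring
  rw [h4] at h3
  have h5 : (1 + θ) * (1 - ∑ ω, Wt w ω * (if Good (obs (QA S A) ω) then 1 else 0)) ≤ 1 + τ := by
    have : (prs A).card * ((1 + θ) *
        (1 - ∑ ω, Wt w ω * (if Good (obs (QA S A) ω) then 1 else 0))) ≤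
        (prs A).card * (1 + τ) := by linarith
    exact le_of_mul_le_mul_left this hcard'
  have h6 : 1 - ∑ ω, Wt w ω * (if Good (obs (QA S A) ω) then (1 : ℝ) else 0) ≤
      (1 + τ) / (1 + θ) := by
    rw [le_div_iff₀ (by linarith)]; linarith
  linarith

end

end Pool.Agent.RandomMakerFull
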