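import Pool.Agent.Work.MP_ecc80d_co_h34.Z1b
import Pool.Agent.Work.MP_ecc80d_co_h34.D2a

/-!
# Assembly, part 3: the contradiction for fixed large `N`
-/

namespace Pool.Agent.RandomMakerFull

open Finset

/-- The numerical inequality for the expected penalised cost. -/
lemma numeric_exp {ε L y κ δ r : ℝ} (hε : 0 < ε) (hε1 : ε ≤ 1) (hL : 3200 / ε ≤ L)
    (hy0 : 0 < y) (hz : L ^ 11 * y ≤ ε / 20000) (hκ1 : κ ≤ 1 + ε / 400)
    (hδ : δ ≤ 14 * y) (hr0 : 0 ≤ r) (hr : r ≤ 2 * y ^ 2) :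
    κ + δ * (1 + 1 / (L ^ 4)⁻¹) + Real.sqrt r / (L ^ 4)⁻¹ +
        L ^ 3 * (4 * (L ^ 4)⁻¹ * κ + δ / (2 * (L ^ 4)⁻¹) + r / ((L ^ 4)⁻¹) ^ 2) ≤ 1 + ε / 100 := by
  have hL1 : 3200 ≤ L := by
    have : 3200 ≤ 3200 / ε := by rw [le_div_iff₀ hε]; nlinarith
    linarith
  have hLpos : 0 < L := by linarith
  have hsq : Real.sqrt r ≤ 2 * y := by
    rw [Real.sqrt_le_left (by linarith)]
    nlinarith
  have hpow : ∀ k : ℕ, k ≤ 11 → L ^ k * y ≤ ε / 20000 := by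
    intro k hk
    have : L ^ k ≤ L ^ 11 := pow_le_pow_right₀ (by linarith) hk
    nlinarith
  have hy1 : y ≤ ε / 20000 := by simpa using hpow 0 (by norm_num)
  have hy1' : y ≤ 1 := by linarith
  have e1 : κ + δ * (1 + 1 / (L ^ 4)⁻¹) + Real.sqrt r / (L ^ 4)⁻¹ +
      L ^ 3 * (4 * (L ^ 4)⁻¹ * κ + δ / (2 * (L ^ 4)⁻¹) + r / ((L ^ 4)⁻¹) ^ 2) =
      κ + δ + δ * L ^ 4 + Real.sqrt r * L ^ 4 + 4 * κ / L + δ * L ^ 7 / 2 + r * L ^ 11 := by
    field_simp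
    ring
  rw [e1]
  have h4 := hpow 4 (by norm_num)
  have h7 := hpow 7 (by norm_num)
  have h11 := hpow 11 (by norm_num)
  have hL4 : 0 < L ^ 4 := by positivity
  have hL7 : 0 < L ^ 7 := by positivity
  have hL11 : 0 < L ^ 11 := by positivity
  have t1 : δ ≤ 14 * (ε / 20000) := by linarith
  have t2 : δ * L ^ 4 ≤ 14 * (ε / 20000) := by nlinarith
  have t3 : Real.sqrt r * L ^ 4 ≤ 2 * (ε / 20000) := by nlinarith
  have t4 : 4 * κ / L ≤ ε / 400 := by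
    rw [div_le_iff₀ hLpos]
    have : 3200 ≤ L * ε := by rwa [div_le_iff₀ hε] at hL
    nlinarith
  have t5 : δ * L ^ 7 / 2 ≤ 7 * (ε / 20000) := by nlinarith
  have t6 : r * L ^ 11 ≤ 2 * (ε / 20000) := by
    have : r * L ^ 11 ≤ 2 * y ^ 2 * L ^ 11 := mul_le_mul_of_nonneg_right hr hL11.le
    nlinarith [mul_nonneg hy0.le hL11.le]
  linarith

/-- The lower bound for the distance to clique-free graphs on the good event. -/
lemma dist_bound {ε : ℝ} {C N q : ℕ} {A : Finset (Fin N)} {b : Sym2 (Fin N) → ℝ}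
    (hN : 3 ≤ N)
    (hb : ∀ e, 0 ≤ b e ∧ b e ≤ 1) (hq : 2 ≤ q)
    (hD : ∃ K : Finset (Fin q → Fin N), K.Nonempty ∧
      (∀ κ ∈ K, Function.Injective κ ∧ ∀ i, κ i ∈ A) ∧
      (∀ κ ∈ K, ∀ e ∈ prs (univ.image κ), (Real.log N ^ 4)⁻¹ ≤ b e) ∧
      (∑ κ ∈ K, ∑ κ' ∈ K, ((prs (univ.image κ) ∩ prs (univ.image κ')).card : ℝ) *
        ∏ e ∈ prs (univ.image κ) ∩ prs (univ.image κ'), (b e)⁻¹) * (A.card : ℝ) ^ 2 ≤
        Real.log N ^ C * (K.card : ℝ) ^ 2) (x : Finset (Sym2 (Fin N))) :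
    (A.card : ℝ) ^ 2 / Real.log N ^ C ≤ Rs b (prs A).toList (dst (NoClique q)) x := by
  classical
  obtain ⟨K, hKne, hK1, hK2, hK3⟩ := hD
  have hlog : 0 < Real.log N := by
    apply Real.log_pos
    have : (3 : ℝ) ≤ N := by exact_mod_cast hN
    linarith
  have hpos : ∀ κ ∈ K, ∀ e ∈ prs (univ.image κ), 0 < b e := fun κ hκ e he =>
    lt_of_lt_of_le (by positivity) (hK2 κ hκ e he)
  have hF := block_F1 b (prs A).toList (NoClique q) K (fun κ => prs (univ.image κ)) hb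
    (Finset.nodup_toList _) (noClique_empty hq)
    (fun κ hκ z hz hfree => hfree (univ.image κ)
      (by rw [card_image_of_injective _ (hK1 κ hκ).1, card_univ, Fintype.card_fin]) hz)
    (fun κ hκ => by
      rw [Finset.toList_toFinset]
      intro e he
      rw [z1_mem_prs] at he ⊢
      refine ⟨fun v hv => ?_, he.2⟩
      obtain ⟨i, -, rfl⟩ := mem_image.mp (he.1 v hv)
      exact (hK1 κ hκ).2 i)
    hpos x
  set V := ∑ κ ∈ K, ∑ κ' ∈ K, ((prs (univ.image κ) ∩ prs (univ.image κ')).card : ℝ) *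
        ∏ e ∈ prs (univ.image κ) ∩ prs (univ.image κ'), (b e)⁻¹ with hV
  set D := Rs b (prs A).toList (dst (NoClique q)) x with hDdef
  have hD0 : 0 ≤ D := by
    have h1 := Rs_mono hb (prs A).toList (f := fun _ => (0 : ℝ)) (g := dst (NoClique q))
      (fun y => dst_nonneg y) x
    rw [Rs_const] at h1
    exact h1
  have hKc : (0 : ℝ) < (K.card : ℝ) ^ 2 := by
    have : (0 : ℝ) < K.card := by exact_mod_cast hKne.card_pos
    positivity
  rw [div_le_iff₀ (by positivity)]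
  have h1 : (K.card : ℝ) ^ 2 * (A.card : ℝ) ^ 2 ≤ D * V * (A.card : ℝ) ^ 2 :=
    mul_le_mul_of_nonneg_right hF (by positivity)
  have h2 : D * V * (A.card : ℝ) ^ 2 ≤ D * (Real.log N ^ C * (K.card : ℝ) ^ 2) := by
    rw [mul_assoc]
    exact mul_le_mul_of_nonneg_left hK3 hD0
  have h3 : (K.card : ℝ) ^ 2 * (A.card : ℝ) ^ 2 ≤ (K.card : ℝ) ^ 2 * (D * Real.log N ^ C) := by
    linarith
  exact le_of_mul_le_mul_left h3 hKc

/-- The numerical facts about the majorisation constants. -/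
lemma numeric_kd {ε y M s lr l2 : ℝ} (hε : 0 < ε) (hε1 : ε ≤ 1) (hM : 1 ≤ M) (hy0 : 0 < y)
    (hs0 : 0 ≤ s) (hs1 : s + 1 ≤ ε / 1600 * M) (hs2 : s ≤ 2 * M * y ^ 2) (hlr0 : 0 ≤ lr)
    (hlr : lr ≤ M ^ 2 * y ^ 2) (hl20 : 0 ≤ l2) (hl2 : l2 ≤ 1) (m mS E0 : ℝ)
    (hm : m = M * (M - 1) / 2) (hmS : mS = (M - s) * (M - s - 1) / 2)
    (hE0 : E0 = (s * M * l2 + lr) / y + y * m) :
    0 < mS ∧ 0 ≤ m ∧ 0 ≤ E0 ∧ m / mS ≤ 1 + ε / 400 ∧ E0 / mS ≤ 14 * y := by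
  have hM0 : 0 < M := by linarith
  have hM2 : 0 < M ^ 2 := by positivity
  have hNs : M * (1 - ε / 1600) ≤ M - s - 1 := by linarith
  have hc : (0 : ℝ) < 1 - ε / 1600 := by linarith
  have hNs0 : 0 < M - s - 1 := by
    have : 0 < M * (1 - ε / 1600) := mul_pos hM0 hc
    linarith
  have hmSge : M ^ 2 * (1 - ε / 1600) ^ 2 / 2 ≤ mS := by
    rw [hmS]
    have h1 : (M * (1 - ε / 1600)) ^ 2 ≤ (M - s - 1) ^ 2 :=
      pow_le_pow_left₀ (mul_nonneg hM0.le hc.le) hNs 2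
    have h2 : (M - s - 1) ^ 2 ≤ (M - s) * (M - s - 1) := by
      rw [sq]
      exact mul_le_mul_of_nonneg_right (by linarith) hNs0.le
    have h3 : (M * (1 - ε / 1600)) ^ 2 = M ^ 2 * (1 - ε / 1600) ^ 2 := by ring
    linarith
  have hmSpos : 0 < mS := by
    have : 0 < M ^ 2 * (1 - ε / 1600) ^ 2 / 2 := by positivity
    linarith
  have hmle : m ≤ M ^ 2 / 2 := by
    rw [hm]
    have : M * (M - 1) = M ^ 2 - M := by ring
    linarith
  have hm0 : 0 ≤ m := by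
    rw [hm]
    have : 0 ≤ M * (M - 1) := mul_nonneg hM0.le (by linarith)
    linarith
  have hs2n : 0 ≤ s * M * l2 := mul_nonneg (mul_nonneg hs0 hM0.le) hl20
  have hE00 : 0 ≤ E0 := by
    rw [hE0]
    have h1 : 0 ≤ (s * M * l2 + lr) / y := div_nonneg (by linarith) hy0.le
    have h2 : 0 ≤ y * m := mul_nonneg hy0.le hm0
    linarith
  refine ⟨hmSpos, hm0, hE00, ?_, ?_⟩
  · rw [div_le_iff₀ hmSpos]
    have hε2 : 0 ≤ ε ^ 2 := sq_nonneg ε
    have hy' : (1 : ℝ) ≤ (1 + ε / 400) * (1 - ε / 1600) ^ 2 := by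
      have e : (1 + ε / 400) * (1 - ε / 1600) ^ 2 =
        1 + ε / 800 + (ε ^ 2 / 1600 ^ 2 - ε ^ 2 / 320000) + ε ^ 3 / (400 * 1600 ^ 2) := by ring
      rw [e]
      have h3 : 0 ≤ ε ^ 3 := by positivity
      have h2 : ε ^ 2 ≤ ε := by
        have := mul_le_mul_of_nonneg_left hε1 hε.le
        rw [mul_one] at this
        rw [sq]; exact this
      have h4 : 0 ≤ ε ^ 3 / (400 * 1600 ^ 2) := by positivity
      linarith
    have h1 : (1 + ε / 400) * (M ^ 2 * (1 - ε / 1600) ^ 2 / 2) ≤ (1 + ε / 400) * mS :=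
      mul_le_mul_of_nonneg_left hmSge (by linarith)
    have h2 : M ^ 2 / 2 ≤ (1 + ε / 400) * (M ^ 2 * (1 - ε / 1600) ^ 2 / 2) := by
      have h0 : 0 ≤ M ^ 2 / 2 := by positivity
      have h3 : M ^ 2 / 2 * 1 ≤ M ^ 2 / 2 * ((1 + ε / 400) * (1 - ε / 1600) ^ 2) :=
        mul_le_mul_of_nonneg_left hy' h0
      have h4 : M ^ 2 / 2 * ((1 + ε / 400) * (1 - ε / 1600) ^ 2) =
        (1 + ε / 400) * (M ^ 2 * (1 - ε / 1600) ^ 2 / 2) := by ring
      linarith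
    linarith
  · rw [div_le_iff₀ hmSpos]
    have h1 : M ^ 2 / 4 ≤ mS := by
      have h2 : (1 : ℝ) / 2 ≤ (1 - ε / 1600) ^ 2 := by nlinarith
      have h3 : M ^ 2 * (1 / 2) ≤ M ^ 2 * (1 - ε / 1600) ^ 2 :=
        mul_le_mul_of_nonneg_left h2 hM2.le
      linarith
    have h2 : 14 * y * (M ^ 2 / 4) ≤ 14 * y * mS :=
      mul_le_mul_of_nonneg_left h1 (by linarith)
    have h3 : s * M * l2 ≤ 2 * M ^ 2 * y ^ 2 := by
      have a1 : s * M * l2 ≤ s * M * 1 := mul_le_mul_of_nonneg_left hl2 (mul_nonneg hs0 hM0.le)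
      have a2 : s * M ≤ 2 * M * y ^ 2 * M := mul_le_mul_of_nonneg_right hs2 hM0.le
      have a3 : 2 * M * y ^ 2 * M = 2 * M ^ 2 * y ^ 2 := by ring
      linarith
    have h4 : (s * M * l2 + lr) / y ≤ 3 * M ^ 2 * y := by
      rw [div_le_iff₀ hy0]
      have : 3 * M ^ 2 * y * y = 2 * M ^ 2 * y ^ 2 + M ^ 2 * y ^ 2 := by ring
      linarith
    have h5 : y * m ≤ M ^ 2 * y / 2 := by
      have : y * m ≤ y * (M ^ 2 / 2) := mul_le_mul_of_nonneg_left hmle hy0.le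
      have e : y * (M ^ 2 / 2) = M ^ 2 * y / 2 := by ring
      linarith
    have h6 : E0 ≤ 7 / 2 * M ^ 2 * y := by
      rw [hE0]; linarith
    have h7 : 14 * y * (M ^ 2 / 4) = 7 / 2 * M ^ 2 * y := by ring
    linarith

lemma numeric_eta {L : ℝ} (hL : 3200 ≤ L) : 0 < (L ^ 4)⁻¹ ∧ 4 * (L ^ 4)⁻¹ ≤ 1 := by
  have h0 : 0 < L ^ 4 := by positivity
  refine ⟨by positivity, ?_⟩
  have h1 : L ^ 1 ≤ L ^ 4 := pow_le_pow_right₀ (by linarith) (by norm_num)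
  rw [pow_one] at h1
  rw [← div_eq_mul_inv, div_le_one h0]
  linarith

lemma numeric_R {y : ℝ} (hy0 : 0 < y) (hy1 : y ≤ 1 / 20000) :
    (y ^ 2)⁻¹ / 2 ≤ (⌊(y ^ 2)⁻¹⌋₊ : ℝ) ∧ 1 ≤ ⌊(y ^ 2)⁻¹⌋₊ ∧
      (1 : ℝ) / (⌊(y ^ 2)⁻¹⌋₊ : ℝ) ≤ 2 * y ^ 2 := by
  have hy2 : 0 < y ^ 2 := by positivity
  have h2 : (2 : ℝ) ≤ (y ^ 2)⁻¹ := by
    rw [le_inv_comm₀ (by norm_num) hy2]
    nlinarith
  have hge : (y ^ 2)⁻¹ - 1 < (⌊(y ^ 2)⁻¹⌋₊ : ℝ) := Nat.sub_one_lt_floor _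
  have hhalf : (y ^ 2)⁻¹ / 2 ≤ (⌊(y ^ 2)⁻¹⌋₊ : ℝ) := by linarith
  have hpos : (0 : ℝ) < (⌊(y ^ 2)⁻¹⌋₊ : ℝ) := by linarith
  refine ⟨hhalf, ?_, ?_⟩
  · have : 0 < ⌊(y ^ 2)⁻¹⌋₊ := by exact_mod_cast hpos
    omega
  · rw [div_le_iff₀ hpos]
    have h3 : 2 * y ^ 2 * ((y ^ 2)⁻¹ / 2) ≤ 2 * y ^ 2 * (⌊(y ^ 2)⁻¹⌋₊ : ℝ) :=
      mul_le_mul_of_nonneg_left hhalf (by positivity)
    have h4 : 2 * y ^ 2 * ((y ^ 2)⁻¹ / 2) = 1 := by
      have : y ^ 2 * (y ^ 2)⁻¹ = 1 := mul_inv_cancel₀ hy2.ne'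
      calc 2 * y ^ 2 * ((y ^ 2)⁻¹ / 2) = y ^ 2 * (y ^ 2)⁻¹ := by ring
        _ = 1 := this
    linarith

lemma numeric_sqrt {y r : ℝ} (hy0 : 0 < y) (hr : r ≤ 2 * y ^ 2) : Real.sqrt r ≤ 2 * y := by
  rw [Real.sqrt_le_left (by linarith)]
  nlinarith

lemma numeric_P {ε : ℝ} (hε : 0 < ε) (hε1 : ε ≤ 1) :
    ε / 100 ≤ 1 - (1 + ε / 100) / (1 + ε / 24) := by
  have h1 : (1 + ε / 100) / (1 + ε / 24) ≤ 1 - ε / 100 := by
    rw [div_le_iff₀ (by linarith)]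
    nlinarith
  linarith

lemma numeric_fin {ε a p P r y Lc : ℝ} (hε : 0 < ε) (ha : 0 < a) (hLc : 0 < Lc)
    (hP : ε / 100 ≤ P) (hcore : P * (a ^ 2 / Lc) ≤ p * r) (hp0 : 0 ≤ p) (hp : p ≤ a ^ 2 / 2)
    (hr0 : 0 ≤ r) (hr : r ≤ 2 * y) (hz : Lc * y < ε / 200) : False := by
  have ha2 : 0 < a ^ 2 := by positivity
  have h1 : ε / 100 * (a ^ 2 / Lc) ≤ a ^ 2 / 2 * (2 * y) := by
    calc ε / 100 * (a ^ 2 / Lc) ≤ P * (a ^ 2 / Lc) :=
          mul_le_mul_of_nonneg_right hP (by positivity)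
      _ ≤ p * r := hcore
      _ ≤ a ^ 2 / 2 * (2 * y) := mul_le_mul hp hr hr0 (by positivity)
  have h2 : ε / 100 * (a ^ 2 / Lc) * Lc ≤ a ^ 2 / 2 * (2 * y) * Lc :=
    mul_le_mul_of_nonneg_right h1 hLc.le
  have h3 : ε / 100 * (a ^ 2 / Lc) * Lc = a ^ 2 * (ε / 100) := by
    field_simp
  have h4 : a ^ 2 / 2 * (2 * y) * Lc = a ^ 2 * (Lc * y) := by ring
  rw [h3, h4] at h2
  have h5 := le_of_mul_le_mul_left h2 ha2
  linarith

/-- The contradiction for fixed `N`: all smallness conditions are hypotheses. -/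
theorem fixedN (hC1 : Stmt_C1) (hB4 : Stmt_B4) {ε : ℝ} (hε : 0 < ε) (hε1 : ε ≤ 1)
    {C N q : ℕ} (hq : 2 ≤ q)
    (hDN : ∀ (A : Finset (Fin N)) (b : Sym2 (Fin N) → ℝ),
      (N : ℝ) ^ (1 - ε / 8) / 2 ≤ A.card → (∀ e, 0 ≤ b e ∧ b e ≤ 1) →
      ∑ e ∈ prs A, (gfun (Real.log N ^ 4)⁻¹ (b e) +
          (if b e < (Real.log N ^ 4)⁻¹ then Real.log N ^ 3 else 0)) ≤
        (1 + ε / 24) * (A.card.choose 2 : ℝ) →
      ∃ K : Finset (Fin q → Fin N), K.Nonempty ∧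
        (∀ κ ∈ K, Function.Injective κ ∧ ∀ i, κ i ∈ A) ∧
        (∀ κ ∈ K, ∀ e ∈ prs (univ.image κ), (Real.log N ^ 4)⁻¹ ≤ b e) ∧
        (∑ κ ∈ K, ∑ κ' ∈ K, ((prs (univ.image κ) ∩ prs (univ.image κ')).card : ℝ) *
          ∏ e ∈ prs (univ.image κ) ∩ prs (univ.image κ'), (b e)⁻¹) * (A.card : ℝ) ^ 2 ≤
          Real.log N ^ C * (K.card : ℝ) ^ 2)
    (hN3 : 3 ≤ N) (y : ℝ) (hy : y = (N : ℝ) ^ (-(ε / 32)))
    (hL : 3200 / ε ≤ Real.log N) (hz : Real.log N ^ 11 * y ≤ ε / 20000)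
    (hzC : Real.log N ^ C * y < ε / 200)
    (hs : 2 * (N : ℝ) * y ^ 2 + 2 ≤ ε / 1600 * N)
    (hN2 : Real.log (1 / ε) ≤ (N : ℝ) ^ 2 * y ^ 2) (hNy : 4 ≤ (N : ℝ) * y ^ 4)
    (w : Finset (Sym2 (Fin N)) → ℝ) (hw : ∀ M, 0 ≤ w M) (hw1 : ∑ M, w M = 1)
    (hsupp : ∀ M, ¬ M ⊆ prs (univ : Finset (Fin N)) → w M = 0) (hG : GameBound w)
    (ρ : ℝ) (hρ : ρ = ∑ M, w M * (open Classical in if NoClique q M then 1 else 0))
    (hρε : ε < ρ) : False := by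
  classical
  have hNpos : (0 : ℝ) < N := by
    have : (3 : ℝ) ≤ N := by exact_mod_cast hN3
    linarith
  have hN1 : (1 : ℝ) ≤ N := by
    have : (3 : ℝ) ≤ N := by exact_mod_cast hN3
    linarith
  have hy0 : 0 < y := by rw [hy]; positivity
  have hy2 : (N : ℝ) ^ (ε / 16) = (y ^ 2)⁻¹ := by
    rw [hy, ← Real.rpow_natCast, ← Real.rpow_mul hNpos.le, ← Real.rpow_neg hNpos.le]
    congr 1; push_cast; ring
  have hyA : (N : ℝ) ^ (1 - ε / 8) = N * y ^ 4 := by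
    rw [hy, ← Real.rpow_natCast, ← Real.rpow_mul hNpos.le, Real.rpow_sub hNpos,
      Real.rpow_one, div_eq_mul_inv, ← Real.rpow_neg hNpos.le]
    congr 2; push_cast; ring
  set L := Real.log N with hLdef
  have hL1 : 3200 ≤ L := by
    have : 3200 ≤ 3200 / ε := by rw [le_div_iff₀ hε]; nlinarith
    linarith
  have hLpos : 0 < L := by linarith
  have hyε : y ≤ ε / 20000 := by
    have : (1 : ℝ) ≤ L ^ 11 := one_le_pow₀ (by linarith)
    nlinarith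
  have hy1 : y ≤ 1 / 20000 := by linarith
  -- the conditioned law
  have hρ0 : 0 < ρ := hε.trans hρε
  have hρ1 : ρ ≤ 1 := by
    have h1 : ρ ≤ ∑ M, w M := by
      rw [hρ]
      refine sum_le_sum fun M _ => ?_
      have := hw M
      split_ifs
      · rw [mul_one]
      · rw [mul_zero]; exact this
    linarith
  set w' : Finset (Sym2 (Fin N)) → ℝ := fun M => if NoClique q M then w M / ρ else 0 with hw'
  have hw'0 : ∀ M, 0 ≤ w' M := fun M => by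
    simp only [hw']; split_ifs; exacts [div_nonneg (hw M) hρ0.le, le_rfl]
  have hw'le : ∀ M, w' M ≤ w M / ρ := fun M => by
    simp only [hw']; split_ifs; exacts [le_rfl, div_nonneg (hw M) hρ0.le]
  have hw'1 : ∑ M, w' M = 1 := by
    have : ∀ M, w' M = (w M * (if NoClique q M then 1 else 0)) / ρ := fun M => by
      simp only [hw']; split_ifs <;> simp
    rw [sum_congr rfl fun M _ => this M, ← sum_div, ← hρ, div_self hρ0.ne']
  have hw'supp : ∀ M, w' M ≠ 0 → NoClique q M := fun M hM => by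
    by_contra h
    exact hM (by simp only [hw']; rw [if_neg h])
  -- parameters
  set n : ℕ := ⌊(N : ℝ) * y ^ 4⌋₊ with hn
  set s0 : ℕ := ⌊(N : ℝ) * y ^ 2⌋₊ with hs0
  set R : ℕ := ⌊(y ^ 2)⁻¹⌋₊ with hR
  have hn_le : (n : ℝ) ≤ N * y ^ 4 := Nat.floor_le (by positivity)
  have hn_ge : (N : ℝ) * y ^ 4 - 1 < n := Nat.sub_one_lt_floor _
  have hs0_le : (s0 : ℝ) ≤ N * y ^ 2 := Nat.floor_le (by positivity)
  have hR_le : (R : ℝ) ≤ (y ^ 2)⁻¹ := Nat.floor_le (by positivity)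
  obtain ⟨hRhalf, hR1, hRinv⟩ := numeric_R hy0 hy1
  rw [← hR] at hRhalf hR1 hRinv
  have hRn : (R : ℝ) * n ≤ N * y ^ 2 := by
    calc (R : ℝ) * n ≤ (y ^ 2)⁻¹ * (N * y ^ 4) :=
          mul_le_mul hR_le hn_le (Nat.cast_nonneg _) (by positivity)
      _ = N * y ^ 2 := by field_simp
  have htot : ((s0 + R * n + 2 : ℕ) : ℝ) ≤ ε / 1600 * N := by
    push_cast; linarith
  have htotN : s0 + R * n + 2 ≤ N := by
    have : ((s0 + R * n + 2 : ℕ) : ℝ) ≤ N := htot.trans (by nlinarith)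
    exact_mod_cast this
  obtain ⟨k, hkR, hwin⟩ := hB4 w' hw'0 hw'1 R n s0 hR1 htotN
  -- the sets of positions
  set s := s0 + k * n with hsdef
  have hsn : s + n ≤ s0 + R * n := by
    have : (k + 1) * n ≤ R * n := Nat.mul_le_mul_right _ hkR
    have h2 : (k + 1) * n = k * n + n := by ring
    omega
  obtain ⟨S, -, hScard⟩ := Finset.exists_subset_card_eq
    (s := (univ : Finset (Fin N))) (n := s) (by rw [card_univ, Fintype.card_fin]; omega)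
  obtain ⟨A, hAS, hAcard⟩ := Finset.exists_subset_card_eq (s := Sᶜ) (n := n)
    (by rw [card_compl, Fintype.card_fin, hScard]; omega)
  have hd : Disjoint S A := by
    rw [Finset.disjoint_left]
    intro v hv hv'
    exact (mem_compl.mp (hAS hv')) hv
  have hB := hwin S A hd hScard hAcard
  have hn2 : 2 ≤ n := by
    have : (2 : ℝ) < n := by linarith
    have : 2 < n := by exact_mod_cast this
    omega
  have hAhalf : (N : ℝ) ^ (1 - ε / 8) / 2 ≤ A.card := by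
    rw [hyA, hAcard]; linarith
  have hprs : (prs A).card = A.card.choose 2 := card_prs A
  have hprspos : 0 < (prs A).card := by
    rw [hprs, hAcard]
    exact Nat.choose_pos hn2
  -- majorisation
  set mS : ℝ := ((N - S.card).choose 2 : ℝ) with hmS
  set m : ℝ := (N.choose 2 : ℝ) with hm
  have hsle : (s : ℝ) + n ≤ ε / 1600 * N - 2 := by
    have : ((s + n : ℕ) : ℝ) ≤ ((s0 + R * n : ℕ) : ℝ) := by exact_mod_cast hsn
    push_cast at this htot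
    linarith
  have hn0 : (0 : ℝ) ≤ n := Nat.cast_nonneg _
  have hsle' : (s : ℝ) + 1 ≤ ε / 1600 * N := by linarith
  have hsleN : s ≤ N := by omega
  have hmval : m = (N : ℝ) * (N - 1) / 2 := by
    rw [hm, Nat.cast_choose_two]
  have hmSval : mS = ((N : ℝ) - s) * ((N : ℝ) - s - 1) / 2 := by
    rw [hmS, hScard, Nat.cast_choose_two, Nat.cast_sub hsleN]
  have hs2 : (s : ℝ) ≤ 2 * N * y ^ 2 := by
    have : ((s : ℕ) : ℝ) ≤ ((s0 + R * n : ℕ) : ℝ) := by exact_mod_cast (by omega)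
    push_cast at this
    linarith
  have hlogρ : Real.log (1 / ρ) ≤ Real.log (1 / ε) := by
    apply Real.log_le_log (by positivity)
    exact one_div_le_one_div_of_le hε hρε.le
  have hlogρ0 : 0 ≤ Real.log (1 / ρ) := by
    apply Real.log_nonneg
    rw [le_div_iff₀ hρ0]; linarith
  have hlog2 : 0 ≤ Real.log 2 := Real.log_nonneg (by norm_num)
  have hlog2' : Real.log 2 ≤ 1 := by
    have := Real.log_two_lt_d9; linarith
  set E0 : ℝ := ((S.card * N : ℕ) * Real.log 2 + Real.log (1 / ρ)) / y + y * m with hE0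
  set κ : ℝ := m / mS with hκ
  set δ : ℝ := E0 / mS with hδ
  obtain ⟨hmSpos, hm0, hE00, hκle, hδle⟩ := numeric_kd hε hε1 hN1 hy0 (Nat.cast_nonneg s) hsle' hs2
    hlogρ0 (hlogρ.trans hN2) hlog2 hlog2' m mS E0 hmval hmSval (by
      rw [hE0, hScard, Nat.cast_mul])
  have hκ0 : 0 ≤ κ := div_nonneg hm0 hmSpos.le
  have hδ0 : 0 ≤ δ := div_nonneg hE00 hmSpos.le
  have hmaj : ∀ e ∈ prs A, ∀ l : ℝ, 0 ≤ l → l ≤ 1 →
      ∑ ω, Wt w' ω * max (l - aS w' S e ω) 0 ≤ l ^ 2 / 2 * κ + δ := by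
    intro e he l hl0 hl1
    have heA := z1_mem_prs.mp he
    have hdis : Disjoint S e.toFinset := by
      rw [Finset.disjoint_left]
      intro v hv hv'
      rw [Sym2.mem_toFinset] at hv'
      exact (Finset.disjoint_left.mp hd) hv (heA.1 v hv')
    have h1 := hC1 w w' ρ hw hsupp hG hρ0 hρ1 hw'0 hw'le hw'1 S e heA.2 hdis y l hy0
      (by linarith) hl0 hl1
    have h2 : ∑ ω, Wt w' ω * max (l - aS w' S e ω) 0 ≤ (l ^ 2 / 2 * m + E0) / mS := by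
      rw [le_div_iff₀ hmSpos]
      rw [hE0]
      calc (∑ ω, Wt w' ω * max (l - aS w' S e ω) 0) * mS
          = mS * ∑ ω, Wt w' ω * max (l - aS w' S e ω) 0 := by ring
        _ ≤ _ := h1
        _ = _ := by ring
    refine h2.trans (le_of_eq ?_)
    rw [hκ, hδ]; ring
  obtain ⟨hη0, hη1⟩ := numeric_eta hL1
  have hexp : ∀ e ∈ prs A, ∑ ω, Wt w' ω * (gfun (L ^ 4)⁻¹ (bfun w' S A (obs (QA S A) ω) e) +
      (if bfun w' S A (obs (QA S A) ω) e < (L ^ 4)⁻¹ then L ^ 3 else 0)) ≤ 1 + ε / 100 := by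
    intro e he
    refine (exp_h hw'0 hw'1 hd hB hκ0 hδ0 hmaj hη0 hη1 (by positivity) he).trans ?_
    exact numeric_exp hε hε1 hL hy0 hz hκle hδle (by positivity) hRinv
  -- the good event
  set Good : Equiv.Perm (Fin N) × Finset (Sym2 (Fin N)) → Prop := fun t =>
    ∑ e ∈ prs A, (gfun (L ^ 4)⁻¹ (bfun w' S A t e) +
      (if bfun w' S A t e < (L ^ 4)⁻¹ then L ^ 3 else 0)) ≤
        (1 + ε / 24) * (A.card.choose 2 : ℝ) with hGood
  have hη1' : (L ^ 4)⁻¹ ≤ 1 := by linarith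
  have hgp := good_prob (S := S) (A := A) hw'0 hw'1 (θ := ε / 24) (τ := ε / 100) (by positivity)
    hprspos hη0 hη1' (by positivity) hexp Good (by
      intro t ht
      rw [hGood] at ht
      simp only [not_le] at ht
      rw [hprs]
      exact ht)
  have hcore := core (S := S) (A := A) hq hw'0 hw'1 hw'supp hd hB Good
    ((A.card : ℝ) ^ 2 / L ^ C) (by
      intro t x ht
      exact dist_bound (ε := ε) hN3 (bfun_mem S A hw'0 t) hq
        (hDN A (bfun w' S A t) hAhalf (bfun_mem S A hw'0 t) ht) x)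
  have hApos : (0 : ℝ) < A.card := by
    have : 0 < A.card := by omega
    exact_mod_cast this
  have hprsle : ((prs A).card : ℝ) ≤ (A.card : ℝ) ^ 2 / 2 := by
    rw [hprs, Nat.cast_choose_two]
    have : (0 : ℝ) ≤ A.card := Nat.cast_nonneg _
    nlinarith
  exact numeric_fin hε hApos (by positivity) ((numeric_P hε hε1).trans hgp) hcore
    (Nat.cast_nonneg _) hprsle (Real.sqrt_nonneg _) (numeric_sqrt hy0 hRinv) hzC

end Pool.Agent.RandomMakerFull
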