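import Pool.Agent.Work.MP_ecc80d_co_h34.Interface

/-!
# Block Z2: from the abstract lower bound to the clique probability
-/

namespace Pool.Agent.RandomMakerFull

open Finset Filter
open Pool.Agent.RandomMaker (BreakerStrategy cliqueProb winProb minProb)

lemma z2_prs_univ (N : ℕ) :
    (⊤ : SimpleGraph (Fin N)).edgeFinset = prs (univ : Finset (Fin N)) := by
  ext e
  unfold prs
  rw [SimpleGraph.mem_edgeFinset, mem_filter]
  induction e with
  | _ a b => simp

lemma z2_card_prs_univ (N : ℕ) : (prs (univ : Finset (Fin N))).card = N.choose 2 := by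
  rw [← z2_prs_univ, SimpleGraph.card_edgeFinset_top_eq_card_choose_two, Fintype.card_fin]

lemma z2_mem_prs {N : ℕ} {T : Finset (Fin N)} {u v : Fin N} :
    s(u, v) ∈ prs T ↔ u ∈ T ∧ v ∈ T ∧ u ≠ v := by
  unfold prs
  rw [mem_filter, Finset.mk_mem_sym2_iff, Sym2.mk_isDiag_iff]
  tauto

/-- A set of edges without `q`-clique in the sense of graphs has no `q`-clique in the sense of
`NoClique`. -/
lemma noClique_of_cliqueFree {N q : ℕ} {M : Finset (Sym2 (Fin N))}
    (h : (SimpleGraph.fromEdgeSet (M : Set (Sym2 (Fin N)))).CliqueFree q) : NoClique q M := by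
  intro T hT hsub
  apply h T
  rw [SimpleGraph.isNClique_iff]
  refine ⟨?_, hT⟩
  intro u hu v hv huv
  rw [SimpleGraph.fromEdgeSet_adj]
  exact ⟨by exact_mod_cast hsub (z2_mem_prs.mpr ⟨hu, hv, huv⟩), huv⟩

theorem block_Z2 (hA1 : Stmt_A1) (hZ1 : Stmt_Z1) : Stmt_Z2 := by
  intro ε hε
  set ε' : ℝ := min ε 1 / 2 with hε'
  have hε'pos : 0 < ε' := by
    rw [hε']
    have : 0 < min ε 1 := lt_min hε one_pos
    linarith
  have hε'1 : ε' ≤ 1 := by
    rw [hε']
    have : min ε 1 ≤ 1 := min_le_right _ _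
    linarith
  have hε'ε : ε' < ε := by
    rw [hε']
    have h1 : min ε 1 ≤ ε := min_le_left _ _
    linarith
  filter_upwards [hZ1 ε' hε'pos hε'1, eventually_ge_atTop 1] with N hN hN1 q hq
  have hlog : 0 ≤ Real.log N := Real.log_nonneg (by exact_mod_cast hN1)
  have hq' : (q : ℝ) ≤ (2 - ε') * Real.log N := by
    refine hq.trans ?_
    exact mul_le_mul_of_nonneg_right (by linarith) hlog
  refine lt_of_lt_of_le (show 1 - ε < 1 - ε' by linarith) ?_
  unfold cliqueProb minProb
  have : Nonempty (BreakerStrategy (⊤ : SimpleGraph (Fin N)).edgeFinset) :=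
    ⟨⟨fun h m => if hne : ((⊤ : SimpleGraph (Fin N)).edgeFinset \
        insert m (Pool.Agent.RandomMaker.claimed h)).Nonempty then hne.choose else m,
      fun h m hne => by rw [dif_pos hne]; exact hne.choose_spec⟩⟩
  apply le_ciInf
  intro σ
  obtain ⟨w, hw0, hwE, hw1, hwf, hwt⟩ := hA1 (⊤ : SimpleGraph (Fin N)).edgeFinset σ
  have hsum : ∀ f : Finset (Sym2 (Fin N)) → ℝ, ∑ M, w M * f M =
      ∑ M ∈ (⊤ : SimpleGraph (Fin N)).edgeFinset.powerset, w M * f M := by
    intro f
    symm
    apply sum_subset (subset_univ _)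
    intro M _ hM
    rw [mem_powerset] at hM
    rw [hwE M hM, zero_mul]
  have hGB : GameBound w := by
    intro L hL t ht0 ht1
    rw [hsum, ← z2_card_prs_univ, ← z2_prs_univ]
    exact hwt L (by rw [z2_prs_univ]; exact hL) t ht0 ht1
  have hone : ∑ M, w M = 1 := by
    have := hsum (fun _ => 1)
    simp only [mul_one] at this
    rw [this, hw1]
  have hE' : ∀ M, ¬ M ⊆ prs (univ : Finset (Fin N)) → w M = 0 := by
    intro M hM
    rw [← z2_prs_univ] at hM
    exact hwE M hM
  have key := hN w hw0 hone hE' hGB q hq'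
  unfold winProb
  rw [hwf, ← hsum]
  have h3 : 1 - ε' ≤ ∑ M, (w M - w M * (open Classical in if NoClique q M then (1 : ℝ) else 0)) := by
    rw [sum_sub_distrib, hone]
    linarith
  refine h3.trans (sum_le_sum fun M _ => ?_)
  classical
  by_cases hc : (SimpleGraph.fromEdgeSet (M : Set (Sym2 (Fin N)))).CliqueFree q
  · rw [if_pos (noClique_of_cliqueFree hc), if_neg (not_not.mpr hc)]
    simp
  · rw [if_pos hc]
    have : 0 ≤ w M * (if NoClique q M then (1 : ℝ) else 0) := by
      apply mul_nonneg (hw0 M)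
      split_ifs <;> norm_num
    linarith

end Pool.Agent.RandomMakerFull
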